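import Pool.Agent.Run7.h247.Cone

/-!
# Bilinear telescoping: sums over the colour of a vertex adjacent to a clique
-/

set_option autoImplicit false

namespace Run7.h247

open Finset Polynomial

variable {R : Type*} [CommRing R] (q : R) {N : ℕ} (x : Fin N → R)

/-- product over all `s` of `1 + q^[k ≤ s] y_s w`. -/
noncomputable def Qp (y : Fin N → R) (k : ℕ) : R[X] :=
  ∏ s : Fin N, (1 + C ((if s.val < k then 1 else q) * y s) * X)

/-- coefficients of `Qp`. -/
noncomputable def Qf (y : Fin N → R) (k : ℕ) : ℕ → R := fun c => (Qp q y k).coeff c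

/-- coefficients of `∏_{s ≠ a} (1 + q^[a < s] y_s w)`. -/
noncomputable def Mf (y : Fin N → R) (a : Fin N) : ℕ → R := ef (fun s => g q a s * y s)

/-- shift of `Mf` by `y a`. -/
noncomputable def Df (y : Fin N → R) (a : Fin N) : ℕ → R
  | 0 => 0
  | c + 1 => y a * Mf q y a c

lemma isShiftD (y : Fin N → R) (a : Fin N) : IsShift (y a) (Mf q y a) (Df q y a) :=
  ⟨rfl, fun _ => rfl⟩

lemma Mp_eq (y : Fin N → R) (a : Fin N) :
    (∏ s : Fin N, (1 + C (g q a s * y s) * X) : R[X])
      = ∏ s ∈ univ.erase a, (1 + C ((if a < s then q else 1) * y s) * X) := by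
  rw [← Finset.mul_prod_erase univ _ (mem_univ a)]
  have : (1 + C (g q a a * y a) * X : R[X]) = 1 := by simp [g]
  rw [this, one_mul]
  refine Finset.prod_congr rfl fun s hs => ?_
  have hne := Finset.ne_of_mem_erase hs
  rw [g, if_neg (Ne.symm hne)]

lemma Qp_val (y : Fin N → R) (a : Fin N) : Qp q y a.val
    = (1 + C (q * y a) * X) * ∏ s : Fin N, (1 + C (g q a s * y s) * X) := by
  rw [Mp_eq, Qp, ← Finset.mul_prod_erase univ _ (mem_univ a)]
  rw [if_neg (lt_irrefl _)]
  congr 1
  refine Finset.prod_congr rfl fun s hs => ?_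
  have hne := Finset.ne_of_mem_erase hs
  have : s.val ≠ a.val := fun h => hne (Fin.ext h)
  congr 3
  simp only [Fin.lt_def]
  split_ifs <;> first | rfl | (exfalso; omega)

lemma Qp_succ (y : Fin N → R) (a : Fin N) : Qp q y (a.val + 1)
    = (1 + C (y a) * X) * ∏ s : Fin N, (1 + C (g q a s * y s) * X) := by
  rw [Mp_eq, Qp, ← Finset.mul_prod_erase univ _ (mem_univ a)]
  rw [if_pos (Nat.lt_succ_self _), one_mul]
  congr 1
  refine Finset.prod_congr rfl fun s hs => ?_
  have hne := Finset.ne_of_mem_erase hs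
  have : s.val ≠ a.val := fun h => hne (Fin.ext h)
  congr 3
  simp only [Fin.lt_def]
  split_ifs <;> first | rfl | (exfalso; omega)

lemma Qf_val (y : Fin N → R) (a : Fin N) :
    Qf q y a.val = Mf q y a + q • Df q y a := by
  funext c
  simp only [Qf, Qp_val, Pi.add_apply, add_mul, one_mul, coeff_add, Mf, ef, Pi.smul_apply,
    smul_eq_mul]
  congr 1
  cases c with
  | zero => simp [Df]
  | succ c =>
    rw [mul_assoc, coeff_C_mul, coeff_X_mul, Df, Mf, ef]
    ring

lemma Qf_succ (y : Fin N → R) (a : Fin N) :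
    Qf q y (a.val + 1) = Mf q y a + Df q y a := by
  funext c
  simp only [Qf, Qp_succ, Pi.add_apply, add_mul, one_mul, coeff_add, Mf, ef]
  congr 1
  cases c with
  | zero => simp [Df]
  | succ c =>
    rw [mul_assoc, coeff_C_mul, coeff_X_mul, Df, Mf, ef]

lemma Qf_zero (y : Fin N → R) : Qf q y 0 = fun c => q ^ c * ef y c := by
  funext c
  have : Qp q y 0 = (∏ s : Fin N, (1 + C (y s) * X)).comp (C q * X) := by
    rw [Polynomial.prod_comp]
    refine Finset.prod_congr rfl fun s _ => ?_
    rw [if_neg (Nat.not_lt_zero _)]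
    simp only [add_comp, one_comp, mul_comp, C_comp, X_comp, C_mul]
    ring
  simp only [Qf, this, comp_C_mul_X_coeff, ef]
  ring

lemma Qf_N (y : Fin N → R) : Qf q y N = ef y := by
  funext c
  have : Qp q y N = ∏ s : Fin N, (1 + C (y s) * X) := by
    refine Finset.prod_congr rfl fun s _ => ?_
    rw [if_pos s.isLt, one_mul]
  simp only [Qf, this, ef]

/-- the bilinear potential. -/
noncomputable def Ph (l : R) (r c : ℕ) (y : Fin N → R) (k : ℕ) : R :=
  V l r c (Qf q y k) (Pf q x k)

lemma V_diff {l a : R} {W E M D : ℕ → R} (hE : IsShift a W E) (hD : IsShift (l * a) M D)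
    (r c : ℕ) : V l r c M E - V l r c D W = M r * E c := by
  cases r with
  | zero =>
    simp only [V_apply, Finset.Nat.antidiagonal_zero, sum_singleton, pow_zero, one_mul,
      Nat.add_zero, hD.1, zero_mul, sub_zero]
  | succ r =>
    rw [V_succ, V_shift_left hD, V_shift_right hE]
    ring

/-- the telescoping step. -/
lemma Ph_step {l : R} {y : Fin N → R} {a : Fin N} (hy : y a = l * x a) (r c : ℕ) :
    Ph q x l r c y (a.val + 1) - Ph q x l r c y a.val
      = (q - 1) * (Mf q y a r * Ef q x a c) := by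
  have h1 := V_diff (isShift q x a) (hy ▸ isShiftD q y a) r c
  rw [← h1]
  unfold Ph
  rw [Qf_val, Qf_succ, Pf_val, Pf_succ]
  simp only [map_add, map_smul, LinearMap.add_apply, LinearMap.smul_apply, smul_eq_mul]
  ring

/-- the collapsing identity. -/
lemma V_collapse {l a : R} {W E Qs M : ℕ → R} (hE : IsShift a W E) (hM0 : M 0 = Qs 0)
    (hM : ∀ i, M (i + 1) = Qs (i + 1) + q * l * a * Qs i) (r c : ℕ) :
    q * l * V (q * l) r (c + 1) Qs (W + E) - l * V l r (c + 1) Qs (W + q • E)
      = (q - 1) * (l * ∑ p ∈ antidiagonal r, l ^ p.2 * qn q (p.2 + 1) * M p.1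
          * W (c + 1 + p.2)) := by
  have hE' : ∀ j, E (c + 1 + j) = a * W (c + j) := by
    intro j
    rw [show c + 1 + j = (c + j) + 1 by omega, hE.2]
  have hq : ∀ j, (q - 1) * qn q (j + 1) = q ^ (j + 1) - 1 := fun j => qn_mul q (j + 1)
  have hL : q * l * V (q * l) r (c + 1) Qs (W + E) - l * V l r (c + 1) Qs (W + q • E)
      = (∑ p ∈ antidiagonal r, l ^ (p.2 + 1) * (q ^ (p.2 + 1) - 1) * Qs p.1 * W (c + 1 + p.2))
        + ∑ p ∈ antidiagonal r, l ^ (p.2 + 1) * (q * (q ^ p.2 - 1)) * a * Qs p.1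
          * W (c + p.2) := by
    rw [V_apply, V_apply, Finset.mul_sum, Finset.mul_sum, ← Finset.sum_sub_distrib,
      ← Finset.sum_add_distrib]
    refine Finset.sum_congr rfl fun p _ => ?_
    simp only [Pi.add_apply, Pi.smul_apply, smul_eq_mul, hE', mul_pow]
    ring
  have hR : (q - 1) * (l * ∑ p ∈ antidiagonal r, l ^ p.2 * qn q (p.2 + 1) * M p.1
          * W (c + 1 + p.2))
      = ∑ p ∈ antidiagonal r, l ^ (p.2 + 1) * (q ^ (p.2 + 1) - 1) * M p.1
          * W (c + 1 + p.2) := by
    rw [Finset.mul_sum, Finset.mul_sum]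
    refine Finset.sum_congr rfl fun p _ => ?_
    rw [← hq]
    ring
  rw [hL, hR]
  cases r with
  | zero =>
    simp only [Finset.Nat.antidiagonal_zero, sum_singleton, hM0]
    ring
  | succ r =>
    rw [Finset.Nat.sum_antidiagonal_succ' (f := fun p => l ^ (p.2 + 1) * (q * (q ^ p.2 - 1)) * a
      * Qs p.1 * W (c + p.2))]
    rw [Finset.Nat.sum_antidiagonal_succ, Finset.Nat.sum_antidiagonal_succ]
    simp only [hM0, hM, pow_zero, sub_self, mul_zero, zero_mul, zero_add, mul_add, add_mul,
      Finset.sum_add_distrib, add_assoc]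
    congr 2
    refine Finset.sum_congr rfl fun p _ => ?_
    rw [show c + (p.2 + 1) = c + (1 + p.2) by omega]
    ring

end Run7.h247
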