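import Pool.Agent.Run7.h247.Transfer

/-!
# From cones to expansions indexed by partitions
-/

set_option autoImplicit false

namespace Run7.h247

open Finset Polynomial

lemma ef_eq_esymm (N c : ℕ) :
    ef (MvPolynomial.X : Fin N → MvPolynomial (Fin N) ℤ[X]) c
      = MvPolynomial.esymm (Fin N) ℤ[X] c := by
  unfold ef MvPolynomial.esymm
  rw [Finset.prod_one_add, finsetSum_coeff]
  have : ∀ t ∈ (univ : Finset (Fin N)).powerset,
      (∏ i ∈ t, C (MvPolynomial.X i : MvPolynomial (Fin N) ℤ[X]) * X).coeff c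
      = if t.card = c then ∏ i ∈ t, (MvPolynomial.X i : MvPolynomial (Fin N) ℤ[X]) else 0 := by
    intro t _
    rw [Finset.prod_mul_distrib, Finset.prod_const, ← map_prod, coeff_C_mul_X_pow]
    simp only [eq_comm]
  rw [Finset.sum_congr rfl this, ← Finset.sum_filter]
  congr 1
  ext t
  simp [Finset.mem_powersetCard]

/-- expansion over partitions. -/
def Exp (N n m : ℕ) (r : MvPolynomial (Fin N) ℤ[X]) : Prop :=
  ∃ a : Nat.Partition n → ℤ[X],
    r = ∑ μ : Nat.Partition n, MvPolynomial.C (a μ) *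
      (μ.parts.map (fun k => MvPolynomial.esymm (Fin N) ℤ[X] k)).prod
    ∧ ∀ μ, PU m (a μ)

lemma exp_of_cone {N n m : ℕ} {r : MvPolynomial (Fin N) ℤ[X]}
    (h : Cone0 (MvPolynomial.C : ℤ[X] →+* MvPolynomial (Fin N) ℤ[X]) MvPolynomial.X n m r) :
    Exp N n m r := by
  induction h with
  | zero => exact ⟨fun _ => 0, by simp, fun _ => PU.zero m⟩
  | add _ _ ih1 ih2 =>
    obtain ⟨a, ha, ha'⟩ := ih1
    obtain ⟨b, hb, hb'⟩ := ih2
    refine ⟨fun μ => a μ + b μ, ?_, fun μ => (ha' μ).add (hb' μ)⟩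
    rw [ha, hb, ← Finset.sum_add_distrib]
    refine Finset.sum_congr rfl fun μ _ => ?_
    rw [map_add, add_mul]
  | gen s p hs hp =>
    classical
    refine ⟨Pi.single (Nat.Partition.ofSums n s hs) p, ?_, fun μ => ?_⟩
    · rw [Finset.sum_eq_single (Nat.Partition.ofSums n s hs)]
      · rw [Pi.single_eq_same]
        congr 1
        unfold es
        show _ = ((s.filter (· ≠ 0)).map _).prod
        clear hs
        induction s using Multiset.induction with
        | empty => simp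
        | cons a s ih =>
          by_cases h0 : a = 0
          · subst h0
            rw [Multiset.map_cons, Multiset.prod_cons, ef_zero, one_mul, ih,
              Multiset.filter_cons_of_neg _ (by simp)]
          · rw [Multiset.map_cons, Multiset.prod_cons, ih,
              Multiset.filter_cons_of_pos (p := fun x => x ≠ 0) _ h0, Multiset.map_cons, Multiset.prod_cons,
              ef_eq_esymm]
      · intro μ _ hμ
        rw [Pi.single_eq_of_ne hμ, map_zero, zero_mul]
      · intro h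
        exact absurd (mem_univ _) h
    · by_cases hμ : μ = Nat.Partition.ofSums n s hs
      · subst hμ
        rw [Pi.single_eq_same]; exact hp
      · rw [Pi.single_eq_of_ne hμ]; exact PU.zero m

lemma PU.unpack {E : ℕ} {p : ℤ[X]} (h : PU E p) :
    (∀ i : ℕ, 0 ≤ p.coeff i) ∧ (∀ i : ℕ, E < i → p.coeff i = 0)
      ∧ (∀ i : ℕ, i ≤ E → p.coeff i = p.coeff (E - i))
      ∧ (∀ i j : ℕ, i ≤ j → 2 * j ≤ E → p.coeff i ≤ p.coeff j) :=
  ⟨h.nonneg, fun i hi => coeff_eq_zero_of_natDegree_lt (lt_of_le_of_lt h.deg hi),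
    fun _ hi => h.coeff_symm hi, fun _ _ hij hj => h.le hij hj⟩

/-- the extension of `h` to natural numbers. -/
def ext {n : ℕ} (h : Fin n → Fin n) (i : ℕ) : ℕ := if hi : i < n then (h ⟨i, hi⟩).val else i

lemma ext_val {n : ℕ} (h : Fin n → Fin n) (i : Fin n) : ext h i.val = (h i).val := by
  simp [ext]

lemma wt_eq {n N : ℕ} (h : Fin n → Fin n) (κ : Fin n → Fin N) :
    wt (MvPolynomial.C (X : ℤ[X])) (MvPolynomial.X : Fin N → MvPolynomial (Fin N) ℤ[X])
      (ext h) n κ
    = if (∀ i j : Fin n, i < j → j ≤ h i → κ i ≠ κ j) then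
        MvPolynomial.C (X ^ ((univ.filter
          (fun p : Fin n × Fin n => p.1 < p.2 ∧ p.2 ≤ h p.1 ∧ κ p.1 < κ p.2)).card))
            * ∏ i : Fin n, MvPolynomial.X (κ i) else 0 := by
  unfold wt
  rw [Finset.prod_mul_distrib, Finset.prod_comm, ← Finset.univ_product_univ,
    ← Finset.prod_product']
  simp only [ext_val, ← Fin.lt_def, ← Fin.le_def]
  rw [← Finset.prod_filter (s := univ ×ˢ univ) (fun p : Fin n × Fin n => p.1 < p.2 ∧ p.2 ≤ h p.1)]
  split_ifs with hp
  · rw [mul_comm]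
    congr 1
    have h1 : ∀ p ∈ (univ ×ˢ univ : Finset (Fin n × Fin n)).filter
        (fun p => p.1 < p.2 ∧ p.2 ≤ h p.1),
        g (MvPolynomial.C (X : ℤ[X]) : MvPolynomial (Fin N) ℤ[X]) (κ p.1) (κ p.2)
          = if κ p.1 < κ p.2 then MvPolynomial.C (X : ℤ[X]) else 1 := by
      intro p hp'
      rw [mem_filter] at hp'
      rw [g, if_neg (hp _ _ hp'.2.1 hp'.2.2)]
    rw [Finset.prod_congr rfl h1, ← Finset.prod_filter, Finset.prod_const, map_pow]
    congr 2
    ext p
    simp [and_assoc]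
  · push Not at hp
    obtain ⟨i, j, h1, h2, h3⟩ := hp
    have : (∏ p ∈ (univ ×ˢ univ : Finset (Fin n × Fin n)).filter
        (fun p => p.1 < p.2 ∧ p.2 ≤ h p.1),
        g (MvPolynomial.C (X : ℤ[X]) : MvPolynomial (Fin N) ℤ[X]) (κ p.1) (κ p.2)) = 0 := by
      refine Finset.prod_eq_zero (i := (i, j)) ?_ ?_
      · simp [h1, h2]
      · rw [g, if_pos h3]
    rw [this, mul_zero]

lemma Es_eq {n : ℕ} (h : Fin n → Fin n) :
    Es (ext h) n = (univ.filter (fun p : Fin n × Fin n => p.1 < p.2 ∧ p.2 ≤ h p.1)).card := by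
  rw [Finset.card_filter, ← Finset.univ_product_univ, Finset.sum_product, Finset.sum_comm]
  have h1 : ∀ j : Fin n, (∑ i : Fin n, if i < j ∧ j ≤ h i then 1 else 0)
      = ((range j.val).filter (fun i => j.val ≤ ext h i)).card := by
    intro j
    have h2 : ∀ i : Fin n, (if i < j ∧ j ≤ h i then 1 else 0)
        = (fun k : ℕ => if k < j.val ∧ j.val ≤ ext h k then 1 else 0) i.val := by
      intro i
      simp only [ext_val, Fin.lt_def, Fin.le_def]
    rw [Finset.sum_congr rfl fun i _ => h2 i,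
      Fin.sum_univ_eq_sum_range (fun k : ℕ => if k < j.val ∧ j.val ≤ ext h k then 1 else 0) n,
      ← Finset.card_filter]
    congr 1
    ext k
    simp only [mem_filter, mem_range]
    have := j.isLt
    constructor
    · rintro ⟨_, h4, h5⟩; exact ⟨h4, h5⟩
    · rintro ⟨h4, h5⟩; exact ⟨by omega, h4, h5⟩
  rw [Finset.sum_congr rfl fun j _ => h1 j]
  unfold Es
  rw [← Fin.sum_univ_eq_sum_range
    (fun j => ((range j).filter (fun i => j ≤ ext h i)).card) n]

/-- The refined Shareshian-Wachs conjecture for band width at most two. -/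
theorem bandwidth_two (n : ℕ) (h : Fin n → Fin n) (hmono : Monotone h) (hle : ∀ i, i ≤ h i)
    (hband : ∀ i, (h i).val ≤ i.val + 2) (E : ℕ)
    (hE : E = (Finset.univ.filter (fun p : Fin n × Fin n => p.1 < p.2 ∧ p.2 ≤ h p.1)).card) :
    ∃ a : Nat.Partition n → Polynomial ℤ,
      ((∑ κ ∈ (Finset.univ.filter
            (fun κ : Fin n → Fin n => ∀ i j : Fin n, i < j → j ≤ h i → κ i ≠ κ j)),
          MvPolynomial.C (Polynomial.X ^ ((Finset.univ.filter
            (fun p : Fin n × Fin n => p.1 < p.2 ∧ p.2 ≤ h p.1 ∧ κ p.1 < κ p.2)).card))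
            * ∏ i : Fin n, MvPolynomial.X (κ i) : MvPolynomial (Fin n) (Polynomial ℤ))
        = ∑ μ : Nat.Partition n, MvPolynomial.C (a μ) *
            (μ.parts.map (fun k => MvPolynomial.esymm (Fin n) (Polynomial ℤ) k)).prod)
      ∧ ∀ μ : Nat.Partition n,
          (∀ i : ℕ, 0 ≤ (a μ).coeff i)
          ∧ (∀ i : ℕ, E < i → (a μ).coeff i = 0)
          ∧ (∀ i : ℕ, i ≤ E → (a μ).coeff i = (a μ).coeff (E - i))
          ∧ (∀ i j : ℕ, i ≤ j → 2 * j ≤ E → (a μ).coeff i ≤ (a μ).coeff j) := by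
  have hmono' : ∀ i j, i ≤ j → j < n → ext h i ≤ ext h j := by
    intro i j hij hj
    have h1 : (⟨i, by omega⟩ : Fin n) ≤ ⟨j, hj⟩ := hij
    have h2 := hmono h1
    rw [Fin.le_def] at h2
    simpa [ext, hj, lt_of_le_of_lt hij hj] using h2
  have hband' : ∀ i, ext h i ≤ i + 2 := by
    intro i
    unfold ext
    split_ifs with hi
    · exact hband ⟨i, hi⟩
    · omega
  have hX : (MvPolynomial.C : ℤ[X] →+* MvPolynomial (Fin n) ℤ[X]) X ≠ 0 := by
    rw [Ne, MvPolynomial.C_eq_zero]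
    exact X_ne_zero
  have hX1 : (MvPolynomial.C : ℤ[X] →+* MvPolynomial (Fin n) ℤ[X]) X - 1 ≠ 0 := by
    rw [← map_one (MvPolynomial.C : ℤ[X] →+* MvPolynomial (Fin n) ℤ[X]), ← map_sub, Ne,
      MvPolynomial.C_eq_zero]
    exact X_sub_C_ne_zero 1
  obtain ⟨a, ha, ha'⟩ := exp_of_cone (main_ind (x := MvPolynomial.X) (H := ext h) hX hX1 n
    hmono' hband' n le_rfl).1
  rw [Es_eq, ← hE] at ha'
  refine ⟨a, ?_, fun μ => (ha' μ).unpack⟩
  rw [← ha, Finset.sum_filter]
  unfold Xs
  refine Finset.sum_congr rfl fun κ _ => ?_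
  rw [wt_eq]

end Run7.h247
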