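import Pool.Agent.Run7.h247.Cone2
import Pool.Agent.Run7.h247.Final

/-!
# Blocks: cliques attached at a single vertex
-/

set_option autoImplicit false

namespace Run7.h247

open Finset Polynomial

section Env

variable {R : Type*} [CommRing R] [IsDomain R] {q : R} {N : ℕ} (x : Fin N → R) (H : ℕ → ℕ)

/-- sum over all colourings with an extra weight on the vertices `≥ j`. -/
def Be (q : R) (j m : ℕ) (u : Fin N → R) : R :=
  ∑ κ : Fin m → Fin N, wt q x H m κ * ∏ i : Fin m, if j ≤ i.val then u (κ i) else 1

omit [IsDomain R] in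
lemma prod_snoc_env (j m : ℕ) (hj : j ≤ m) (u : Fin N → R) (κ : Fin m → Fin N) (b : Fin N) :
    (∏ i : Fin (m + 1), if j ≤ i.val then
        u ((Fin.snoc κ b : Fin (m + 1) → Fin N) i) else 1)
      = (∏ i : Fin m, if j ≤ i.val then u (κ i) else 1) * u b := by
  rw [Fin.prod_univ_castSucc]
  simp only [Fin.snoc_castSucc, Fin.val_castSucc, Fin.snoc_last, Fin.val_last, if_pos hj]

lemma Be_eq (hq1 : q - 1 ≠ 0) (j r : ℕ)
    (hcl : ∀ m, j < m → m < j + 1 + r → ∀ i < m, (m ≤ H i ↔ j ≤ i)) (u : Fin N → R) :
    Be x H q j (j + 1 + r) u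
      = qfac q r * ∑ a, Zs q x H j a * u a * ef (fun s => g q a s * (u s * x s)) r := by
  induction r generalizing u with
  | zero =>
    unfold Be
    rw [Nat.add_zero, sum_snoc]
    simp only [qfac, ef_zero, mul_one, one_mul]
    refine Finset.sum_congr rfl fun b _ => ?_
    unfold Zs
    rw [Finset.sum_mul]
    refine Finset.sum_congr rfl fun κ _ => ?_
    rw [prod_snoc_env j j le_rfl]
    have : (∏ i : Fin j, if j ≤ i.val then u (κ i) else 1) = 1 := by
      refine Finset.prod_eq_one fun i _ => ?_
      rw [if_neg (by have := i.isLt; omega)]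
    rw [this, one_mul]
  | succ r ih =>
    have h1 : Be x H q j (j + 1 + (r + 1)) u
        = ∑ b, x b * u b * Be x H q j (j + 1 + r) (fun s => u s * g q s b) := by
      rw [show j + 1 + (r + 1) = (j + 1 + r) + 1 by omega]
      unfold Be
      rw [sum_snoc]
      refine Finset.sum_congr rfl fun b _ => ?_
      rw [Finset.mul_sum]
      refine Finset.sum_congr rfl fun κ _ => ?_
      rw [prod_snoc_env j _ (by omega), wt_snoc]
      have h2 : (∏ i : Fin (j + 1 + r), if j + 1 + r ≤ H i.val then g q (κ i) b else 1)
          = ∏ i : Fin (j + 1 + r), if j ≤ i.val then g q (κ i) b else 1 := by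
        refine Finset.prod_congr rfl fun i _ => ?_
        have := hcl (j + 1 + r) (by omega) (by omega) i.val i.isLt
        simp only [this]
      have h3 : (∏ i : Fin (j + 1 + r), if j ≤ i.val then u (κ i) * g q (κ i) b else 1)
          = (∏ i : Fin (j + 1 + r), if j ≤ i.val then u (κ i) else 1)
            * ∏ i : Fin (j + 1 + r), if j ≤ i.val then g q (κ i) b else 1 := by
        rw [← Finset.prod_mul_distrib]
        refine Finset.prod_congr rfl fun i _ => ?_
        split_ifs <;> ring
      rw [h2, h3]
      ring
    have ih' := ih (fun m hm hm' => hcl m hm (by omega))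
    rw [h1]
    simp only [ih']
    have h4 : ∀ a b : Fin N, ef (fun s => g q a s * (u s * g q s b * x s)) r
        = Wf q (fun s => g q a s * (u s * x s)) b r := by
      intro a b
      rw [← ef_yk]
      congr 1
      funext s
      simp only [yk]
      ring
    have h5 : ∀ a : Fin N, ∑ b, (g q a b * (u b * x b))
        * Wf q (fun s => g q a s * (u s * x s)) b r
        = qn q (r + 1) * ef (fun s => g q a s * (u s * x s)) (r + 1) := by
      intro a
      exact dm1 (fun s => g q a s * (u s * x s)) hq1 r
    simp only [h4]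
    have h6 : ∀ b : Fin N, x b * u b * (qfac q r * ∑ a, Zs q x H j a * (u a * g q a b)
          * Wf q (fun s => g q a s * (u s * x s)) b r)
        = ∑ a, qfac q r * (Zs q x H j a * u a * ((g q a b * (u b * x b))
          * Wf q (fun s => g q a s * (u s * x s)) b r)) := by
      intro b
      rw [Finset.mul_sum, Finset.mul_sum]
      refine Finset.sum_congr rfl fun a _ => ?_
      ring
    simp only [h6]
    rw [Finset.sum_comm, qfac, Finset.mul_sum]
    refine Finset.sum_congr rfl fun a _ => ?_
    rw [← Finset.mul_sum, ← Finset.mul_sum, h5]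
    ring

lemma Zs_block (hq1 : q - 1 ≠ 0) (j r : ℕ)
    (hcl : ∀ m, j < m → m < j + 1 + r + 1 → ∀ i < m, (m ≤ H i ↔ j ≤ i)) :
    Zs q x H (j + 1 + r) = fun b => qfac q r * Rop q x r (Zs q x H j) b := by
  funext b
  have h1 : Zs q x H (j + 1 + r) b = x b * Be x H q j (j + 1 + r) (fun s => g q s b) := by
    unfold Zs Be
    rw [Finset.mul_sum]
    refine Finset.sum_congr rfl fun κ _ => ?_
    rw [wt_snoc]
    have h2 : (∏ i : Fin (j + 1 + r), if j + 1 + r ≤ H i.val then g q (κ i) b else 1)
        = ∏ i : Fin (j + 1 + r), if j ≤ i.val then g q (κ i) b else 1 := by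
      refine Finset.prod_congr rfl fun i _ => ?_
      have := hcl (j + 1 + r) (by omega) (by omega) i.val i.isLt
      simp only [this]
    rw [h2]
    ring
  rw [h1, Be_eq x H hq1 j r (fun m hm hm' => hcl m hm (by omega)), Rop, Finset.mul_sum,
    Finset.mul_sum, Finset.mul_sum, Finset.mul_sum]
  refine Finset.sum_congr rfl fun a _ => ?_
  ring

lemma Ys_block (hq1 : q - 1 ≠ 0) (j r : ℕ)
    (hcl : ∀ m, j < m → m < j + 1 + r + 2 → ∀ i < m, (m ≤ H i ↔ j ≤ i)) :
    Ys q x H (j + 1 + r) = fun b c => qfac q r * Gop q x r (Zs q x H j) b c := by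
  funext b c
  have h1 : Ys q x H (j + 1 + r) b c = g q b c * (x b * x c)
      * Be x H q j (j + 1 + r) (fun s => g q s b * g q s c) := by
    unfold Ys Be
    rw [Finset.mul_sum]
    refine Finset.sum_congr rfl fun κ _ => ?_
    rw [wt_snoc, wt_snoc]
    have h2 : (∏ i : Fin (j + 1 + r), if j + 1 + r ≤ H i.val then g q (κ i) b else 1)
        = ∏ i : Fin (j + 1 + r), if j ≤ i.val then g q (κ i) b else 1 := by
      refine Finset.prod_congr rfl fun i _ => ?_
      have := hcl (j + 1 + r) (by omega) (by omega) i.val i.isLt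
      simp only [this]
    have h3 : (∏ i : Fin (j + 1 + r + 1), if j + 1 + r + 1 ≤ H i.val then
          g q ((Fin.snoc κ b : Fin (j + 1 + r + 1) → Fin N) i) c else 1)
        = (∏ i : Fin (j + 1 + r), if j ≤ i.val then g q (κ i) c else 1) * g q b c := by
      rw [← prod_snoc_env j (j + 1 + r) (by omega) (fun s => g q s c) κ b]
      refine Finset.prod_congr rfl fun i _ => ?_
      have := hcl (j + 1 + r + 1) (by omega) (by omega) i.val i.isLt
      simp only [this]
    have h4 : (∏ i : Fin (j + 1 + r), if j ≤ i.val then g q (κ i) b * g q (κ i) c else 1)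
        = (∏ i : Fin (j + 1 + r), if j ≤ i.val then g q (κ i) b else 1)
          * ∏ i : Fin (j + 1 + r), if j ≤ i.val then g q (κ i) c else 1 := by
      rw [← Finset.prod_mul_distrib]
      refine Finset.prod_congr rfl fun i _ => ?_
      split_ifs <;> ring
    rw [h2, h3, h4]
    ring
  rw [h1, Be_eq x H hq1 j r (fun m hm hm' => hcl m hm (by omega)), Gop, Gs, Finset.mul_sum,
    Finset.mul_sum, Finset.mul_sum, Finset.mul_sum]
  refine Finset.sum_congr rfl fun a _ => ?_
  have h5 : ef (fun s => g q a s * (g q s b * g q s c * x s)) r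
      = Mf q (y2 q x b c) a r := by
    rw [Mf]
    congr 1
    funext s
    rw [y2]; ring
  rw [h5]
  ring

end Env

section Main

variable {R : Type*} [CommRing R] [IsDomain R] {φ : ℤ[X] →+* R} {N : ℕ} {x : Fin N → R}
  {H : ℕ → ℕ}

lemma Es_block (j k : ℕ) (hcl : ∀ m, j < m → m < j + 1 + k → ∀ i < m, (m ≤ H i ↔ j ≤ i)) :
    Es H (j + 1 + k) = Es H (j + 1) + ∑ i ∈ range k, (i + 1) := by
  induction k with
  | zero => simp
  | succ k ih =>
    rw [show j + 1 + (k + 1) = (j + 1 + k) + 1 by omega, Es_succ,
      ih (fun m hm hm' => hcl m hm (by omega)), Finset.sum_range_succ, Nat.add_assoc]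
    congr 2
    have : (range (j + 1 + k)).filter (fun i => j + 1 + k ≤ H i) = Ico j (j + 1 + k) := by
      ext i
      rw [mem_filter, mem_range, mem_Ico]
      constructor
      · rintro ⟨h1, h2⟩
        exact ⟨(hcl _ (by omega) (by omega) i h1).1 h2, h1⟩
      · rintro ⟨h1, h2⟩
        exact ⟨h2, (hcl _ (by omega) (by omega) i h2).2 h1⟩
    rw [this, Nat.card_Ico]
    omega

lemma tri_sum1 (r : ℕ) : ∑ i ∈ range (r + 1), (i + 1) = 2 * r + 1 + tri r := by
  induction r with
  | zero => simp [tri]
  | succ r ih => rw [Finset.sum_range_succ, ih, tri]; omega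

lemma tri_sum2 (r : ℕ) : ∑ i ∈ range (r + 2), (i + 1) = 3 * r + 3 + tri r := by
  rw [Finset.sum_range_succ, tri_sum1]; omega

/-- the induction for the class of all cliques of size at most three or starting at a
separating vertex. -/
lemma main_ind2 (hq0 : φ X ≠ 0) (hq1 : φ X - 1 ≠ 0) (n : ℕ)
    (hmono : ∀ i j, i ≤ j → j < n → H i ≤ H j)
    (hcls : ∀ j < n, H j ≤ j + 2 ∨ (∃ l < j, H l = H j) ∨ (∀ l < j, H l ≤ j))
    (M : ℕ) (hM : M ≤ n) :
    Cone0 φ x M (Es H M) (Xs (φ X) x H M) ∧
    (∀ m, M = m + 1 → Cone1 φ x M (Es H M) (Zs (φ X) x H m)) ∧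
    (∀ m, M = m + 2 → m + 1 ≤ H m → Cone2 φ x M (Es H M) (Ys (φ X) x H m)) := by
  induction M using Nat.strong_induction_on with
  | _ M ih =>
  rcases M with _ | M
  · refine ⟨?_, fun m hm => by omega, fun m hm => by omega⟩
    have h1 : Xs (φ X) x H 0 = φ 1 * es x 0 := by
      rw [map_one, es_zero]
      simp [Xs, wt]
    have h2 : Es H 0 = 0 := by simp [Es]
    rw [h1, h2]
    exact Cone0.gen 0 1 rfl PU.one
  have key : Cone1 φ x (M + 1) (Es H (M + 1)) (Zs (φ X) x H M) ∧
      (∀ m, M = m + 1 → m + 1 ≤ H m → Cone2 φ x (M + 1) (Es H (M + 1)) (Ys (φ X) x H m)) := by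
    by_cases hex : ∃ i, M ≤ H i ∧ i < M
    · -- some neighbour
      obtain ⟨i0, hH, hlt, hmin⟩ : ∃ i0, M ≤ H i0 ∧ i0 < M ∧ ∀ l < i0, H l < M := by
        classical
        refine ⟨Nat.find hex, (Nat.find_spec hex).1, (Nat.find_spec hex).2, fun l hl => ?_⟩
        have h1 := Nat.find_min hex hl
        have h2 := (Nat.find_spec hex).2
        by_contra h
        exact h1 ⟨by omega, by omega⟩
      have hadj : ∀ i, i0 ≤ i → i < M → M ≤ H i := fun i h1 h2 =>
        hH.trans (hmono i0 i h1 (by omega))
      obtain ⟨k, hk⟩ : ∃ k, M = i0 + 1 + k := ⟨M - (i0 + 1), by omega⟩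
      rcases k with _ | _ | k
      · -- one neighbour
        obtain rfl : M = i0 + 1 := hk
        have h3 : ∀ i < i0, H i < i0 + 1 := hmin
        have hc : ((range (i0 + 1)).filter (fun i => i0 + 1 ≤ H i)).card = 1 := by
          have : (range (i0 + 1)).filter (fun i => i0 + 1 ≤ H i) = {i0} := by
            ext i
            simp only [mem_filter, mem_range, mem_singleton]
            constructor
            · rintro ⟨h4, h5⟩
              by_contra h6
              have := h3 i (by omega)
              omega
            · rintro rfl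
              exact ⟨by omega, hH⟩
          rw [this, Finset.card_singleton]
        rw [Es_succ, hc]
        have hY := ((ih (i0 + 1) (by omega) (by omega)).2.1 i0 rfl).dp
        rw [← Ys_one (φ X) x H i0 h3 hH] at hY
        have hZ := Cone2.dm hq0 hq1 hY
        rw [← Zs_succ] at hZ
        refine ⟨hZ, fun m' hm _ => ?_⟩
        obtain rfl : i0 = m' := by omega
        exact hY
      · -- two neighbours
        obtain rfl : M = i0 + 2 := hk
        have h2 : i0 + 2 ≤ H (i0 + 1) := hadj _ (by omega) (by omega)
        have hc : ((range (i0 + 2)).filter (fun i => i0 + 2 ≤ H i)).card = 2 := by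
          have : (range (i0 + 2)).filter (fun i => i0 + 2 ≤ H i) = {i0, i0 + 1} := by
            ext i
            simp only [mem_filter, mem_range, mem_insert, mem_singleton]
            constructor
            · rintro ⟨h4, h5⟩
              by_contra h6
              have := hmin i (by omega)
              omega
            · rintro (rfl | rfl)
              · exact ⟨by omega, hH⟩
              · exact ⟨by omega, h2⟩
          rw [this, Finset.card_pair (by omega)]
        rw [Es_succ, hc]
        have hY := (ih (i0 + 2) (by omega) (by omega)).2.2 i0 rfl (by omega)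
        have hT := Cone2.T hq0 hq1 hY
        rw [← Ys_two (φ X) x H i0 hmin hH h2] at hT
        have hZ := Cone2.dm hq0 hq1 hT
        rw [← Zs_succ] at hZ
        refine ⟨hZ, fun m hm _ => ?_⟩
        obtain rfl : m = i0 + 1 := by omega
        exact hT
      · -- a clique attached at a separating vertex
        have hsep : ∀ l < i0, H l ≤ i0 := by
          rcases hcls i0 (by omega) with h | ⟨l, hl, h⟩ | h
          · omega
          · have := hmin l hl
            omega
          · exact h
        have hcl : ∀ m, i0 < m → m < i0 + 1 + (k + 1) + 2 → ∀ i < m, (m ≤ H i ↔ i0 ≤ i) := by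
          intro m hm1 hm2 i hi
          constructor
          · intro h
            by_contra h'
            have := hsep i (by omega)
            omega
          · intro h
            by_cases h' : i < M
            · have := hadj i h h'
              omega
            · omega
        have hZ0 := (ih (i0 + 1) (by omega) (by omega)).2.1 i0 rfl
        have hZ := (hZ0.rop hq1 (k + 2)).fac (k + 2)
        have hY := (hZ0.gop hq1 (k + 1)).fac (k + 1)
        rw [← Zs_block x H hq1 i0 (k + 2) (fun m h1 h2 => hcl m h1 (by omega))] at hZ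
        rw [← Ys_block x H hq1 i0 (k + 1) (fun m h1 h2 => hcl m h1 (by omega))] at hY
        have hE := Es_block (H := H) i0 (k + 1 + 2) (fun m h1 h2 => hcl m h1 (by omega))
        have hE1 := tri_sum1 (k + 2)
        have hE2 := tri_sum2 (k + 1)
        have hM1 : M + 1 = i0 + 1 + (k + 1 + 2) := by omega
        refine ⟨?_, fun m hm _ => ?_⟩
        · have e1 : Es H (M + 1) = Es H (i0 + 1) + 2 * (k + 2) + 1 + tri (k + 2) := by
            rw [hM1, hE]
            rw [show k + 1 + 2 = k + 2 + 1 by omega, hE1]
            omega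
          rw [e1]
          have e2 : M = i0 + 1 + (k + 2) := by omega
          rw [e2]
          exact hZ
        · have e1 : Es H (M + 1) = Es H (i0 + 1) + 3 * (k + 1) + 3 + tri (k + 1) := by
            rw [hM1, hE, hE2]
            omega
          obtain rfl : m = i0 + 1 + (k + 1) := by omega
          rw [e1, hm]
          exact hY
    · -- no neighbour
      have h3 : ∀ i < M, H i < M := by
        intro i hi
        by_contra h
        exact hex ⟨i, by omega, hi⟩
      have hc : ((range M).filter (fun i => M ≤ H i)).card = 0 := by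
        rw [Finset.card_eq_zero, Finset.filter_eq_empty_iff]
        intro i hi
        rw [mem_range] at hi
        have := h3 i hi
        omega
      rw [Es_succ, hc, Nat.add_zero]
      refine ⟨?_, fun m' hm h4 => ?_⟩
      · have h1 : Zs (φ X) x H M = fun b => Xs (φ X) x H M * x b := by
          funext b
          exact Zs_isolated _ _ _ M h3 b
        rw [h1]
        exact (ih M (by omega) (by omega)).1.unit
      · have := h3 m' (by omega)
        omega
  refine ⟨?_, ?_, ?_⟩
  · rw [Xs_succ]
    exact key.1.dm hq1
  · intro m hm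
    obtain rfl : M = m := by omega
    exact key.1
  · intro m hm h
    exact key.2 m (by omega) h

end Main

end Run7.h247
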