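import Pool.Agent.Run7.h247.Fam

/-!
# Centred unimodal polynomials and the positive cones
-/

set_option autoImplicit false

namespace Run7.h247

open Finset Polynomial

/-- nonnegative, palindromic about `m / 2`, unimodal. -/
structure PU (m : ℕ) (p : ℤ[X]) : Prop where
  nonneg : ∀ i, 0 ≤ p.coeff i
  deg : p.natDegree ≤ m
  refl : p.reflect m = p
  mono : ∀ j, 2 * (j + 1) ≤ m → p.coeff j ≤ p.coeff (j + 1)

lemma PU.zero (m : ℕ) : PU m 0 where
  nonneg i := by simp
  deg := by simp
  refl := by simp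
  mono j _ := by simp

lemma PU.one : PU 0 1 where
  nonneg i := by
    rw [coeff_one]; split_ifs <;> simp
  deg := by simp
  refl := by
    simp
  mono j hj := by omega

lemma PU.add {m : ℕ} {p r : ℤ[X]} (hp : PU m p) (hr : PU m r) : PU m (p + r) where
  nonneg i := by
    rw [coeff_add]; exact add_nonneg (hp.nonneg i) (hr.nonneg i)
  deg := (natDegree_add_le _ _).trans (max_le hp.deg hr.deg)
  refl := by rw [reflect_add, hp.refl, hr.refl]
  mono j hj := by
    rw [coeff_add, coeff_add]; exact add_le_add (hp.mono j hj) (hr.mono j hj)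

lemma PU.coeff_symm {m : ℕ} {p : ℤ[X]} (hp : PU m p) {i : ℕ} (hi : i ≤ m) :
    p.coeff i = p.coeff (m - i) := by
  conv_lhs => rw [← hp.refl]
  rw [coeff_reflect, revAt_le hi]

lemma PU.le {m : ℕ} {p : ℤ[X]} (hp : PU m p) {i j : ℕ} (hij : i ≤ j) (hj : 2 * j ≤ m) :
    p.coeff i ≤ p.coeff j := by
  induction j, hij using Nat.le_induction with
  | base => exact le_rfl
  | succ k hk ih => exact (ih (by omega)).trans (hp.mono k hj)

lemma PU.X_mul {m : ℕ} {p : ℤ[X]} (hp : PU m p) : PU (m + 2) (X * p) where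
  nonneg i := by
    cases i with
    | zero => simp
    | succ i => rw [coeff_X_mul]; exact hp.nonneg i
  deg := by
    refine natDegree_mul_le.trans ?_
    rw [natDegree_X]
    have := hp.deg
    omega
  refl := by
    have h1 := reflect_mul (X : ℤ[X]) p (F := 2) (G := m) (by rw [natDegree_X]; omega) hp.deg
    rw [Nat.add_comm 2 m] at h1
    rw [h1, hp.refl]
    congr 1
    have := reflect_monomial 2 1 (R := ℤ)
    rw [pow_one] at this
    rw [this, revAt_le (by omega)]
    simp
  mono j hj := by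
    cases j with
    | zero =>
      rw [coeff_X_mul]
      simpa using hp.nonneg 0
    | succ j =>
      rw [coeff_X_mul, coeff_X_mul]
      exact hp.mono j (by omega)

lemma PU.X_pow_mul {m : ℕ} {p : ℤ[X]} (hp : PU m p) (k : ℕ) : PU (m + 2 * k) (X ^ k * p) := by
  induction k with
  | zero => simpa using hp
  | succ k ih =>
    have := ih.X_mul
    rw [← mul_assoc, ← pow_succ'] at this
    exact this

lemma qnX_reflect (l : ℕ) : (qn (X : ℤ[X]) (l + 1)).reflect l = qn X (l + 1) := by
  ext i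
  rw [coeff_reflect]
  unfold qn
  simp only [finsetSum_coeff, coeff_X_pow, Finset.sum_ite_eq, Finset.mem_range]
  by_cases h : i ≤ l
  · rw [revAt_le h, if_pos (by omega), if_pos (by omega)]
  · rw [revAt_eq_self_of_lt (by omega)]

lemma qnX_natDegree (l : ℕ) : (qn (X : ℤ[X]) (l + 1)).natDegree ≤ l := by
  unfold qn
  refine natDegree_sum_le_of_forall_le _ _ fun i hi => ?_
  rw [natDegree_X_pow]
  rw [mem_range] at hi
  omega

lemma qnX_nonneg (l i : ℕ) : 0 ≤ (qn (X : ℤ[X]) l).coeff i := by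
  unfold qn
  simp only [finsetSum_coeff, coeff_X_pow, Finset.sum_ite_eq]
  split_ifs <;> simp

lemma PU.qn_mul {m : ℕ} {p : ℤ[X]} (hp : PU m p) (l : ℕ) : PU (m + l) (qn X (l + 1) * p) where
  nonneg i := by
    rw [coeff_mul]
    exact Finset.sum_nonneg fun a _ => mul_nonneg (qnX_nonneg _ _) (hp.nonneg _)
  deg := by
    refine natDegree_mul_le.trans ?_
    have := hp.deg
    have := qnX_natDegree l
    omega
  refl := by
    have h1 := reflect_mul (qn (X : ℤ[X]) (l + 1)) p (F := l) (G := m) (qnX_natDegree l) hp.deg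
    rw [Nat.add_comm l m] at h1
    rw [h1, hp.refl, qnX_reflect]
  mono j hj := by
    have h1 : X * (qn (X : ℤ[X]) (l + 1) * p) - qn (X : ℤ[X]) (l + 1) * p
        = X ^ (l + 1) * p - p := by
      have := Run7.h247.qn_mul (X : ℤ[X]) (l + 1)
      linear_combination p * this
    have h2 := congrArg (fun r => r.coeff (j + 1)) h1
    simp only [coeff_sub, coeff_X_mul, coeff_X_pow_mul'] at h2
    have h3 : (if l + 1 ≤ j + 1 then p.coeff (j + 1 - (l + 1)) else 0) ≤ p.coeff (j + 1) := by
      split_ifs with hl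
      · by_cases hjm : 2 * (j + 1) ≤ m
        · exact hp.le (by omega) hjm
        · have hj1 : j + 1 ≤ m := by omega
          rw [hp.coeff_symm hj1]
          exact hp.le (by omega) (by omega)
      · exact hp.nonneg _
    linarith

/-- the basic closure property. -/
lemma PU.mul' {m' M k l : ℕ} {p : ℤ[X]} (hp : PU m' p) (h : m' + 2 * k + l = M + 1) :
    PU M (X ^ k * qn X l * p) := by
  cases l with
  | zero =>
    simp only [qn, Finset.range_zero, Finset.sum_empty, mul_zero, zero_mul]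
    exact PU.zero M
  | succ l =>
    have := (hp.qn_mul l).X_pow_mul k
    rw [← mul_assoc] at this
    rwa [show M = m' + l + 2 * k by omega]

section Cones

variable {R : Type*} [CommRing R] (φ : ℤ[X] →+* R) {N : ℕ} (x : Fin N → R)

/-- products of elementary symmetric polynomials. -/
noncomputable def es (s : Multiset ℕ) : R := (s.map (ef x)).prod

lemma es_cons (i : ℕ) (s : Multiset ℕ) : es x (i ::ₘ s) = ef x i * es x s := by
  simp [es]

lemma φqn (l : ℕ) : qn (φ X) l = φ (qn X l) := by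
  simp [qn, map_sum]

/-- positive cone of scalars. -/
inductive Cone0 : ℕ → ℕ → R → Prop
  | zero (n m : ℕ) : Cone0 n m 0
  | add {n m : ℕ} {a b : R} : Cone0 n m a → Cone0 n m b → Cone0 n m (a + b)
  | gen {n m : ℕ} (s : Multiset ℕ) (p : ℤ[X]) (hs : s.sum = n) (hp : PU m p) :
      Cone0 n m (φ p * es x s)

/-- positive cone of one-vertex functions. -/
inductive Cone1 : ℕ → ℕ → (Fin N → R) → Prop
  | zero (n m : ℕ) : Cone1 n m 0
  | add {n m : ℕ} {a b : Fin N → R} : Cone1 n m a → Cone1 n m b → Cone1 n m (a + b)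
  | gen {n m : ℕ} (s : Multiset ℕ) (p : ℤ[X]) (c m' : ℕ) (hs : s.sum + (c + 1) = n)
      (hm : m' + c = m) (hp : PU m' p) :
      Cone1 n m (fun k => φ p * es x s * Ef (φ X) x k (c + 1))

/-- positive cone of two-vertex functions. -/
inductive Cone2 : ℕ → ℕ → (Fin N → Fin N → R) → Prop
  | zero (n m : ℕ) : Cone2 n m 0
  | add {n m : ℕ} {a b : Fin N → Fin N → R} : Cone2 n m a → Cone2 n m b → Cone2 n m (a + b)
  | genA {n m : ℕ} (s : Multiset ℕ) (p : ℤ[X]) (c m' : ℕ) (hs : s.sum + (c + 2) = n)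
      (hm : m' + 2 * c + 1 = m) (hp : PU m' p) :
      Cone2 n m (fun a b => φ p * es x s * Af (φ X) x c a b)
  | genb {n m : ℕ} (s : Multiset ℕ) (p : ℤ[X]) (a d m' : ℕ) (hs : s.sum + (2 * a + 4 + d) = n)
      (hm : m' + 4 * a + 4 + d = m) (hp : PU m' p) :
      Cone2 n m (fun k k' => φ p * es x s * bh (φ X) x a d k k')
  | genb' {n m : ℕ} (s : Multiset ℕ) (p : ℤ[X]) (B d m' : ℕ) (hs : s.sum + (2 * B + 3 + d) = n)
      (hm : m' + 4 * B + 2 + d = m) (hp : PU m' p) :
      Cone2 n m (fun k k' => φ p * es x s * bh' (φ X) x B d k k')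

variable {φ x}

lemma Cone1.sum {ι : Type*} (t : Finset ι) (f : ι → Fin N → R) {n m : ℕ}
    (h : ∀ i ∈ t, Cone1 φ x n m (f i)) : Cone1 φ x n m (∑ i ∈ t, f i) :=
  Finset.sum_induction f (Cone1 φ x n m) (fun _ _ => Cone1.add) (Cone1.zero n m) h

lemma Cone2.sum {ι : Type*} (t : Finset ι) (f : ι → Fin N → Fin N → R) {n m : ℕ}
    (h : ∀ i ∈ t, Cone2 φ x n m (f i)) : Cone2 φ x n m (∑ i ∈ t, f i) :=
  Finset.sum_induction f (Cone2 φ x n m) (fun _ _ => Cone2.add) (Cone2.zero n m) h

/-- typical term in `dm`. -/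
lemma Cone1.term {n M : ℕ} (s : Multiset ℕ) (p : ℤ[X]) (k l i c m' : ℕ) (hp : PU m' p)
    (hs : s.sum + i + (c + 1) = n) (hm : m' + 2 * k + l + c = M + 1) :
    Cone1 φ x n M (fun κ => φ p * es x s * (φ X ^ k * qn (φ X) l * ef x i
      * Ef (φ X) x κ (c + 1))) := by
  by_cases hl : l = 0
  · subst hl
    have : (fun κ => φ p * es x s * (φ X ^ k * qn (φ X) 0 * ef x i
      * Ef (φ X) x κ (c + 1))) = 0 := by
      funext κ
      simp [qn]
    rw [this]
    exact Cone1.zero _ _
  have h1 : PU (m' + 2 * k + l - 1) (X ^ k * qn X l * p) := hp.mul' (by omega)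
  have h2 := Cone1.gen (φ := φ) (x := x) (n := n) (m := M) (i ::ₘ s) (X ^ k * qn X l * p) c
    (m' + 2 * k + l - 1) (by rw [Multiset.sum_cons]; omega) (by omega) h1
  have h3 : (fun κ => φ p * es x s * (φ X ^ k * qn (φ X) l * ef x i
      * Ef (φ X) x κ (c + 1)))
      = fun κ => φ (X ^ k * qn X l * p) * es x (i ::ₘ s) * Ef (φ X) x κ (c + 1) := by
    funext κ
    rw [es_cons, map_mul, map_mul, map_pow, φqn]
    ring
  rw [h3]
  exact h2

lemma Cone2.genB {n M : ℕ} (s : Multiset ℕ) (p : ℤ[X]) (c m' : ℕ) (hp : PU m' p)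
    (hs : s.sum + (c + 2) = n) (hm : m' + c + 1 = M) :
    Cone2 φ x n M (fun a b => φ p * es x s * Bf (φ X) x (c + 1) a b) := by
  cases c with
  | zero =>
    rw [Bf_one]
    exact Cone2.genA s p 0 m' hs (by omega) hp
  | succ c =>
    rw [Bf_succ_succ]
    exact Cone2.genb' s p 0 c m' (by omega) (by omega) hp

lemma Cone2.term {n M : ℕ} (s : Multiset ℕ) (p : ℤ[X]) (k l i c m' : ℕ) (hp : PU m' p)
    (hs : s.sum + i + (c + 2) = n) (hm : m' + 2 * k + l + c = M) :
    Cone2 φ x n M (fun a b => φ p * es x s * (φ X ^ k * qn (φ X) l * ef x i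
      * Bf (φ X) x (c + 1) a b)) := by
  by_cases hl : l = 0
  · subst hl
    have : (fun a b => φ p * es x s * (φ X ^ k * qn (φ X) 0 * ef x i
      * Bf (φ X) x (c + 1) a b)) = 0 := by
      funext a b
      simp [qn]
    rw [this]
    exact Cone2.zero _ _
  have h1 : PU (m' + 2 * k + l - 1) (X ^ k * qn X l * p) := hp.mul' (by omega)
  have h2 := Cone2.genB (φ := φ) (x := x) (n := n) (M := M) (i ::ₘ s) (X ^ k * qn X l * p) c
    (m' + 2 * k + l - 1) h1 (by rw [Multiset.sum_cons]; omega) (by omega)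
  have h3 : (fun a b => φ p * es x s * (φ X ^ k * qn (φ X) l * ef x i
      * Bf (φ X) x (c + 1) a b))
      = fun a b => φ (X ^ k * qn X l * p) * es x (i ::ₘ s) * Bf (φ X) x (c + 1) a b := by
    funext a b
    rw [es_cons, map_mul, map_mul, map_pow, φqn]
    ring
  rw [h3]
  exact h2

lemma T_add (q : R) (F G : Fin N → Fin N → R) : T q x (F + G) = T q x F + T q x G := by
  funext b c
  simp only [T, Pi.add_apply, mul_add, Finset.sum_add_distrib]

lemma T_zero (q : R) : T q x (0 : Fin N → Fin N → R) = 0 := by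
  funext b c
  simp [T]

lemma T_fun_smul (q r : R) (F : Fin N → Fin N → R) :
    T q x (fun a b => r * F a b) = fun a b => r * T q x F a b := by
  funext b c
  exact T_smul q x r F b c

lemma dm_add (F G : Fin N → Fin N → R) : dm (F + G) = dm F + dm G := by
  funext b
  simp only [dm, Pi.add_apply, Finset.sum_add_distrib]

lemma dm_zero : dm (0 : Fin N → Fin N → R) = 0 := by
  funext b
  simp [dm]

lemma dp_add (q : R) (F G : Fin N → R) : dp q x (F + G) = dp q x F + dp q x G := by
  funext b c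
  simp only [dp, Pi.add_apply, add_mul]

lemma dp_zero (q : R) : dp q x (0 : Fin N → R) = 0 := by
  funext b c
  simp [dp]

lemma Cone1.dp {n m : ℕ} {Z : Fin N → R} (h : Cone1 φ x n m Z) :
    Cone2 φ x (n + 1) (m + 1) (dp (φ X) x Z) := by
  induction h with
  | zero => rw [dp_zero]; exact Cone2.zero _ _
  | add _ _ ih1 ih2 => rw [dp_add]; exact ih1.add ih2
  | gen s p c m' hs hm hp =>
    have : Run7.h247.dp (φ X) x (fun k => φ p * es x s * Ef (φ X) x k (c + 1))
        = fun a b => φ p * es x s * Bf (φ X) x (c + 1) a b := by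
      funext a b
      simp only [Run7.h247.dp, Bf]
      ring
    rw [this]
    exact Cone2.genB s p c m' hp (by omega) (by omega)

lemma Cone0.unit {n m : ℕ} {r : R} (h : Cone0 φ x n m r) :
    Cone1 φ x (n + 1) m (fun k => r * x k) := by
  induction h with
  | zero =>
    have : (fun k : Fin N => (0 : R) * x k) = 0 := by funext k; simp
    rw [this]; exact Cone1.zero _ _
  | @add a b _ _ ih1 ih2 =>
    have : (fun k : Fin N => (a + b) * x k) = (fun k => a * x k) + fun k => b * x k := by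
      funext k; simp [add_mul]
    rw [this]; exact ih1.add ih2
  | @gen s p hs hp =>
    have := Cone1.gen (φ := φ) (x := x) (n := n + 1) (m := m) s p 0 m (by omega) (by omega) hp
    simpa only [Nat.zero_add, Ef_one] using this

variable [IsDomain R]

lemma Cone1.dm (hq1 : φ X - 1 ≠ 0) {n m : ℕ} {Z : Fin N → R} (h : Cone1 φ x n m Z) :
    Cone0 φ x n m (∑ a, Z a) := by
  induction h with
  | zero => simpa using Cone0.zero (φ := φ) (x := x) n m
  | add _ _ ih1 ih2 =>
    simp only [Pi.add_apply, Finset.sum_add_distrib]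
    exact ih1.add ih2
  | @gen s p c m' hs hm hp =>
    rw [← Finset.mul_sum, dm1 x hq1]
    have h1 := hp.qn_mul c
    have h2 := Cone0.gen (φ := φ) (x := x) (n := n) (m := m) ((c + 1) ::ₘ s)
      (qn X (c + 1) * p) (by rw [Multiset.sum_cons]; omega) (by rw [← hm]; exact h1)
    rw [es_cons, map_mul, ← φqn] at h2
    have h3 : φ p * es x s * (qn (φ X) (c + 1) * ef x (c + 1))
        = qn (φ X) (c + 1) * φ p * (ef x (c + 1) * es x s) := by ring
    rw [h3]
    exact h2

lemma Cone2.dm (hq0 : φ X ≠ 0) (hq1 : φ X - 1 ≠ 0) {n m : ℕ} {F : Fin N → Fin N → R}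
    (h : Cone2 φ x n m F) : Cone1 φ x n m (dm F) := by
  induction h with
  | zero => rw [dm_zero]; exact Cone1.zero _ _
  | add _ _ ih1 ih2 => rw [dm_add]; exact ih1.add ih2
  | genA s p c m' hs hm hp =>
    have h1 := Cone1.term (φ := φ) (x := x) (n := n) (M := m) s p 0 (c + 1) 0 (c + 1) m' hp
      (by omega) (by omega)
    have h2 : Run7.h247.dm (fun a b => φ p * es x s * Af (φ X) x c a b)
        = fun κ => φ p * es x s * (φ X ^ 0 * qn (φ X) (c + 1) * ef x 0
          * Ef (φ X) x κ (c + 1 + 1)) := by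
      funext κ
      rw [dm_smul, dm_Af x hq1, ef_zero]
      ring
    rw [h2]
    exact h1
  | @genb s p a d m' hs hm hp =>
    have h2 : Run7.h247.dm (fun k k' => φ p * es x s * bh (φ X) x a d k k')
        = (∑ p' ∈ antidiagonal a, fun κ => φ p * es x s * (φ X ^ (a + p'.2 + 2)
            * qn (φ X) (p'.1 + d + 1) * ef x (a + 3 + d + p'.2) * Ef (φ X) x κ (p'.1 + 1)))
          + ∑ p' ∈ antidiagonal (a + 1), fun κ => φ p * es x s * (φ X ^ p'.1
            * qn (φ X) (a + 1 + p'.2) * ef x p'.1 * Ef (φ X) x κ (a + 2 + d + p'.2 + 1)) := by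
      funext κ
      rw [dm_smul, dm_bh x hq0 hq1]
      simp only [Pi.add_apply, Finset.sum_apply, mul_add, Finset.mul_sum]
      congr 1
      refine Finset.sum_congr rfl fun p' _ => ?_
      rw [show a + 2 + d + p'.2 + 1 = a + 3 + d + p'.2 by omega]
    rw [h2]
    refine Cone1.add (Cone1.sum _ _ fun p' hp' => ?_) (Cone1.sum _ _ fun p' hp' => ?_)
    · rw [HasAntidiagonal.mem_antidiagonal] at hp'
      exact Cone1.term s p _ _ _ _ m' hp (by omega) (by omega)
    · rw [HasAntidiagonal.mem_antidiagonal] at hp'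
      exact Cone1.term s p _ _ _ _ m' hp (by omega) (by omega)
  | @genb' s p B d m' hs hm hp =>
    have h2 : Run7.h247.dm (fun k k' => φ p * es x s * bh' (φ X) x B d k k')
        = (∑ p' ∈ antidiagonal B, fun κ => φ p * es x s * (φ X ^ (B + p'.2 + 1)
            * qn (φ X) (p'.1 + d + 1) * ef x (B + 2 + d + p'.2) * Ef (φ X) x κ (p'.1 + 1)))
          + ∑ p' ∈ antidiagonal B, fun κ => φ p * es x s * (φ X ^ p'.1
            * qn (φ X) (B + 1 + p'.2) * ef x p'.1 * Ef (φ X) x κ (B + 2 + d + p'.2 + 1)) := by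
      funext κ
      rw [dm_smul, dm_bh' x hq0 hq1]
      simp only [Pi.add_apply, Finset.sum_apply, mul_add, Finset.mul_sum]
      congr 1
      refine Finset.sum_congr rfl fun p' _ => ?_
      rw [show B + 2 + d + p'.2 + 1 = B + 3 + d + p'.2 by omega]
    rw [h2]
    refine Cone1.add (Cone1.sum _ _ fun p' hp' => ?_) (Cone1.sum _ _ fun p' hp' => ?_)
    · rw [HasAntidiagonal.mem_antidiagonal] at hp'
      exact Cone1.term s p _ _ _ _ m' hp (by omega) (by omega)
    · rw [HasAntidiagonal.mem_antidiagonal] at hp'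
      exact Cone1.term s p _ _ _ _ m' hp (by omega) (by omega)

lemma Cone2.T (hq0 : φ X ≠ 0) (hq1 : φ X - 1 ≠ 0) {n m : ℕ} {F : Fin N → Fin N → R}
    (h : Cone2 φ x n m F) : Cone2 φ x (n + 1) (m + 2) (T (φ X) x F) := by
  induction h with
  | zero => rw [T_zero]; exact Cone2.zero _ _
  | add _ _ ih1 ih2 => rw [T_add]; exact ih1.add ih2
  | @genA s p c m' hs hm hp =>
    have h1 := Cone2.term (φ := φ) (x := x) (n := n + 1) (M := m + 2) s p 1 c 0 (c + 1) m' hp
      (by omega) (by omega)
    have h2 : Run7.h247.T (φ X) x (fun a b => φ p * es x s * Af (φ X) x c a b)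
        = (fun a b => φ p * es x s * Af (φ X) x (c + 1) a b)
          + fun a b => φ p * es x s * (φ X ^ 1 * qn (φ X) c * ef x 0
          * Bf (φ X) x (c + 1 + 1) a b) := by
      funext a b
      rw [T_smul, T_Af x hq1, ef_zero]
      simp only [Pi.add_apply]
      ring
    rw [h2]
    exact (Cone2.genA s p (c + 1) m' (by omega) (by omega) hp).add h1
  | @genb s p a d m' hs hm hp =>
    have h2 : Run7.h247.T (φ X) x (fun k k' => φ p * es x s * bh (φ X) x a d k k')
        = (fun k k' => φ p * es x s * bh' (φ X) x (a + 1) d k k')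
          + ((∑ p' ∈ antidiagonal a, fun k k' => φ p * es x s * (φ X ^ (a + p'.2 + 3)
            * qn (φ X) (p'.1 + d) * ef x (a + 3 + d + p'.2) * Bf (φ X) x (p'.1 + 1) k k'))
          + ∑ p' ∈ antidiagonal (a + 1), fun k k' => φ p * es x s * (φ X ^ (p'.1 + 1)
            * qn (φ X) (a + p'.2) * ef x p'.1 * Bf (φ X) x (a + 2 + d + p'.2 + 1) k k')) := by
      funext k k'
      rw [T_smul, T_bh x hq0 hq1]
      simp only [Pi.add_apply, Finset.sum_apply, mul_add, Finset.mul_sum]
      congr 2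
      refine Finset.sum_congr rfl fun p' _ => ?_
      rw [show a + 2 + d + p'.2 + 1 = a + 3 + d + p'.2 by omega]
    rw [h2]
    refine Cone2.add (Cone2.genb' s p (a + 1) d m' (by omega) (by omega) hp)
      (Cone2.add (Cone2.sum _ _ fun p' hp' => ?_) (Cone2.sum _ _ fun p' hp' => ?_))
    · rw [HasAntidiagonal.mem_antidiagonal] at hp'
      exact Cone2.term s p _ _ _ _ m' hp (by omega) (by omega)
    · rw [HasAntidiagonal.mem_antidiagonal] at hp'
      exact Cone2.term s p _ _ _ _ m' hp (by omega) (by omega)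
  | @genb' s p B d m' hs hm hp =>
    have h2 : Run7.h247.T (φ X) x (fun k k' => φ p * es x s * bh' (φ X) x B d k k')
        = (fun k k' => φ p * es x s * bh (φ X) x B d k k')
          + ((∑ p' ∈ antidiagonal B, fun k k' => φ p * es x s * (φ X ^ (B + p'.2 + 2)
            * qn (φ X) (p'.1 + d) * ef x (B + 2 + d + p'.2) * Bf (φ X) x (p'.1 + 1) k k'))
          + ∑ p' ∈ antidiagonal B, fun k k' => φ p * es x s * (φ X ^ (p'.1 + 1)
            * qn (φ X) (B + p'.2) * ef x p'.1 * Bf (φ X) x (B + 2 + d + p'.2 + 1) k k')) := by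
      funext k k'
      rw [T_smul, T_bh' x hq0 hq1]
      simp only [Pi.add_apply, Finset.sum_apply, mul_add, Finset.mul_sum]
      congr 2
      refine Finset.sum_congr rfl fun p' _ => ?_
      rw [show B + 2 + d + p'.2 + 1 = B + 3 + d + p'.2 by omega]
    rw [h2]
    refine Cone2.add (Cone2.genb s p B d m' (by omega) (by omega) hp)
      (Cone2.add (Cone2.sum _ _ fun p' hp' => ?_) (Cone2.sum _ _ fun p' hp' => ?_))
    · rw [HasAntidiagonal.mem_antidiagonal] at hp'
      exact Cone2.term s p _ _ _ _ m' hp (by omega) (by omega)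
    · rw [HasAntidiagonal.mem_antidiagonal] at hp'
      exact Cone2.term s p _ _ _ _ m' hp (by omega) (by omega)

end Cones

end Run7.h247
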