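import Pool.Agent.Run7.h247.Cone

/-!
# Colouring sums and the vertex-by-vertex recursion
-/

set_option autoImplicit false

namespace Run7.h247

open Finset Polynomial

variable {R : Type*} [CommRing R] (q : R) {N : ℕ} (x : Fin N → R) (H : ℕ → ℕ)

/-- weight of a colouring of the vertices `0, ..., m - 1`; `i < j` are adjacent iff `j ≤ H i`. -/
def wt (m : ℕ) (κ : Fin m → Fin N) : R :=
  ∏ j : Fin m, (x (κ j) * ∏ i : Fin m,
    if i.val < j.val ∧ j.val ≤ H i.val then g q (κ i) (κ j) else 1)

lemma wt_snoc (m : ℕ) (κ : Fin m → Fin N) (c : Fin N) :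
    wt q x H (m + 1) (Fin.snoc κ c) = wt q x H m κ *
      (x c * ∏ i : Fin m, if m ≤ H i.val then g q (κ i) c else 1) := by
  unfold wt
  rw [Fin.prod_univ_castSucc]
  congr 1
  · refine Finset.prod_congr rfl fun j _ => ?_
    rw [Fin.prod_univ_castSucc]
    simp only [Fin.snoc_castSucc, Fin.val_castSucc, Fin.snoc_last, Fin.val_last]
    rw [if_neg (by have := j.isLt; omega), mul_one]
  · rw [Fin.prod_univ_castSucc]
    simp only [Fin.snoc_castSucc, Fin.val_castSucc, Fin.snoc_last, Fin.val_last]
    rw [if_neg (by omega), mul_one]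
    congr 1
    refine Finset.prod_congr rfl fun i _ => ?_
    have := i.isLt
    by_cases h : m ≤ H i.val
    · rw [if_pos ⟨this, h⟩, if_pos h]
    · rw [if_neg (fun h' => h h'.2), if_neg h]

/-- sum over all colourings. -/
def Xs (m : ℕ) : R := ∑ κ : Fin m → Fin N, wt q x H m κ

/-- sum over all colourings of `m + 1` vertices with given last colour. -/
def Zs (m : ℕ) (b : Fin N) : R := ∑ κ : Fin m → Fin N, wt q x H (m + 1) (Fin.snoc κ b)

/-- sum over all colourings of `m + 2` vertices with given last two colours. -/
def Ys (m : ℕ) (b c : Fin N) : R :=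
  ∑ κ : Fin m → Fin N, wt q x H (m + 2)
    (Fin.snoc (Fin.snoc κ b : Fin (m + 1) → Fin N) c : Fin (m + 2) → Fin N)

lemma sum_snoc {M : Type*} [AddCommMonoid M] (m : ℕ) (f : (Fin (m + 1) → Fin N) → M) :
    ∑ κ, f κ = ∑ b : Fin N, ∑ κ : Fin m → Fin N, f (Fin.snoc κ b) := by
  rw [← (Fin.snocEquiv (fun _ : Fin (m + 1) => Fin N)).sum_comp, Fintype.sum_prod_type]
  rfl

lemma Xs_succ (m : ℕ) : Xs q x H (m + 1) = ∑ b, Zs q x H m b := by
  unfold Xs Zs
  rw [sum_snoc]

lemma Zs_succ (m : ℕ) : Zs q x H (m + 1) = dm (Ys q x H m) := by
  funext c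
  unfold Zs dm Ys
  rw [sum_snoc]

lemma Zs_isolated (m : ℕ) (h : ∀ i < m, H i < m) (b : Fin N) :
    Zs q x H m b = Xs q x H m * x b := by
  unfold Zs Xs
  rw [Finset.sum_mul]
  refine Finset.sum_congr rfl fun κ _ => ?_
  rw [wt_snoc]
  congr 1
  have : (∏ i : Fin m, if m ≤ H i.val then g q (κ i) b else 1) = 1 := by
    refine Finset.prod_eq_one fun i _ => ?_
    rw [if_neg (by have := h i.val i.isLt; omega)]
  rw [this, mul_one]

lemma Ys_one (m : ℕ) (h : ∀ i < m, H i < m + 1) (h' : m + 1 ≤ H m) :
    Ys q x H m = dp q x (Zs q x H m) := by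
  funext b c
  unfold Ys dp Zs
  rw [Finset.sum_mul]
  refine Finset.sum_congr rfl fun κ _ => ?_
  rw [wt_snoc]
  congr 2
  rw [Fin.prod_univ_castSucc]
  simp only [Fin.snoc_castSucc, Fin.val_castSucc, Fin.snoc_last, Fin.val_last]
  have : (∏ i : Fin m, if m + 1 ≤ H i.val then g q (κ i) c else 1) = 1 := by
    refine Finset.prod_eq_one fun i _ => ?_
    rw [if_neg (by have := h i.val i.isLt; omega)]
  rw [this, one_mul, if_pos h']

lemma Ys_two (m : ℕ) (h : ∀ i < m, H i < m + 2) (h' : m + 2 ≤ H m) (h'' : m + 2 ≤ H (m + 1)) :
    Ys q x H (m + 1) = T q x (Ys q x H m) := by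
  funext b c
  unfold T
  unfold Ys
  rw [sum_snoc, Finset.mul_sum]
  refine Finset.sum_congr rfl fun a _ => ?_
  rw [Finset.mul_sum, Finset.mul_sum]
  refine Finset.sum_congr rfl fun κ _ => ?_
  rw [wt_snoc]
  have : (∏ i : Fin (m + 2), if m + 1 + 1 ≤ H i.val then
      g q ((Fin.snoc (Fin.snoc κ a : Fin (m + 1) → Fin N) b : Fin (m + 2) → Fin N) i) c else 1)
      = g q a c * g q b c := by
    rw [Fin.prod_univ_castSucc, Fin.prod_univ_castSucc]
    simp only [Fin.snoc_castSucc, Fin.val_castSucc, Fin.snoc_last, Fin.val_last]
    have : (∏ i : Fin m, if m + 1 + 1 ≤ H i.val then g q (κ i) c else 1) = 1 := by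
      refine Finset.prod_eq_one fun i _ => ?_
      rw [if_neg (by have := h i.val i.isLt; omega)]
    rw [this, one_mul, if_pos h', if_pos h'']
  rw [this]
  ring

/-- number of edges among the first `m` vertices. -/
def Es (m : ℕ) : ℕ := ∑ j ∈ range m, ((range j).filter (fun i => j ≤ H i)).card

lemma Es_succ (m : ℕ) :
    Es H (m + 1) = Es H m + ((range m).filter (fun i => m ≤ H i)).card := by
  unfold Es
  rw [Finset.sum_range_succ]

section Main

variable {q x H} {φ : ℤ[X] →+* R} [IsDomain R]

omit [IsDomain R] in
lemma es_zero : es x 0 = 1 := by simp [es]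

/-- the main induction for band width at most two. -/
lemma main_ind (hq0 : φ X ≠ 0) (hq1 : φ X - 1 ≠ 0) (n : ℕ)
    (hmono : ∀ i j, i ≤ j → j < n → H i ≤ H j) (hband : ∀ i, H i ≤ i + 2) (M : ℕ) (hM : M ≤ n) :
    Cone0 φ x M (Es H M) (Xs (φ X) x H M) ∧
    (∀ m, M = m + 1 → Cone1 φ x M (Es H M) (Zs (φ X) x H m)) ∧
    (∀ m, M = m + 2 → m + 1 ≤ H m → Cone2 φ x M (Es H M) (Ys (φ X) x H m)) := by
  induction M with
  | zero =>
    refine ⟨?_, fun m hm => by omega, fun m hm => by omega⟩
    have h1 : Xs (φ X) x H 0 = φ 1 * es x 0 := by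
      rw [map_one, es_zero]
      simp [Xs, wt]
    have h2 : Es H 0 = 0 := by simp [Es]
    rw [h1, h2]
    exact Cone0.gen 0 1 rfl PU.one
  | succ M ih =>
    obtain ⟨ih0, ih1, ih2⟩ := ih (by omega)
    have key : Cone1 φ x (M + 1) (Es H (M + 1)) (Zs (φ X) x H M) ∧
        (∀ m, M = m + 1 → m + 1 ≤ H m → Cone2 φ x (M + 1) (Es H (M + 1)) (Ys (φ X) x H m)) := by
      rw [Es_succ]
      rcases M with _ | m
      · refine ⟨?_, fun m hm => by omega⟩
        have h1 : Zs (φ X) x H 0 = fun b => Xs (φ X) x H 0 * x b := by
          funext b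
          exact Zs_isolated _ _ _ 0 (by omega) b
        rw [h1]
        simpa using ih0.unit
      · by_cases h1 : m + 1 ≤ H m
        · by_cases h2 : 1 ≤ m ∧ m + 1 ≤ H (m - 1)
          · -- two edges
            obtain ⟨l, rfl⟩ : ∃ l, m = l + 1 := ⟨m - 1, by omega⟩
            have h3 : l + 2 ≤ H l := by
              have h4 := h2.2
              rw [Nat.add_sub_cancel] at h4
              omega
            have hc : ((range (l + 1 + 1)).filter (fun i => l + 1 + 1 ≤ H i)).card = 2 := by
              have : (range (l + 1 + 1)).filter (fun i => l + 1 + 1 ≤ H i) = {l, l + 1} := by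
                ext i
                simp only [mem_filter, mem_range, mem_insert, mem_singleton]
                constructor
                · rintro ⟨h4, h5⟩
                  have := hband i
                  omega
                · rintro (rfl | rfl)
                  · exact ⟨by omega, h3⟩
                  · exact ⟨by omega, h1⟩
              rw [this, Finset.card_pair (by omega)]
            rw [hc]
            have hY := ih2 l rfl (by omega)
            have hT := Cone2.T hq0 hq1 hY
            rw [← Ys_two (φ X) x H l (fun i hi => by have := hband i; omega) h3 h1] at hT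
            have hZ := Cone2.dm hq0 hq1 hT
            rw [← Zs_succ] at hZ
            refine ⟨hZ, fun m hm _ => ?_⟩
            obtain rfl : m = l + 1 := by omega
            exact hT
          · -- one edge
            have h3 : ∀ i < m, H i < m + 1 := by
              intro i hi
              by_contra h4
              exact h2 ⟨by omega, le_trans (by omega) (hmono i (m - 1) (by omega) (by omega))⟩
            have hc : ((range (m + 1)).filter (fun i => m + 1 ≤ H i)).card = 1 := by
              have : (range (m + 1)).filter (fun i => m + 1 ≤ H i) = {m} := by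
                ext i
                simp only [mem_filter, mem_range, mem_singleton]
                constructor
                · rintro ⟨h4, h5⟩
                  by_contra h6
                  have := h3 i (by omega)
                  omega
                · rintro rfl
                  exact ⟨by omega, h1⟩
              rw [this, Finset.card_singleton]
            rw [hc]
            have hY := (ih1 m rfl).dp
            rw [← Ys_one (φ X) x H m h3 h1] at hY
            have hZ := Cone2.dm hq0 hq1 hY
            rw [← Zs_succ] at hZ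
            refine ⟨hZ, fun m' hm _ => ?_⟩
            obtain rfl : m = m' := by omega
            exact hY
        · -- no edge
          have h3 : ∀ i < m + 1, H i < m + 1 := by
            intro i hi
            have := hmono i m (by omega) (by omega)
            omega
          have hc : ((range (m + 1)).filter (fun i => m + 1 ≤ H i)).card = 0 := by
            rw [Finset.card_eq_zero, Finset.filter_eq_empty_iff]
            intro i hi
            rw [mem_range] at hi
            have := h3 i hi
            omega
          rw [hc, Nat.add_zero]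
          refine ⟨?_, fun m' hm h4 => ?_⟩
          · have h1 : Zs (φ X) x H (m + 1) = fun b => Xs (φ X) x H (m + 1) * x b := by
              funext b
              exact Zs_isolated _ _ _ (m + 1) h3 b
            rw [h1]
            exact ih0.unit
          · obtain rfl : m = m' := by omega
            exact absurd h4 h1
    refine ⟨?_, ?_, ?_⟩
    · rw [Xs_succ]
      exact key.1.dm hq1
    · intro m hm
      obtain rfl : M = m := by omega
      exact key.1
    · intro m hm h
      exact key.2 m (by omega) h

end Main

end Run7.h247
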