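import Pool.Agent.Run7.h247.Gpos
import Pool.Agent.Run7.h247.Transfer

/-!
# The clique operators preserve the positive cones
-/

set_option autoImplicit false

namespace Run7.h247

open Finset Polynomial

section Fun

variable {R : Type*} [CommRing R] [IsDomain R] {q : R} {N : ℕ} (x : Fin N → R)

omit [IsDomain R] in
lemma Af_eq (c : ℕ) (k1 k : Fin N) :
    Af q x c k1 k = g q k1 k * (x k1 * x k) * ef (y2 q x k1 k) c := by
  have h1 : Af q x c k1 k = x k * (g q k1 k * x k1 * Wf q (yk q x k) k1 c) := rfl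
  rw [h1, ← ef_yk]
  have h2 : yk q (yk q x k) k1 = y2 q x k1 k := rfl
  rw [h2]
  ring

omit [IsDomain R] in
lemma bh_self (a d : ℕ) (k : Fin N) : bh q x a d k k = 0 := by
  unfold bh; rw [if_pos rfl]

omit [IsDomain R] in
lemma Af_self (c : ℕ) (k : Fin N) : Af q x c k k = 0 := by
  rw [Af_eq]; simp [g]

omit [IsDomain R] in
lemma Gop_self (r : ℕ) (Z : Fin N → R) (k : Fin N) : Gop q x r Z k k = 0 := by
  simp [Gop, g]

lemma Gop_large (hq1 : q - 1 ≠ 0) (r c : ℕ) (h : r + 1 ≤ c) (b1 b2 : Fin N) :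
    Gop q x r (fun a => Ef q x a (c + 1)) b1 b2
      = (∑ a ∈ range (r + 1), q ^ (r - a) * bh q x a (c + r - 1 - 2 * a) b1 b2)
        + ∑ j ∈ range (r + 1), q ^ (r + 2 + j) * qn q (c - (r + 1)) * ef x (c + 1 + j)
          * Af q x (r - j) b1 b2 := by
  rcases lt_trichotomy b1 b2 with hlt | heq | hgt
  · rw [Gop, Gs_large x hq1 hlt r c h, mul_add, Finset.mul_sum, Finset.mul_sum]
    congr 1
    · refine Finset.sum_congr rfl fun a ha => ?_
      rw [mem_range] at ha
      rw [bh_lo_hi q x hlt, g_lo_hi q hlt,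
        show 2 * a + 2 + (c + r - 1 - 2 * a) = c + 1 + r by omega]
      ring
    · refine Finset.sum_congr rfl fun j _ => ?_
      rw [Af_eq]
      ring
  · subst heq
    simp only [Gop_self, bh_self, Af_self, mul_zero, Finset.sum_const_zero, add_zero]
  · rw [Gop, Gs_comm, Gs_large x hq1 hgt r c h, mul_add, Finset.mul_sum, Finset.mul_sum]
    congr 1
    · refine Finset.sum_congr rfl fun a ha => ?_
      rw [mem_range] at ha
      rw [bh_hi_lo q x hgt, g_hi_lo q hgt,
        show 2 * a + 2 + (c + r - 1 - 2 * a) = c + 1 + r by omega]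
      ring
    · refine Finset.sum_congr rfl fun j _ => ?_
      rw [Af_eq, y2_comm q x b1 b2]
      ring

lemma Gop_small (hq1 : q - 1 ≠ 0) (t c : ℕ) (b1 b2 : Fin N) :
    Gop q x (c + t) (fun a => Ef q x a (c + 1)) b1 b2
      = (∑ a ∈ range c, q ^ (t + c - a) * bh q x a (2 * c + t - 1 - 2 * a) b1 b2)
        + ∑ i ∈ range (c + 1), q ^ i * qn q (t + 1) * ef x i
          * Af q x (2 * c + 1 + t - i) b1 b2 := by
  rcases lt_trichotomy b1 b2 with hlt | heq | hgt
  · rw [Gop, Gs_small x hq1 hlt t c, mul_add, Finset.mul_sum (range c) _ (q ^ (t + 1)),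
      Finset.mul_sum, Finset.mul_sum]
    congr 1
    · refine Finset.sum_congr rfl fun a ha => ?_
      rw [mem_range] at ha
      rw [bh_lo_hi q x hlt, g_lo_hi q hlt,
        show 2 * a + 2 + (2 * c + t - 1 - 2 * a) = 2 * c + 1 + t by omega,
        show t + c - a = (t + 1) + (c - 1 - a) by omega, pow_add]
      ring
    · refine Finset.sum_congr rfl fun j _ => ?_
      rw [Af_eq]
      ring
  · subst heq
    simp only [Gop_self, bh_self, Af_self, mul_zero, Finset.sum_const_zero, add_zero]
  · rw [Gop, Gs_comm, Gs_small x hq1 hgt t c, mul_add,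
      Finset.mul_sum (range c) _ (q ^ (t + 1)), Finset.mul_sum, Finset.mul_sum]
    congr 1
    · refine Finset.sum_congr rfl fun a ha => ?_
      rw [mem_range] at ha
      rw [bh_hi_lo q x hgt, g_hi_lo q hgt,
        show 2 * a + 2 + (2 * c + t - 1 - 2 * a) = 2 * c + 1 + t by omega,
        show t + c - a = (t + 1) + (c - 1 - a) by omega, pow_add]
      ring
    · refine Finset.sum_congr rfl fun j _ => ?_
      rw [Af_eq, y2_comm q x b1 b2]
      ring

end Fun

section Cones

variable {R : Type*} [CommRing R] {φ : ℤ[X] →+* R} {N : ℕ} {x : Fin N → R}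

lemma Cone2.termA {n M : ℕ} (s : Multiset ℕ) (p : ℤ[X]) (k l i c m' : ℕ) (hp : PU m' p)
    (hs : s.sum + i + (c + 2) = n) (hm : m' + 2 * k + l + (2 * c + 1) = M + 1) :
    Cone2 φ x n M (fun a b => φ p * es x s * (φ X ^ k * qn (φ X) l * ef x i
      * Af (φ X) x c a b)) := by
  by_cases hl : l = 0
  · subst hl
    have : (fun a b => φ p * es x s * (φ X ^ k * qn (φ X) 0 * ef x i
      * Af (φ X) x c a b)) = 0 := by
      funext a b
      simp [qn]
    rw [this]
    exact Cone2.zero _ _
  have h1 : PU (m' + 2 * k + l - 1) (X ^ k * qn X l * p) := hp.mul' (by omega)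
  have h2 := Cone2.genA (φ := φ) (x := x) (n := n) (m := M) (i ::ₘ s) (X ^ k * qn X l * p) c
    (m' + 2 * k + l - 1) (by rw [Multiset.sum_cons]; omega) (by omega) h1
  have h3 : (fun a b => φ p * es x s * (φ X ^ k * qn (φ X) l * ef x i
      * Af (φ X) x c a b))
      = fun a b => φ (X ^ k * qn X l * p) * es x (i ::ₘ s) * Af (φ X) x c a b := by
    funext a b
    rw [es_cons, map_mul, map_mul, map_pow, φqn]
    ring
  rw [h3]
  exact h2

lemma Cone2.termb {n M : ℕ} (s : Multiset ℕ) (p : ℤ[X]) (k a d m' : ℕ) (hp : PU m' p)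
    (hs : s.sum + (2 * a + 4 + d) = n) (hm : m' + 2 * k + 4 * a + 4 + d = M) :
    Cone2 φ x n M (fun b1 b2 => φ p * es x s * (φ X ^ k * bh (φ X) x a d b1 b2)) := by
  have h2 := Cone2.genb (φ := φ) (x := x) (n := n) (m := M) s (X ^ k * p) a d
    (m' + 2 * k) hs hm (hp.X_pow_mul k)
  have h3 : (fun b1 b2 => φ p * es x s * (φ X ^ k * bh (φ X) x a d b1 b2))
      = fun b1 b2 => φ (X ^ k * p) * es x s * bh (φ X) x a d b1 b2 := by
    funext a b
    rw [map_mul, map_pow]
    ring
  rw [h3]
  exact h2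

lemma Rop_add (q : R) (r : ℕ) (F G : Fin N → R) :
    Rop q x r (F + G) = Rop q x r F + Rop q x r G := by
  funext b
  simp only [Rop, Pi.add_apply, mul_add, add_mul, Finset.sum_add_distrib]

lemma Rop_zero (q : R) (r : ℕ) : Rop q x r (0 : Fin N → R) = 0 := by
  funext b
  simp [Rop]

lemma Rop_smul (q : R) (r : ℕ) (t : R) (F : Fin N → R) (b : Fin N) :
    Rop q x r (fun a => t * F a) b = t * Rop q x r F b := by
  unfold Rop
  rw [Finset.mul_sum, Finset.mul_sum, Finset.mul_sum]
  refine Finset.sum_congr rfl fun a _ => ?_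
  ring

lemma Gop_add (q : R) (r : ℕ) (F G : Fin N → R) :
    Gop q x r (F + G) = Gop q x r F + Gop q x r G := by
  funext b c
  simp only [Gop, Gs, Pi.add_apply, mul_add, add_mul, Finset.sum_add_distrib]

lemma Gop_zero (q : R) (r : ℕ) : Gop q x r (0 : Fin N → R) = 0 := by
  funext b c
  simp [Gop, Gs]

lemma Gop_smul (q : R) (r : ℕ) (t : R) (F : Fin N → R) (b c : Fin N) :
    Gop q x r (fun a => t * F a) b c = t * Gop q x r F b c := by
  unfold Gop Gs
  rw [Finset.mul_sum, Finset.mul_sum, Finset.mul_sum]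
  refine Finset.sum_congr rfl fun a _ => ?_
  ring

lemma Cone1.rop [IsDomain R] (hq1 : φ X - 1 ≠ 0) {n m : ℕ} {Z : Fin N → R}
    (h : Cone1 φ x n m Z) (r : ℕ) :
    Cone1 φ x (n + r + 1) (m + 2 * r + 1) (Rop (φ X) x r Z) := by
  induction h with
  | zero => rw [Rop_zero]; exact Cone1.zero _ _
  | add _ _ ih1 ih2 => rw [Rop_add]; exact ih1.add ih2
  | @gen s p c m' hs hm hp =>
    rcases le_total r c with hrc | hcr
    · have h2 : Rop (φ X) x r (fun k => φ p * es x s * Ef (φ X) x k (c + 1))
          = (∑ j ∈ range (r + 1), fun κ => φ p * es x s * (φ X ^ (r + 1)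
              * qn (φ X) (c + 1 + j - (r + 1)) * ef x (c + 1 + j) * Ef (φ X) x κ (r - j + 1)))
            + ∑ i ∈ range (r + 1), fun κ => φ p * es x s * (φ X ^ i
              * qn (φ X) (r + 1 - i) * ef x i * Ef (φ X) x κ (c + r + 1 - i + 1)) := by
        funext κ
        rw [Rop_smul, Rop_large x hq1 r c hrc]
        simp only [Pi.add_apply, Finset.sum_apply, mul_add, Finset.mul_sum]
      rw [h2]
      refine Cone1.add (Cone1.sum _ _ fun j hj => ?_) (Cone1.sum _ _ fun i hi => ?_)
      · rw [mem_range] at hj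
        exact Cone1.term s p _ _ _ _ m' hp (by omega) (by omega)
      · rw [mem_range] at hi
        exact Cone1.term s p _ _ _ _ m' hp (by omega) (by omega)
    · have h2 : Rop (φ X) x r (fun k => φ p * es x s * Ef (φ X) x k (c + 1))
          = (∑ j ∈ range (c + 1), fun κ => φ p * es x s * (φ X ^ (r + 1)
              * qn (φ X) j * ef x (r + 1 + j) * Ef (φ X) x κ (c - j + 1)))
            + ∑ i ∈ range (c + 1), fun κ => φ p * es x s * (φ X ^ i
              * qn (φ X) (r + 1 - i) * ef x i * Ef (φ X) x κ (c + r + 1 - i + 1)) := by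
        funext κ
        rw [Rop_smul, Rop_small x hq1 r c hcr]
        simp only [Pi.add_apply, Finset.sum_apply, mul_add, Finset.mul_sum]
      rw [h2]
      refine Cone1.add (Cone1.sum _ _ fun j hj => ?_) (Cone1.sum _ _ fun i hi => ?_)
      · rw [mem_range] at hj
        exact Cone1.term s p _ _ _ _ m' hp (by omega) (by omega)
      · rw [mem_range] at hi
        exact Cone1.term s p _ _ _ _ m' hp (by omega) (by omega)

lemma Cone1.gop [IsDomain R] (hq1 : φ X - 1 ≠ 0) {n m : ℕ} {Z : Fin N → R}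
    (h : Cone1 φ x n m Z) (r : ℕ) :
    Cone2 φ x (n + r + 2) (m + 3 * r + 3) (Gop (φ X) x r Z) := by
  induction h with
  | zero => rw [Gop_zero]; exact Cone2.zero _ _
  | add _ _ ih1 ih2 => rw [Gop_add]; exact ih1.add ih2
  | @gen s p c m' hs hm hp =>
    rcases Nat.lt_or_ge r c with hrc | hcr
    · have h2 : Gop (φ X) x r (fun k => φ p * es x s * Ef (φ X) x k (c + 1))
          = (∑ a ∈ range (r + 1), fun b1 b2 => φ p * es x s * (φ X ^ (r - a)
              * bh (φ X) x a (c + r - 1 - 2 * a) b1 b2))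
            + ∑ j ∈ range (r + 1), fun b1 b2 => φ p * es x s * (φ X ^ (r + 2 + j)
              * qn (φ X) (c - (r + 1)) * ef x (c + 1 + j) * Af (φ X) x (r - j) b1 b2) := by
        funext b1 b2
        rw [Gop_smul, Gop_large x hq1 r c hrc]
        simp only [Pi.add_apply, Finset.sum_apply, mul_add, Finset.mul_sum]
      rw [h2]
      refine Cone2.add (Cone2.sum _ _ fun a ha => ?_) (Cone2.sum _ _ fun j hj => ?_)
      · rw [mem_range] at ha
        exact Cone2.termb s p _ _ _ m' hp (by omega) (by omega)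
      · rw [mem_range] at hj
        exact Cone2.termA s p _ _ _ _ m' hp (by omega) (by omega)
    · obtain ⟨t, rfl⟩ := Nat.exists_eq_add_of_le hcr
      have h2 : Gop (φ X) x (c + t) (fun k => φ p * es x s * Ef (φ X) x k (c + 1))
          = (∑ a ∈ range c, fun b1 b2 => φ p * es x s * (φ X ^ (t + c - a)
              * bh (φ X) x a (2 * c + t - 1 - 2 * a) b1 b2))
            + ∑ i ∈ range (c + 1), fun b1 b2 => φ p * es x s * (φ X ^ i
              * qn (φ X) (t + 1) * ef x i * Af (φ X) x (2 * c + 1 + t - i) b1 b2) := by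
        funext b1 b2
        rw [Gop_smul, Gop_small x hq1 t c]
        simp only [Pi.add_apply, Finset.sum_apply, mul_add, Finset.mul_sum]
      rw [h2]
      refine Cone2.add (Cone2.sum _ _ fun a ha => ?_) (Cone2.sum _ _ fun i hi => ?_)
      · rw [mem_range] at ha
        exact Cone2.termb s p _ _ _ m' hp (by omega) (by omega)
      · rw [mem_range] at hi
        exact Cone2.termA s p _ _ _ _ m' hp (by omega) (by omega)

lemma Cone1.qnmul {n m : ℕ} {Z : Fin N → R} (h : Cone1 φ x n m Z) (l : ℕ) :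
    Cone1 φ x n (m + l) (fun k => qn (φ X) (l + 1) * Z k) := by
  induction h with
  | zero =>
    have : (fun k : Fin N => qn (φ X) (l + 1) * (0 : Fin N → R) k) = 0 := by funext k; simp
    rw [this]; exact Cone1.zero _ _
  | @add a b _ _ ih1 ih2 =>
    have : (fun k : Fin N => qn (φ X) (l + 1) * (a + b) k)
        = (fun k => qn (φ X) (l + 1) * a k) + fun k => qn (φ X) (l + 1) * b k := by
      funext k; simp [mul_add]
    rw [this]; exact ih1.add ih2
  | @gen s p c m' hs hm hp =>
    have h1 := Cone1.gen (φ := φ) (x := x) (n := n) (m := m + l) s (qn X (l + 1) * p) c (m' + l) hs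
      (by omega) (hp.qn_mul l)
    have h2 : (fun k : Fin N => qn (φ X) (l + 1) * (φ p * es x s * Ef (φ X) x k (c + 1)))
        = fun k => φ (qn X (l + 1) * p) * es x s * Ef (φ X) x k (c + 1) := by
      funext k
      rw [map_mul, φqn]; ring
    rw [h2]; exact h1

lemma Cone2.qnmul {n m : ℕ} {Z : Fin N → Fin N → R} (h : Cone2 φ x n m Z) (l : ℕ) :
    Cone2 φ x n (m + l) (fun k k' => qn (φ X) (l + 1) * Z k k') := by
  induction h with
  | zero =>
    have : (fun k k' : Fin N => qn (φ X) (l + 1) * (0 : Fin N → Fin N → R) k k') = 0 := by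
      funext k k'; simp
    rw [this]; exact Cone2.zero _ _
  | @add a b _ _ ih1 ih2 =>
    have : (fun k k' : Fin N => qn (φ X) (l + 1) * (a + b) k k')
        = (fun k k' => qn (φ X) (l + 1) * a k k') + fun k k' => qn (φ X) (l + 1) * b k k' := by
      funext k k'; simp [mul_add]
    rw [this]; exact ih1.add ih2
  | @genA s p c m' hs hm hp =>
    have h1 := Cone2.genA (φ := φ) (x := x) (n := n) (m := m + l) s (qn X (l + 1) * p) c (m' + l)
      hs (by omega) (hp.qn_mul l)
    have h2 : (fun k k' : Fin N => qn (φ X) (l + 1) * (φ p * es x s * Af (φ X) x c k k'))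
        = fun k k' => φ (qn X (l + 1) * p) * es x s * Af (φ X) x c k k' := by
      funext k k'
      rw [map_mul, φqn]; ring
    rw [h2]; exact h1
  | @genb s p a d m' hs hm hp =>
    have h1 := Cone2.genb (φ := φ) (x := x) (n := n) (m := m + l) s (qn X (l + 1) * p) a d (m' + l)
      hs (by omega) (hp.qn_mul l)
    have h2 : (fun k k' : Fin N => qn (φ X) (l + 1) * (φ p * es x s * bh (φ X) x a d k k'))
        = fun k k' => φ (qn X (l + 1) * p) * es x s * bh (φ X) x a d k k' := by
      funext k k'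
      rw [map_mul, φqn]; ring
    rw [h2]; exact h1
  | @genb' s p a d m' hs hm hp =>
    have h1 := Cone2.genb' (φ := φ) (x := x) (n := n) (m := m + l) s (qn X (l + 1) * p) a d
      (m' + l) hs (by omega) (hp.qn_mul l)
    have h2 : (fun k k' : Fin N => qn (φ X) (l + 1) * (φ p * es x s * bh' (φ X) x a d k k'))
        = fun k k' => φ (qn X (l + 1) * p) * es x s * bh' (φ X) x a d k k' := by
      funext k k'
      rw [map_mul, φqn]; ring
    rw [h2]; exact h1

end Cones

/-- `q`-factorials. -/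
def qfac {R : Type*} [CommRing R] (q : R) : ℕ → R
  | 0 => 1
  | r + 1 => qn q (r + 1) * qfac q r

/-- triangular numbers. -/
def tri : ℕ → ℕ
  | 0 => 0
  | r + 1 => tri r + r

section Fac

variable {R : Type*} [CommRing R] {φ : ℤ[X] →+* R} {N : ℕ} {x : Fin N → R}

lemma Cone1.fac {n m : ℕ} {Z : Fin N → R} (h : Cone1 φ x n m Z) (r : ℕ) :
    Cone1 φ x n (m + tri r) (fun k => qfac (φ X) r * Z k) := by
  induction r with
  | zero => simpa [qfac, tri] using h
  | succ r ih =>
    have h1 := ih.qnmul r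
    have h2 : (fun k : Fin N => qfac (φ X) (r + 1) * Z k)
        = fun k => qn (φ X) (r + 1) * (qfac (φ X) r * Z k) := by
      funext k; rw [qfac]; ring
    rw [h2, tri, ← Nat.add_assoc]
    exact h1

lemma Cone2.fac {n m : ℕ} {Z : Fin N → Fin N → R} (h : Cone2 φ x n m Z) (r : ℕ) :
    Cone2 φ x n (m + tri r) (fun k k' => qfac (φ X) r * Z k k') := by
  induction r with
  | zero => simpa [qfac, tri] using h
  | succ r ih =>
    have h1 := ih.qnmul r
    have h2 : (fun k k' : Fin N => qfac (φ X) (r + 1) * Z k k')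
        = fun k k' => qn (φ X) (r + 1) * (qfac (φ X) r * Z k k') := by
      funext k k'; rw [qfac]; ring
    rw [h2, tri, ← Nat.add_assoc]
    exact h1

end Fac

end Run7.h247
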