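import Pool.Agent.Run7.h247.Ops

/-!
# Explicit action of the transfer operators on the families `Af`, `bh`, `bh'`
-/

set_option autoImplicit false

namespace Run7.h247

open Finset Polynomial

variable {R : Type*} [CommRing R] (q : R) {N : ℕ} (x : Fin N → R)

lemma qn_mul' (m l : ℕ) : q ^ (m + l) - q ^ m = (q - 1) * (q ^ m * qn q l) := by
  have := qn_mul q l
  rw [pow_add]
  linear_combination (-q ^ m) * this

lemma UV1 {E : ℕ → R} (hE : E 0 = 0) (e : ℕ → R) (A b m : ℕ) :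
    U q (A + 1) b E (fun c => q ^ c * e c) - q ^ m * V q (A + 1) b E e
      = ∑ p ∈ antidiagonal A,
          (q ^ (p.1 + 1 + b + p.2) - q ^ (m + p.2)) * E (p.1 + 1) * e (b + p.2) := by
  rw [U_apply, V_apply, Finset.Nat.sum_antidiagonal_succ, Finset.Nat.sum_antidiagonal_succ]
  simp only [hE, mul_zero, zero_mul, zero_add]
  rw [Finset.mul_sum, ← Finset.sum_sub_distrib]
  refine Finset.sum_congr rfl fun p _ => ?_
  ring

lemma UV2 (E e : ℕ → R) (A b m n : ℕ) :
    q ^ m * V q A b (fun c => q ^ c * e c) E - q ^ n * U q A b e E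
      = ∑ p ∈ antidiagonal A,
          (q ^ (m + p.1 + p.2) - q ^ (n + p.1)) * e p.1 * E (b + p.2) := by
  rw [U_apply, V_apply, Finset.mul_sum, Finset.mul_sum, ← Finset.sum_sub_distrib]
  refine Finset.sum_congr rfl fun p _ => ?_
  ring

lemma GL1 (s a d : ℕ) (hs : s ≤ 1) (k : Fin N) :
    G1 q x (a + 1) (a + 3 + d) k (eqf q x) - q ^ s * L1 q x (a + 1) (a + 3 + d) k (ef x)
      = (q - 1) * (q * (∑ p ∈ antidiagonal a, q ^ (a + p.2 + 2 + s) * qn q (p.1 + d + 1 - s)
            * ef x (a + 3 + d + p.2) * Ef q x k (p.1 + 1)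
          + ∑ p ∈ antidiagonal (a + 1), q ^ (p.1 + s) * qn q (a + 1 + p.2 - s)
            * ef x p.1 * Ef q x k (a + 3 + d + p.2))) := by
  have h1 := UV1 q (E := Ef q x k) rfl (ef x) a (a + 3 + d) (a + 3 + s)
  have h2 := UV2 q (Ef q x k) (ef x) (a + 1) (a + 3 + d) (a + 2) (s + 1)
  have h1' : ∑ p ∈ antidiagonal a,
          (q ^ (p.1 + 1 + (a + 3 + d) + p.2) - q ^ (a + 3 + s + p.2)) * Ef q x k (p.1 + 1)
            * ef x (a + 3 + d + p.2)
      = (q - 1) * (q * ∑ p ∈ antidiagonal a, q ^ (a + p.2 + 2 + s) * qn q (p.1 + d + 1 - s)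
            * ef x (a + 3 + d + p.2) * Ef q x k (p.1 + 1)) := by
    rw [Finset.mul_sum, Finset.mul_sum]
    refine Finset.sum_congr rfl fun p hp => ?_
    rw [HasAntidiagonal.mem_antidiagonal] at hp
    rw [show p.1 + 1 + (a + 3 + d) + p.2 = (a + 3 + s + p.2) + (p.1 + d + 1 - s) by omega,
      qn_mul', show a + 3 + s + p.2 = (a + p.2 + 2 + s) + 1 by omega, pow_succ]
    ring
  have h2' : ∑ p ∈ antidiagonal (a + 1),
          (q ^ (a + 2 + p.1 + p.2) - q ^ (s + 1 + p.1)) * ef x p.1 * Ef q x k (a + 3 + d + p.2)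
      = (q - 1) * (q * ∑ p ∈ antidiagonal (a + 1), q ^ (p.1 + s) * qn q (a + 1 + p.2 - s)
            * ef x p.1 * Ef q x k (a + 3 + d + p.2)) := by
    rw [Finset.mul_sum, Finset.mul_sum]
    refine Finset.sum_congr rfl fun p hp => ?_
    rw [HasAntidiagonal.mem_antidiagonal] at hp
    rw [show a + 2 + p.1 + p.2 = (s + 1 + p.1) + (a + 1 + p.2 - s) by omega,
      qn_mul', show s + 1 + p.1 = (p.1 + s) + 1 by omega, pow_succ]
    ring
  rw [G1_apply, L1_apply]
  rw [h1'] at h1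
  rw [h2'] at h2
  have h3 : eqf q x = fun c => q ^ c * ef x c := rfl
  rw [h3]
  linear_combination h1 + h2

lemma GL2 (s B d : ℕ) (hs : s ≤ 1) (k : Fin N) :
    G2 q x B (B + 2 + d) k (eqf q x) - q ^ s * L2 q x B (B + 2 + d) k (ef x)
      = (q - 1) * (q * (∑ p ∈ antidiagonal B, q ^ (B + p.2 + 1 + s) * qn q (p.1 + d + 1 - s)
            * ef x (B + 2 + d + p.2) * Ef q x k (p.1 + 1)
          + ∑ p ∈ antidiagonal B, q ^ (p.1 + s) * qn q (B + 1 + p.2 - s)
            * ef x p.1 * Ef q x k (B + 2 + d + 1 + p.2))) := by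
  have h1 := UV1 q (E := Ef q x k) rfl (ef x) B (B + 2 + d) (B + 2 + s)
  have h2 := UV2 q (Ef q x k) (ef x) B (B + 2 + d + 1) (B + 2) (s + 1)
  have h1' : ∑ p ∈ antidiagonal B,
          (q ^ (p.1 + 1 + (B + 2 + d) + p.2) - q ^ (B + 2 + s + p.2)) * Ef q x k (p.1 + 1)
            * ef x (B + 2 + d + p.2)
      = (q - 1) * (q * ∑ p ∈ antidiagonal B, q ^ (B + p.2 + 1 + s) * qn q (p.1 + d + 1 - s)
            * ef x (B + 2 + d + p.2) * Ef q x k (p.1 + 1)) := by
    rw [Finset.mul_sum, Finset.mul_sum]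
    refine Finset.sum_congr rfl fun p hp => ?_
    rw [HasAntidiagonal.mem_antidiagonal] at hp
    rw [show p.1 + 1 + (B + 2 + d) + p.2 = (B + 2 + s + p.2) + (p.1 + d + 1 - s) by omega,
      qn_mul', show B + 2 + s + p.2 = (B + p.2 + 1 + s) + 1 by omega, pow_succ]
    ring
  have h2' : ∑ p ∈ antidiagonal B,
          (q ^ (B + 2 + p.1 + p.2) - q ^ (s + 1 + p.1)) * ef x p.1
            * Ef q x k (B + 2 + d + 1 + p.2)
      = (q - 1) * (q * ∑ p ∈ antidiagonal B, q ^ (p.1 + s) * qn q (B + 1 + p.2 - s)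
            * ef x p.1 * Ef q x k (B + 2 + d + 1 + p.2)) := by
    rw [Finset.mul_sum, Finset.mul_sum]
    refine Finset.sum_congr rfl fun p hp => ?_
    rw [HasAntidiagonal.mem_antidiagonal] at hp
    rw [show B + 2 + p.1 + p.2 = (s + 1 + p.1) + (B + 1 + p.2 - s) by omega,
      qn_mul', show s + 1 + p.1 = (p.1 + s) + 1 by omega, pow_succ]
    ring
  rw [G2_apply, L2_apply]
  rw [h1'] at h1
  rw [h2'] at h2
  have h3 : eqf q x = fun c => q ^ c * ef x c := rfl
  rw [h3]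
  linear_combination h1 + h2

/-! ### the families -/

/-- first positive family. -/
noncomputable def bh (a d : ℕ) : Fin N → Fin N → R := fun k1 k =>
  if k1 = k then 0 else if k1 < k then
    q * x k1 * U q a (a + 3 + d) (Wf q x k1) (Ef q x k)
      + q ^ (a + 2) * x k * V q a (a + 3 + d) (Wf q x k) (Ef q x k1)
  else
    x k * U q a (a + 3 + d) (Wf q x k) (Ef q x k1)
      + q ^ (a + 1) * x k1 * V q a (a + 3 + d) (Wf q x k1) (Ef q x k)

/-- second positive family. -/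
noncomputable def bh' (B d : ℕ) : Fin N → Fin N → R := fun k1 k =>
  if k1 = k then 0 else if k1 < k then
    U q B (B + 2 + d + 1) (Ef q x k1) (Ef q x k)
      + q ^ (B + 1) * V q (B + 1) (B + 2 + d) (Ef q x k) (Ef q x k1)
  else
    x k * U q B (B + 2 + d) (Wf q x k) (Ef q x k1)
      + q ^ (B + 1) * V q B (B + 2 + d + 1) (Ef q x k1) (Ef q x k)

/-- modified variables, with a fixed second colour `k`. -/
def yk (k : Fin N) : Fin N → R := fun s => g q s k * x s

/-- third positive family (`Af c` has degree `c + 2`). -/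
noncomputable def Af (c : ℕ) : Fin N → Fin N → R := fun k1 k =>
  x k * Ef q (yk q x k) k1 (c + 1)

/-- the functions `E_c` with a new neighbour. -/
noncomputable def Bf (c : ℕ) : Fin N → Fin N → R := dp q x (fun k => Ef q x k c)

lemma q_bh (a d : ℕ) (k1 k : Fin N) :
    q * bh q x a d k1 k = bt q x (a + 1) (a + 3 + d) k1 k := by
  unfold bh bt
  split_ifs
  · ring
  · rw [L1_apply, U_shift_left (isShift q x k1), V_shift_left (isShift q x k)]
    ring
  · rw [G1_apply, U_shift_left (isShift q x k), V_shift_left (isShift q x k1)]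
    ring

lemma q_bh' (B d : ℕ) (k1 k : Fin N) :
    q * bh' q x B d k1 k = bt' q x B (B + 2 + d) k1 k := by
  unfold bh' bt'
  split_ifs
  · ring
  · rw [L2_apply]
    ring
  · rw [G2_apply, U_shift_left (isShift q x k)]
    ring

lemma T_smul (r : R) (F : Fin N → Fin N → R) (b c : Fin N) :
    T q x (fun a b => r * F a b) b c = r * T q x F b c := by
  unfold T
  rw [Finset.mul_sum, Finset.mul_sum, Finset.mul_sum]
  refine Finset.sum_congr rfl fun a _ => ?_
  ring

lemma dm_smul (r : R) (F : Fin N → Fin N → R) (b : Fin N) :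
    dm (fun a b => r * F a b) b = r * dm F b := by
  unfold dm
  rw [Finset.mul_sum]

lemma Wf_zero (k : Fin N) : Wf q x k 0 = 1 := by
  unfold Wf Wp
  rw [coeff_zero_eq_eval_zero, eval_prod]
  refine Finset.prod_eq_one fun s _ => ?_
  split_ifs <;> simp

lemma Ef_one (k : Fin N) : Ef q x k 1 = x k := by
  show x k * Wf q x k 0 = x k
  rw [Wf_zero, mul_one]

lemma Bf_one : Bf q x 1 = Af q x 0 := by
  funext k1 k
  show Ef q x k1 1 * (x k * g q k1 k) = x k * Ef q (yk q x k) k1 1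
  rw [Ef_one, Ef_one]
  unfold yk
  ring

lemma Bf_succ_succ (d : ℕ) : Bf q x (d + 2) = bh' q x 0 d := by
  funext k1 k
  unfold Bf dp bh'
  rw [V_shift_left (isShift q x k), g]
  simp only [U_apply, V_apply, Finset.Nat.antidiagonal_zero, sum_singleton, Wf_zero, pow_zero,
    Nat.add_zero, one_mul, Nat.zero_add]
  have h0 : Ef q x k1 0 = 0 := rfl
  rw [h0, show 2 + d = d + 2 by omega]
  split_ifs
  · ring
  · ring
  · ring

section Domain

variable [IsDomain R] {q}

lemma T_bh (hq0 : q ≠ 0) (hq1 : q - 1 ≠ 0) (a d : ℕ) (k2 k3 : Fin N) :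
    T q x (bh q x a d) k2 k3 = bh' q x (a + 1) d k2 k3
      + (∑ p ∈ antidiagonal a, q ^ (a + p.2 + 3) * qn q (p.1 + d)
            * ef x (a + 3 + d + p.2) * Bf q x (p.1 + 1) k2 k3
          + ∑ p ∈ antidiagonal (a + 1), q ^ (p.1 + 1) * qn q (a + p.2)
            * ef x p.1 * Bf q x (a + 3 + d + p.2) k2 k3) := by
  refine mul_left_cancel₀ hq0 (mul_left_cancel₀ hq1 ?_)
  have h1 := T_bt q x (a + 1) (a + 2 + d) k2 k3
  rw [show a + 2 + d + 1 = a + 3 + d by omega] at h1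
  have h2 : bt q x (a + 1) (a + 3 + d) = fun a' b' => q * bh q x a d a' b' := by
    funext a' b'; rw [q_bh]
  have h3 := q_bh' q x (a + 1) d k2 k3
  rw [show a + 1 + 2 + d = a + 3 + d by omega] at h3
  have h4 := GL1 q x 1 a d le_rfl k2
  rw [h2, T_smul, ← h3] at h1
  rw [pow_one] at h4
  rw [h1, h4]
  simp only [Nat.add_sub_cancel, show ∀ p : ℕ × ℕ, a + 1 + p.2 - 1 = a + p.2 from
    fun p => by omega]
  have h5 : ∀ c, Bf q x c k2 k3 = x k3 * g q k2 k3 * Ef q x k2 c := by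
    intro c; unfold Bf dp; ring
  simp only [h5]
  have h6 : x k3 * g q k2 k3 * (∑ p ∈ antidiagonal a, q ^ (a + p.2 + 2 + 1) * qn q (p.1 + d)
            * ef x (a + 3 + d + p.2) * Ef q x k2 (p.1 + 1))
      = ∑ p ∈ antidiagonal a, q ^ (a + p.2 + 3) * qn q (p.1 + d)
            * ef x (a + 3 + d + p.2) * (x k3 * g q k2 k3 * Ef q x k2 (p.1 + 1)) := by
    rw [Finset.mul_sum]
    refine Finset.sum_congr rfl fun p _ => ?_
    ring
  have h7 : x k3 * g q k2 k3 * (∑ p ∈ antidiagonal (a + 1), q ^ (p.1 + 1) * qn q (a + p.2)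
            * ef x p.1 * Ef q x k2 (a + 3 + d + p.2))
      = ∑ p ∈ antidiagonal (a + 1), q ^ (p.1 + 1) * qn q (a + p.2)
            * ef x p.1 * (x k3 * g q k2 k3 * Ef q x k2 (a + 3 + d + p.2)) := by
    rw [Finset.mul_sum]
    refine Finset.sum_congr rfl fun p _ => ?_
    ring
  rw [← h6, ← h7]
  ring

lemma T_bh' (hq0 : q ≠ 0) (hq1 : q - 1 ≠ 0) (B d : ℕ) (k2 k3 : Fin N) :
    T q x (bh' q x B d) k2 k3 = bh q x B d k2 k3
      + (∑ p ∈ antidiagonal B, q ^ (B + p.2 + 2) * qn q (p.1 + d)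
            * ef x (B + 2 + d + p.2) * Bf q x (p.1 + 1) k2 k3
          + ∑ p ∈ antidiagonal B, q ^ (p.1 + 1) * qn q (B + p.2)
            * ef x p.1 * Bf q x (B + 3 + d + p.2) k2 k3) := by
  refine mul_left_cancel₀ hq0 (mul_left_cancel₀ hq1 ?_)
  have h1 := T_bt' q x B (B + 2 + d) k2 k3
  rw [show B + 2 + d + 1 = B + 3 + d by omega] at h1
  have h2 : bt' q x B (B + 2 + d) = fun a' b' => q * bh' q x B d a' b' := by
    funext a' b'; rw [q_bh']
  have h3 := q_bh q x B d k2 k3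
  have h4 := GL2 q x 1 B d le_rfl k2
  rw [h2, T_smul, ← h3] at h1
  rw [pow_one] at h4
  rw [h1, h4]
  simp only [Nat.add_sub_cancel, show ∀ p : ℕ × ℕ, B + 1 + p.2 - 1 = B + p.2 from
    fun p => by omega, show B + 2 + d + 1 = B + 3 + d by omega]
  have h5 : ∀ c, Bf q x c k2 k3 = x k3 * g q k2 k3 * Ef q x k2 c := by
    intro c; unfold Bf dp; ring
  simp only [h5]
  have h6 : x k3 * g q k2 k3 * (∑ p ∈ antidiagonal B, q ^ (B + p.2 + 1 + 1) * qn q (p.1 + d)
            * ef x (B + 2 + d + p.2) * Ef q x k2 (p.1 + 1))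
      = ∑ p ∈ antidiagonal B, q ^ (B + p.2 + 2) * qn q (p.1 + d)
            * ef x (B + 2 + d + p.2) * (x k3 * g q k2 k3 * Ef q x k2 (p.1 + 1)) := by
    rw [Finset.mul_sum]
    refine Finset.sum_congr rfl fun p _ => ?_
    ring
  have h7 : x k3 * g q k2 k3 * (∑ p ∈ antidiagonal B, q ^ (p.1 + 1) * qn q (B + p.2)
            * ef x p.1 * Ef q x k2 (B + 3 + d + p.2))
      = ∑ p ∈ antidiagonal B, q ^ (p.1 + 1) * qn q (B + p.2)
            * ef x p.1 * (x k3 * g q k2 k3 * Ef q x k2 (B + 3 + d + p.2)) := by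
    rw [Finset.mul_sum]
    refine Finset.sum_congr rfl fun p _ => ?_
    ring
  rw [← h6, ← h7]
  ring

lemma dm_bh (hq0 : q ≠ 0) (hq1 : q - 1 ≠ 0) (a d : ℕ) (k2 : Fin N) :
    dm (bh q x a d) k2 =
      (∑ p ∈ antidiagonal a, q ^ (a + p.2 + 2) * qn q (p.1 + d + 1)
            * ef x (a + 3 + d + p.2) * Ef q x k2 (p.1 + 1)
          + ∑ p ∈ antidiagonal (a + 1), q ^ p.1 * qn q (a + 1 + p.2)
            * ef x p.1 * Ef q x k2 (a + 3 + d + p.2)) := by
  refine mul_left_cancel₀ hq0 (mul_left_cancel₀ hq1 ?_)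
  have h1 := dm_bt q x (a + 1) (a + 2 + d) k2
  rw [show a + 2 + d + 1 = a + 3 + d by omega] at h1
  have h2 : bt q x (a + 1) (a + 3 + d) = fun a' b' => q * bh q x a d a' b' := by
    funext a' b'; rw [q_bh]
  have h4 := GL1 q x 0 a d (by omega) k2
  rw [h2, dm_smul] at h1
  rw [pow_zero, one_mul] at h4
  rw [h1, h4]
  simp only [Nat.sub_zero, Nat.add_zero]

lemma dm_bh' (hq0 : q ≠ 0) (hq1 : q - 1 ≠ 0) (B d : ℕ) (k2 : Fin N) :
    dm (bh' q x B d) k2 =
      (∑ p ∈ antidiagonal B, q ^ (B + p.2 + 1) * qn q (p.1 + d + 1)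
            * ef x (B + 2 + d + p.2) * Ef q x k2 (p.1 + 1)
          + ∑ p ∈ antidiagonal B, q ^ p.1 * qn q (B + 1 + p.2)
            * ef x p.1 * Ef q x k2 (B + 3 + d + p.2)) := by
  refine mul_left_cancel₀ hq0 (mul_left_cancel₀ hq1 ?_)
  have h1 := dm_bt' q x B (B + 2 + d) k2
  have h2 : bt' q x B (B + 2 + d) = fun a' b' => q * bh' q x B d a' b' := by
    funext a' b'; rw [q_bh']
  have h4 := GL2 q x 0 B d (by omega) k2
  rw [h2, dm_smul] at h1
  rw [pow_zero, one_mul] at h4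
  rw [h1, h4]
  simp only [Nat.sub_zero, Nat.add_zero, show B + 2 + d + 1 = B + 3 + d by omega]

/-! ### the family `Af` -/

omit [IsDomain R] in
lemma ef_yk (k : Fin N) : ef (yk q x k) = Wf q x k := by
  funext c
  unfold ef Wf Wp yk g
  congr 1
  refine Finset.prod_congr rfl fun s _ => ?_
  split_ifs <;> simp

omit [IsDomain R] in
lemma Ef_yk_self (k : Fin N) : Ef q (yk q x k) k = 0 := by
  funext c
  cases c with
  | zero => rfl
  | succ c =>
    show yk q x k k * _ = 0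
    simp [yk, g]

omit [IsDomain R] in
lemma Wf_yk_comm (k k' : Fin N) (h : k ≠ k') : Wf q (yk q x k) k' = Wf q (yk q x k') k := by
  funext c
  unfold Wf Wp yk g
  congr 1
  refine Finset.prod_congr rfl fun s _ => ?_
  by_cases h1 : s = k
  · subst h1
    simp
  · by_cases h2 : s = k'
    · subst h2
      simp
    · simp only [h1, h2, if_false]
      split_ifs <;> simp

lemma dm_Af (hq1 : q - 1 ≠ 0) (c : ℕ) (k2 : Fin N) :
    dm (Af q x c) k2 = qn q (c + 1) * Ef q x k2 (c + 2) := by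
  refine mul_left_cancel₀ hq1 ?_
  have hF : ∀ a, (fun a => Af q x c a k2) a = if a = k2 then 0 else if a < k2 then
      (x k2 • LinearMap.proj (c + 1) : (ℕ → R) →ₗ[R] R) (Ef q (yk q x k2) a)
      else (x k2 • LinearMap.proj (c + 1) : (ℕ → R) →ₗ[R] R) (Ef q (yk q x k2) a) := by
    intro a
    simp only [Af]
    split_ifs with h1
    · rw [h1, Ef_yk_self]; simp
    · simp
    · simp
  have h1 := sum_one' hF (by rw [Ef_yk_self]; simp)
  unfold dm
  rw [h1]
  simp only [LinearMap.smul_apply, LinearMap.proj_apply, smul_eq_mul, eqf, ef_yk]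
  show _ = (q - 1) * (qn q (c + 1) * (x k2 * Wf q x k2 (c + 1)))
  have := qn_mul q (c + 1)
  linear_combination (-(x k2 * Wf q x k2 (c + 1))) * this

lemma T_Af (hq1 : q - 1 ≠ 0) (c : ℕ) (k2 k3 : Fin N) :
    T q x (Af q x c) k2 k3 = Af q x (c + 1) k2 k3 + q * qn q c * Bf q x (c + 2) k2 k3 := by
  refine mul_left_cancel₀ hq1 ?_
  have hF : ∀ a, (fun a => Af q x c a k2) a = if a = k2 then 0 else if a < k2 then
      (x k2 • LinearMap.proj (c + 1) : (ℕ → R) →ₗ[R] R) (Ef q (yk q x k2) a)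
      else (x k2 • LinearMap.proj (c + 1) : (ℕ → R) →ₗ[R] R) (Ef q (yk q x k2) a) := by
    intro a
    simp only [Af]
    split_ifs with h1
    · rw [h1, Ef_yk_self]; simp
    · simp
    · simp
  have hc : (x k2 • LinearMap.proj (c + 1) : (ℕ → R) →ₗ[R] R)
      (Wf q (yk q x k2) k2 + Ef q (yk q x k2) k2)
      = (x k2 • LinearMap.proj (c + 1) : (ℕ → R) →ₗ[R] R)
      (Wf q (yk q x k2) k2 + q • Ef q (yk q x k2) k2) := by rw [Ef_yk_self]; simp
  have hq := qn_mul q c
  unfold T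
  by_cases h23 : k2 = k3
  · subst h23
    have : Af q x (c + 1) k2 k2 = 0 := by simp [Af, Ef_yk_self]
    rw [this]
    simp [g, Bf, dp]
  · have key : (q - 1) * ∑ a, g q a k3 * Af q x c a k2
        = (q - 1) * (x k2 * Wf q (yk q x k2) k3 (c + 1))
          + x k2 * ((q ^ (c + 1) - q) * Wf q x k2 (c + 1)) := by
      rcases lt_or_gt_of_ne h23 with h | h
      · have h1 := sum_lt' hF hc h
        rw [h1]
        simp only [LinearMap.smul_apply, LinearMap.proj_apply, smul_eq_mul, eqf, ef_yk]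
        ring
      · have h1 := sum_gt' hF hc h
        rw [h1]
        simp only [LinearMap.smul_apply, LinearMap.proj_apply, smul_eq_mul, eqf, ef_yk]
        ring
    have hA : Af q x (c + 1) k2 k3
        = x k3 * (g q k2 k3 * x k2 * Wf q (yk q x k2) k3 (c + 1)) := by
      rw [Wf_yk_comm x k2 k3 h23]
      rfl
    have hB : Bf q x (c + 2) k2 k3 = x k2 * Wf q x k2 (c + 1) * (x k3 * g q k2 k3) := rfl
    rw [hA, hB]
    linear_combination x k3 * g q k2 k3 * key
      - x k3 * g q k2 k3 * x k2 * Wf q x k2 (c + 1) * q * hq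

/-! ### one-vertex functions -/

lemma dm1 (hq1 : q - 1 ≠ 0) (c : ℕ) :
    ∑ a, Ef q x a (c + 1) = qn q (c + 1) * ef x (c + 1) := by
  refine mul_left_cancel₀ hq1 ?_
  have h2 := tele (N := N) (fun i => Pf q x i (c + 1)) 0 N (Nat.zero_le _) le_rfl
  have h3 := qn_mul q (c + 1)
  rw [Pf_zero, Pf_N] at h2
  rw [Finset.mul_sum]
  have h4 : ∀ a : Fin N, (q - 1) * Ef q x a (c + 1)
      = if 0 ≤ a.val ∧ a.val < N then Pf q x (a.val + 1) (c + 1) - Pf q x a.val (c + 1)
        else 0 := by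
    intro a
    rw [if_pos ⟨Nat.zero_le _, a.isLt⟩, Pf_val, Pf_succ]
    simp only [Pi.add_apply, Pi.smul_apply, smul_eq_mul]
    ring
  rw [Finset.sum_congr rfl fun a _ => h4 a, h2, eqf]
  linear_combination (-ef x (c + 1)) * h3

end Domain

end Run7.h247
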