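import Pool.Agent.Run7.h247.Block

/-!
# The refined conjecture for cliques of size at most three or starting at a separating vertex
-/

set_option autoImplicit false

namespace Run7.h247

open Finset Polynomial

/-- The refined Shareshian-Wachs conjecture when every new maximal clique has at most three
vertices or starts at a separating vertex. -/
theorem cut_cliques (n : ℕ) (h : Fin n → Fin n) (hmono : Monotone h)
    (hcls : ∀ j, (h j).val ≤ j.val + 2 ∨ (∃ l, l < j ∧ h l = h j) ∨ (∀ l, l < j → h l ≤ j))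
    (E : ℕ)
    (hE : E = (Finset.univ.filter (fun p : Fin n × Fin n => p.1 < p.2 ∧ p.2 ≤ h p.1)).card) :
    ∃ a : Nat.Partition n → Polynomial ℤ,
      ((∑ κ ∈ (Finset.univ.filter
            (fun κ : Fin n → Fin n => ∀ i j : Fin n, i < j → j ≤ h i → κ i ≠ κ j)),
          MvPolynomial.C (Polynomial.X ^ ((Finset.univ.filter
            (fun p : Fin n × Fin n => p.1 < p.2 ∧ p.2 ≤ h p.1 ∧ κ p.1 < κ p.2)).card))
            * ∏ i : Fin n, MvPolynomial.X (κ i) : MvPolynomial (Fin n) (Polynomial ℤ))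
        = ∑ μ : Nat.Partition n, MvPolynomial.C (a μ) *
            (μ.parts.map (fun k => MvPolynomial.esymm (Fin n) (Polynomial ℤ) k)).prod)
      ∧ ∀ μ : Nat.Partition n,
          (∀ i : ℕ, 0 ≤ (a μ).coeff i)
          ∧ (∀ i : ℕ, E < i → (a μ).coeff i = 0)
          ∧ (∀ i : ℕ, i ≤ E → (a μ).coeff i = (a μ).coeff (E - i))
          ∧ (∀ i j : ℕ, i ≤ j → 2 * j ≤ E → (a μ).coeff i ≤ (a μ).coeff j) := by
  have hmono' : ∀ i j, i ≤ j → j < n → ext h i ≤ ext h j := by
    intro i j hij hj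
    have h1 : (⟨i, by omega⟩ : Fin n) ≤ ⟨j, hj⟩ := hij
    have h2 := hmono h1
    rw [Fin.le_def] at h2
    simpa [ext, hj, lt_of_le_of_lt hij hj] using h2
  have hcls' : ∀ j < n, ext h j ≤ j + 2 ∨ (∃ l < j, ext h l = ext h j)
      ∨ (∀ l < j, ext h l ≤ j) := by
    intro j hj
    rcases hcls ⟨j, hj⟩ with h1 | ⟨l, h1, h2⟩ | h1
    · left
      simpa [ext, hj] using h1
    · right; left
      refine ⟨l.val, h1, ?_⟩
      rw [ext_val, h2]
      simp [ext, hj]
    · right; right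
      intro l hl
      have h2 := h1 ⟨l, by omega⟩ hl
      rw [Fin.le_def] at h2
      simpa [ext, lt_trans hl hj] using h2
  have hX : (MvPolynomial.C : ℤ[X] →+* MvPolynomial (Fin n) ℤ[X]) X ≠ 0 := by
    rw [Ne, MvPolynomial.C_eq_zero]
    exact X_ne_zero
  have hX1 : (MvPolynomial.C : ℤ[X] →+* MvPolynomial (Fin n) ℤ[X]) X - 1 ≠ 0 := by
    rw [← map_one (MvPolynomial.C : ℤ[X] →+* MvPolynomial (Fin n) ℤ[X]), ← map_sub, Ne,
      MvPolynomial.C_eq_zero]
    exact X_sub_C_ne_zero 1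
  obtain ⟨a, ha, ha'⟩ := exp_of_cone (main_ind2 (x := MvPolynomial.X) (H := ext h) hX hX1 n
    hmono' hcls' n le_rfl).1
  rw [Es_eq, ← hE] at ha'
  refine ⟨a, ?_, fun μ => (ha' μ).unpack⟩
  rw [← ha, Finset.sum_filter]
  unfold Xs
  refine Finset.sum_congr rfl fun κ _ => ?_
  rw [wt_eq]

end Run7.h247
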