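import Pool.Agent.Run7.h247.Rop

/-!
# A clique attached at one vertex, leaving two active vertices
-/

set_option autoImplicit false

namespace Run7.h247

open Finset Polynomial

variable {R : Type*} [CommRing R] (q : R) {N : ℕ} (x : Fin N → R)

lemma three_range {N : ℕ} (A B D : ℕ → R) (lo hi : Fin N) (hlh : lo < hi) (G : Fin N → R)
    (h1 : ∀ a : Fin N, a < lo → (q - 1) * G a = q ^ 2 * (A (a.val + 1) - A a.val))
    (h2 : G lo = 0)
    (h3 : ∀ a : Fin N, lo < a → a < hi → (q - 1) * G a = q * (B (a.val + 1) - B a.val))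
    (h4 : G hi = 0)
    (h5 : ∀ a : Fin N, hi < a → (q - 1) * G a = D (a.val + 1) - D a.val) :
    (q - 1) * ∑ a, G a = q ^ 2 * (A lo.val - A 0) + q * (B hi.val - B (lo.val + 1))
      + (D N - D (hi.val + 1)) := by
  have hlh' := hlh
  rw [Fin.lt_def] at hlh'
  have t1 := tele A 0 lo.val (Nat.zero_le _) lo.isLt.le
  have t2 := tele B (lo.val + 1) hi.val hlh' hi.isLt.le
  have t3 := tele D (hi.val + 1) N hi.isLt le_rfl
  rw [← t1, ← t2, ← t3, Finset.mul_sum, Finset.mul_sum, Finset.mul_sum,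
    ← Finset.sum_add_distrib, ← Finset.sum_add_distrib]
  refine Finset.sum_congr rfl fun a _ => ?_
  have ha := a.isLt
  rcases lt_trichotomy a lo with h | h | h
  · rw [h1 a h]
    rw [Fin.lt_def] at h
    rw [if_pos ⟨Nat.zero_le _, h⟩, if_neg (by omega), if_neg (by omega)]
    ring
  · subst h
    rw [h2, if_neg (by omega), if_neg (by omega), if_neg (by omega)]
    ring
  · rcases lt_trichotomy a hi with h' | h' | h'
    · rw [h3 a h h']
      rw [Fin.lt_def] at h h'
      rw [if_neg (by omega), if_pos ⟨by omega, h'⟩, if_neg (by omega)]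
      ring
    · subst h'
      rw [Fin.lt_def] at h
      rw [h4, if_neg (by omega), if_neg (by omega), if_neg (by omega)]
      ring
    · rw [h5 a h']
      rw [Fin.lt_def] at h h'
      rw [if_neg (by omega), if_neg (by omega), if_pos ⟨by omega, ha⟩]
      ring

/-- variables seen by both of two later vertices. -/
def y2 (b1 b2 : Fin N) : Fin N → R := fun s => g q s b1 * (g q s b2 * x s)

lemma y2_comm (b1 b2 : Fin N) : y2 q x b1 b2 = y2 q x b2 b1 := by
  funext s; unfold y2; ring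

/-- inner sum for the clique operator with two last vertices. -/
noncomputable def Gs (r : ℕ) (Z : Fin N → R) (b1 b2 : Fin N) : R :=
  ∑ a, g q a b1 * g q a b2 * Z a * Mf q (y2 q x b1 b2) a r

/-- the clique operator with `r` middle vertices and two last vertices. -/
noncomputable def Gop (r : ℕ) (Z : Fin N → R) : Fin N → Fin N → R := fun b1 b2 =>
  g q b1 b2 * (x b1 * x b2) * Gs q x r Z b1 b2

lemma Gs_comm (r : ℕ) (Z : Fin N → R) (b1 b2 : Fin N) :
    Gs q x r Z b1 b2 = Gs q x r Z b2 b1 := by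
  unfold Gs
  refine Finset.sum_congr rfl fun a _ => ?_
  rw [y2_comm]
  ring

section LoHi

variable {lo hi : Fin N} (hlh : lo < hi)

include hlh

lemma g_lo_hi : g q lo hi = q := by simp [g, hlh.ne, hlh]

lemma g_hi_lo : g q hi lo = 1 := by simp [g, hlh.ne', hlh.not_gt]

lemma Gs_raw (r c : ℕ) :
    (q - 1) * Gs q x r (fun a => Ef q x a (c + 1)) lo hi
      = (∑ p ∈ antidiagonal r, (q ^ (p.2 + 1) - 1) * q ^ (r + 1) * Wf q x hi p.1
          * Wf q x lo (c + 1 + p.2))
        + (∑ p ∈ antidiagonal r, (q ^ (p.2 + 1) - 1) * q ^ p.1 * Wf q x lo p.1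
          * Wf q x hi (c + 1 + p.2))
        + ∑ p ∈ antidiagonal r, (q ^ (c + 1 + p.2) - q ^ (r + 2 + p.2)) * ef x (c + 1 + p.2)
          * ef (y2 q x lo hi) p.1 := by
  have hylo : y2 q x lo hi lo = 0 := by simp [y2, g]
  have hyhi : y2 q x lo hi hi = 0 := by simp [y2, g]
  have hDlo : Df q (y2 q x lo hi) lo = 0 := by
    funext i
    cases i with
    | zero => rfl
    | succ i => simp [Df, hylo]
  have hDhi : Df q (y2 q x lo hi) hi = 0 := by
    funext i
    cases i with
    | zero => rfl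
    | succ i => simp [Df, hyhi]
  have key := three_range (N := N) q (Ph q x (q * q) r (c + 1) (y2 q x lo hi))
    (Ph q x q r (c + 1) (y2 q x lo hi)) (Ph q x 1 r (c + 1) (y2 q x lo hi)) lo hi hlh
    (fun a => g q a lo * g q a hi * Ef q x a (c + 1) * Mf q (y2 q x lo hi) a r)
    (by
      intro a ha
      have ha' := ha.trans hlh
      have hy : y2 q x lo hi a = q * q * x a := by
        simp [y2, g, ha.ne, ha, ha'.ne, ha']; ring
      rw [Ph_step q x hy]
      simp only [g, if_neg ha.ne, if_pos ha, if_neg ha'.ne, if_pos ha']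
      ring)
    (by simp [g])
    (by
      intro a ha ha'
      have hy : y2 q x lo hi a = q * x a := by
        simp [y2, g, ha.ne', ha.not_gt, ha'.ne, ha']
      rw [Ph_step q x hy]
      simp only [g, if_neg ha.ne', if_neg ha.not_gt, if_neg ha'.ne, if_pos ha']
      ring)
    (by simp [g])
    (by
      intro a ha
      have ha' := hlh.trans ha
      have hy : y2 q x lo hi a = 1 * x a := by
        simp [y2, g, ha.ne', ha.not_gt, ha'.ne', ha'.not_gt]
      rw [Ph_step q x hy]
      simp only [g, if_neg ha.ne', if_neg ha.not_gt, if_neg ha'.ne', if_neg ha'.not_gt]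
      ring)
  -- collapse at `lo`
  have hMlo0 : (fun i => q ^ i * Wf q x hi i) 0 = Mf q (y2 q x lo hi) lo 0 := by
    simp [Mf, ef_zero, Wf_zero]
  have hMlo : ∀ i, (fun i => q ^ i * Wf q x hi i) (i + 1)
      = Mf q (y2 q x lo hi) lo (i + 1) + q * q * x lo * Mf q (y2 q x lo hi) lo i := by
    intro i
    show q ^ (i + 1) * Wf q x hi (i + 1) = _
    rw [← ef_yk, ← ef_mul, Mf, ef_split (z' := fun s => g q lo s * y2 q x lo hi s) lo]
    · rw [yk, g_lo_hi q hlh]; ring
    · simp [g]
    · intro s hs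
      simp only [yk, y2]
      rcases lt_or_gt_of_ne hs with h | h
      · simp only [g, if_neg hs, if_neg (Ne.symm hs), if_neg h.not_gt, if_pos h]; ring
      · simp only [g, if_neg hs, if_neg (Ne.symm hs), if_pos h, if_neg h.not_gt]; ring
  have c1 := V_collapse q (l := q) (M := fun i => q ^ i * Wf q x hi i)
    (Qs := Mf q (y2 q x lo hi) lo) (isShift q x lo) hMlo0 hMlo r c
  -- collapse at `hi`
  have hMhi0 : (fun i => q ^ i * Wf q x lo i) 0 = Mf q (y2 q x lo hi) hi 0 := by
    simp [Mf, ef_zero, Wf_zero]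
  have hMhi : ∀ i, (fun i => q ^ i * Wf q x lo i) (i + 1)
      = Mf q (y2 q x lo hi) hi (i + 1) + q * 1 * x hi * Mf q (y2 q x lo hi) hi i := by
    intro i
    show q ^ (i + 1) * Wf q x lo (i + 1) = _
    rw [← ef_yk, ← ef_mul, Mf, ef_split (z' := fun s => g q hi s * y2 q x lo hi s) hi]
    · rw [yk, g_hi_lo q hlh]; ring
    · simp [g]
    · intro s hs
      simp only [yk, y2]
      rcases lt_or_gt_of_ne hs with h | h
      · simp only [g, if_neg hs, if_neg (Ne.symm hs), if_neg h.not_gt, if_pos h]; ring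
      · simp only [g, if_neg hs, if_neg (Ne.symm hs), if_pos h, if_neg h.not_gt]; ring
  have c2 := V_collapse q (l := 1) (M := fun i => q ^ i * Wf q x lo i)
    (Qs := Mf q (y2 q x lo hi) hi) (isShift q x hi) hMhi0 hMhi r c
  have p1 : Ph q x (q * q) r (c + 1) (y2 q x lo hi) lo.val
      = V (q * q) r (c + 1) (Mf q (y2 q x lo hi) lo) (Wf q x lo + Ef q x lo) := by
    rw [Ph, Qf_val, hDlo, smul_zero, add_zero, Pf_val]
  have p2 : Ph q x q r (c + 1) (y2 q x lo hi) (lo.val + 1)
      = V q r (c + 1) (Mf q (y2 q x lo hi) lo) (Wf q x lo + q • Ef q x lo) := by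
    rw [Ph, Qf_succ, hDlo, add_zero, Pf_succ]
  have p3 : Ph q x q r (c + 1) (y2 q x lo hi) hi.val
      = V q r (c + 1) (Mf q (y2 q x lo hi) hi) (Wf q x hi + Ef q x hi) := by
    rw [Ph, Qf_val, hDhi, smul_zero, add_zero, Pf_val]
  have p4 : Ph q x 1 r (c + 1) (y2 q x lo hi) (hi.val + 1)
      = V 1 r (c + 1) (Mf q (y2 q x lo hi) hi) (Wf q x hi + q • Ef q x hi) := by
    rw [Ph, Qf_succ, hDhi, add_zero, Pf_succ]
  have p5 : Ph q x (q * q) r (c + 1) (y2 q x lo hi) 0
      = V (q * q) r (c + 1) (fun i => q ^ i * ef (y2 q x lo hi) i) (ef x) := by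
    rw [Ph, Qf_zero, Pf_zero]
  have p6 : Ph q x 1 r (c + 1) (y2 q x lo hi) N
      = V 1 r (c + 1) (ef (y2 q x lo hi)) (eqf q x) := by
    rw [Ph, Qf_N, Pf_N]
  rw [p1, p2, p3, p4, p5, p6] at key
  have e1 : (∑ p ∈ antidiagonal r, (q ^ (p.2 + 1) - 1) * q ^ (r + 1) * Wf q x hi p.1
          * Wf q x lo (c + 1 + p.2))
      = (q - 1) * (q * ∑ p ∈ antidiagonal r, q ^ p.2 * qn q (p.2 + 1)
          * (fun i => q ^ i * Wf q x hi i) p.1 * Wf q x lo (c + 1 + p.2)) := by
    rw [Finset.mul_sum, Finset.mul_sum]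
    refine Finset.sum_congr rfl fun p hp => ?_
    rw [HasAntidiagonal.mem_antidiagonal] at hp
    rw [← qn_mul q (p.2 + 1), ← hp]
    ring
  have e2 : (∑ p ∈ antidiagonal r, (q ^ (p.2 + 1) - 1) * q ^ p.1 * Wf q x lo p.1
          * Wf q x hi (c + 1 + p.2))
      = (q - 1) * (1 * ∑ p ∈ antidiagonal r, 1 ^ p.2 * qn q (p.2 + 1)
          * (fun i => q ^ i * Wf q x lo i) p.1 * Wf q x hi (c + 1 + p.2)) := by
    rw [Finset.mul_sum, Finset.mul_sum]
    refine Finset.sum_congr rfl fun p _ => ?_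
    rw [← qn_mul q (p.2 + 1)]
    ring
  have e3 : (∑ p ∈ antidiagonal r, (q ^ (c + 1 + p.2) - q ^ (r + 2 + p.2))
          * ef x (c + 1 + p.2) * ef (y2 q x lo hi) p.1)
      = V 1 r (c + 1) (ef (y2 q x lo hi)) (eqf q x)
        - q ^ 2 * V (q * q) r (c + 1) (fun i => q ^ i * ef (y2 q x lo hi) i) (ef x) := by
    rw [V_apply, V_apply, Finset.mul_sum, ← Finset.sum_sub_distrib]
    refine Finset.sum_congr rfl fun p hp => ?_
    rw [HasAntidiagonal.mem_antidiagonal] at hp
    rw [one_pow, eqf, ← hp]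
    ring
  rw [e1, e2, e3, ← c1, ← c2]
  unfold Gs
  simp only [mul_one, one_mul] at key ⊢
  linear_combination key

/-- the product identity behind the rearrangement. -/
lemma star (S : ℕ) :
    ∑ p ∈ antidiagonal S, q ^ p.1 * (Wf q x lo p.1 * Wf q x hi p.2)
      = ∑ p ∈ antidiagonal S, q ^ p.1 * (ef x p.1 * ef (y2 q x lo hi) p.2) := by
  have h1 : (∏ s : Fin N, (1 + C (q * yk q x lo s) * X) : R[X])
        * ∏ s : Fin N, (1 + C (yk q x hi s) * X)
      = (∏ s : Fin N, (1 + C (q * x s) * X))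
        * ∏ s : Fin N, (1 + C (y2 q x lo hi s) * X) := by
    rw [← Finset.prod_mul_distrib, ← Finset.prod_mul_distrib]
    refine Finset.prod_congr rfl fun s _ => ?_
    rcases lt_trichotomy s lo with h | h | h
    · have h' := h.trans hlh
      simp only [yk, y2, g, if_neg h.ne, if_pos h, if_neg h'.ne, if_pos h']
      ring
    · subst h
      simp only [yk, y2, g, if_true, if_neg hlh.ne, if_pos hlh]
      simp
    · rcases lt_trichotomy s hi with h' | h' | h'
      · simp only [yk, y2, g, if_neg h.ne', if_neg h.not_gt, if_neg h'.ne, if_pos h', one_mul]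
      · subst h'
        simp only [yk, y2, g, if_true, if_neg hlh.ne', if_neg hlh.not_gt]
        simp
      · have h'' := hlh.trans h'
        simp only [yk, y2, g, if_neg h''.ne', if_neg h''.not_gt, if_neg h'.ne', if_neg h'.not_gt,
          one_mul]
  have h2 := congrArg (fun P => P.coeff S) h1
  simp only [coeff_mul] at h2
  have h3 : ∀ i, (∏ s : Fin N, (1 + C (q * yk q x lo s) * X) : R[X]).coeff i
      = q ^ i * Wf q x lo i := by
    intro i
    rw [← ef_yk, ← ef_mul]
    rfl
  have h4 : ∀ i, (∏ s : Fin N, (1 + C (yk q x hi s) * X) : R[X]).coeff i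
      = Wf q x hi i := by
    intro i
    rw [← ef_yk]
    rfl
  have h5 : ∀ i, (∏ s : Fin N, (1 + C (q * x s) * X) : R[X]).coeff i = q ^ i * ef x i := by
    intro i
    rw [← ef_mul]
    rfl
  have h6 : ∀ i, (∏ s : Fin N, (1 + C (y2 q x lo hi s) * X) : R[X]).coeff i
      = ef (y2 q x lo hi) i := fun i => rfl
  simp only [h3, h4, h5, h6, mul_assoc] at h2
  exact h2

end LoHi

end Run7.h247
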