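import Pool.Agent.Run7.h247.Gop

/-!
# Positive form of the clique operator with two last vertices
-/

set_option autoImplicit false

namespace Run7.h247

open Finset Polynomial

variable {R : Type*} [CommRing R] (q : R)

/-- pure rearrangement. -/
lemma rearr (u v a : ℕ → R) (c t : ℕ)
    (hv : ∀ k, k ≤ 2 * c + 1 + t → v k = u (2 * c + 1 + t - k))
    (hstar : ∑ i ∈ range (2 * c + 2 + t), q ^ i * u i
      = ∑ i ∈ range (2 * c + 2 + t), q ^ i * a i) :
    (∑ i ∈ range (c + t + 1), (q ^ (c + t + 1 - i) - 1) * (q ^ i * u i + q ^ (c + t + 1) * v i))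
      + ∑ j ∈ range (c + t + 1), (q ^ (c + 1 + j) - q ^ (c + t + 2 + j)) * a (c + 1 + j)
    = q ^ (t + 1) * (∑ i ∈ range c, (q ^ (c - i) - 1) * (q ^ i * u i + q ^ c * v i))
      + (q ^ (t + 1) - 1) * ∑ i ∈ range (c + 1), q ^ i * a i := by
  -- star split
  have s1 : ∑ i ∈ range (2 * c + 2 + t), q ^ i * u i
      = (∑ i ∈ range (c + 1), q ^ i * u i)
        + (∑ j ∈ range t, q ^ (c + 1 + j) * u (c + 1 + j))
        + ∑ k ∈ range (c + 1), q ^ (2 * c + 1 + t - k) * v k := by
    rw [show 2 * c + 2 + t = (c + 1) + t + (c + 1) by omega, Finset.sum_range_add,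
      Finset.sum_range_add]
    congr 1
    rw [← Finset.sum_range_reflect (fun j => q ^ (c + 1 + t + j) * u (c + 1 + t + j))]
    refine Finset.sum_congr rfl fun k hk => ?_
    rw [mem_range] at hk
    rw [hv k (by omega)]
    simp only [show c + 1 + t + (c + 1 - 1 - k) = 2 * c + 1 + t - k by omega]
  have s2 : ∑ i ∈ range (2 * c + 2 + t), q ^ i * a i
      = (∑ i ∈ range (c + 1), q ^ i * a i)
        + ∑ j ∈ range (c + t + 1), q ^ (c + 1 + j) * a (c + 1 + j) := by
    rw [show 2 * c + 2 + t = (c + 1) + (c + t + 1) by omega, Finset.sum_range_add]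
  rw [s1, s2] at hstar
  have s3 : ∑ j ∈ range (c + t + 1), (q ^ (c + 1 + j) - q ^ (c + t + 2 + j)) * a (c + 1 + j)
      = (1 - q ^ (t + 1)) * ∑ j ∈ range (c + t + 1), q ^ (c + 1 + j) * a (c + 1 + j) := by
    rw [Finset.mul_sum]
    refine Finset.sum_congr rfl fun j _ => ?_
    ring
  have s4 : (∑ i ∈ range (c + t + 1),
        (q ^ (c + t + 1 - i) - 1) * (q ^ i * u i + q ^ (c + t + 1) * v i))
      = (∑ i ∈ range (c + 1), (q ^ (c + t + 1 - i) - 1) * (q ^ i * u i))
        + (∑ i ∈ range (c + 1), (q ^ (c + t + 1 - i) - 1) * (q ^ (c + t + 1) * v i))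
        + (∑ j ∈ range t, (q ^ (t - j) - 1) * (q ^ (c + 1 + j) * u (c + 1 + j)))
        + ∑ j ∈ range t, (q ^ (j + 1) - 1) * (q ^ (c + t + 1) * u (c + 1 + j)) := by
    have e : ∀ f : ℕ → R, ∑ i ∈ range (c + t + 1), f i
        = (∑ i ∈ range (c + 1), f i) + ∑ j ∈ range t, f (c + 1 + j) := by
      intro f
      rw [show c + t + 1 = (c + 1) + t by omega, Finset.sum_range_add]
    have e1 : (∑ i ∈ range (c + 1),
          (q ^ (c + t + 1 - i) - 1) * (q ^ i * u i + q ^ (c + t + 1) * v i))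
        = (∑ i ∈ range (c + 1), (q ^ (c + t + 1 - i) - 1) * (q ^ i * u i))
          + ∑ i ∈ range (c + 1), (q ^ (c + t + 1 - i) - 1) * (q ^ (c + t + 1) * v i) := by
      rw [← Finset.sum_add_distrib]
      refine Finset.sum_congr rfl fun i _ => ?_
      ring
    have e2 : (∑ j ∈ range t, (q ^ (c + t + 1 - (c + 1 + j)) - 1)
          * (q ^ (c + 1 + j) * u (c + 1 + j) + q ^ (c + t + 1) * v (c + 1 + j)))
        = (∑ j ∈ range t, (q ^ (t - j) - 1) * (q ^ (c + 1 + j) * u (c + 1 + j)))
          + ∑ j ∈ range t, (q ^ (j + 1) - 1) * (q ^ (c + t + 1) * u (c + 1 + j)) := by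
      rw [← Finset.sum_range_reflect (fun j => (q ^ (j + 1) - 1)
        * (q ^ (c + t + 1) * u (c + 1 + j))), ← Finset.sum_add_distrib]
      refine Finset.sum_congr rfl fun j hj => ?_
      rw [mem_range] at hj
      rw [hv (c + 1 + j) (by omega), show c + t + 1 - (c + 1 + j) = t - j by omega,
        show 2 * c + 1 + t - (c + 1 + j) = c + 1 + (t - 1 - j) by omega,
        show t - 1 - j + 1 = t - j by omega]
      ring
    rw [e, e1, e2]
    ring
  have s5 : (∑ j ∈ range t, (q ^ (t - j) - 1) * (q ^ (c + 1 + j) * u (c + 1 + j)))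
        + (∑ j ∈ range t, (q ^ (j + 1) - 1) * (q ^ (c + t + 1) * u (c + 1 + j)))
        + (1 - q ^ (t + 1)) * (∑ j ∈ range t, q ^ (c + 1 + j) * u (c + 1 + j)) = 0 := by
    rw [Finset.mul_sum, ← Finset.sum_add_distrib, ← Finset.sum_add_distrib]
    refine Finset.sum_eq_zero fun j hj => ?_
    rw [mem_range] at hj
    have : q ^ (t - j) * q ^ (c + 1 + j) = q ^ (c + t + 1) := by
      rw [← pow_add]; congr 1; omega
    linear_combination (u (c + 1 + j)) * this
  have s6 : (∑ i ∈ range (c + 1), (q ^ (c + t + 1 - i) - 1) * (q ^ i * u i))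
        + (1 - q ^ (t + 1)) * (∑ i ∈ range (c + 1), q ^ i * u i)
      = q ^ (t + 1) * ∑ i ∈ range c, (q ^ (c - i) - 1) * (q ^ i * u i) := by
    have : ∑ i ∈ range c, (q ^ (c - i) - 1) * (q ^ i * u i)
        = ∑ i ∈ range (c + 1), (q ^ (c - i) - 1) * (q ^ i * u i) := by
      rw [Finset.sum_range_succ]; simp
    rw [this, Finset.mul_sum, Finset.mul_sum, ← Finset.sum_add_distrib]
    refine Finset.sum_congr rfl fun i hi => ?_
    rw [mem_range] at hi
    have : q ^ (c + t + 1 - i) = q ^ (t + 1) * q ^ (c - i) := by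
      rw [← pow_add]; congr 1; omega
    rw [this]
    ring
  have s7 : (∑ i ∈ range (c + 1), (q ^ (c + t + 1 - i) - 1) * (q ^ (c + t + 1) * v i))
        + (1 - q ^ (t + 1)) * (∑ k ∈ range (c + 1), q ^ (2 * c + 1 + t - k) * v k)
      = q ^ (t + 1) * ∑ i ∈ range c, (q ^ (c - i) - 1) * (q ^ c * v i) := by
    have : ∑ i ∈ range c, (q ^ (c - i) - 1) * (q ^ c * v i)
        = ∑ i ∈ range (c + 1), (q ^ (c - i) - 1) * (q ^ c * v i) := by
      rw [Finset.sum_range_succ]; simp
    rw [this, Finset.mul_sum, Finset.mul_sum, ← Finset.sum_add_distrib]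
    refine Finset.sum_congr rfl fun i hi => ?_
    rw [mem_range] at hi
    have h1 : q ^ (c + t + 1 - i) = q ^ (t + 1) * q ^ (c - i) := by
      rw [← pow_add]; congr 1; omega
    have h2 : q ^ (2 * c + 1 + t - i) = q ^ (c + t + 1) * q ^ (c - i) := by
      rw [← pow_add]; congr 1; omega
    rw [h1, h2]
    ring
  have s8 : (∑ i ∈ range c, (q ^ (c - i) - 1) * (q ^ i * u i + q ^ c * v i))
      = (∑ i ∈ range c, (q ^ (c - i) - 1) * (q ^ i * u i))
        + ∑ i ∈ range c, (q ^ (c - i) - 1) * (q ^ c * v i) := by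
    rw [← Finset.sum_add_distrib]
    refine Finset.sum_congr rfl fun i _ => ?_
    ring
  rw [s3, s4, s8]
  linear_combination s5 + s6 + s7 - (1 - q ^ (t + 1)) * hstar

lemma qn_succ' (m : ℕ) : qn q (m + 1) = 1 + q * qn q m := by
  unfold qn
  rw [Finset.sum_range_succ', Finset.mul_sum, pow_zero, add_comm]
  congr 1
  refine Finset.sum_congr rfl fun i _ => ?_
  rw [pow_succ']

lemma qn_succ (m : ℕ) : qn q (m + 1) = qn q m + q ^ m := by
  unfold qn
  rw [Finset.sum_range_succ]

/-- the symmetric core of the first family. -/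
def bc (u v : ℕ → R) (a : ℕ) : R :=
  ∑ i ∈ range (a + 1), (q ^ i * u i + q ^ (a + 1) * (q ^ (a - i) * v i))

lemma bc_sum (u v : ℕ → R) (A : ℕ) :
    ∑ a ∈ range A, q ^ (A - 1 - a) * bc q u v a
      = ∑ i ∈ range A, qn q (A - i) * (q ^ i * u i + q ^ A * v i) := by
  induction A with
  | zero => simp
  | succ A ih =>
    have h1 : ∑ a ∈ range (A + 1), q ^ (A + 1 - 1 - a) * bc q u v a
        = q * (∑ a ∈ range A, q ^ (A - 1 - a) * bc q u v a) + bc q u v A := by
      rw [Finset.sum_range_succ, Finset.mul_sum]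
      congr 1
      · refine Finset.sum_congr rfl fun a ha => ?_
        rw [mem_range] at ha
        rw [show A + 1 - 1 - a = (A - 1 - a) + 1 by omega]
        ring
      · simp
    have h2 : q * (∑ i ∈ range A, qn q (A - i) * (q ^ i * u i + q ^ A * v i))
        = q * ∑ i ∈ range (A + 1), qn q (A - i) * (q ^ i * u i + q ^ A * v i) := by
      rw [Finset.sum_range_succ]
      simp [qn]
    rw [h1, ih, h2, bc, Finset.mul_sum, ← Finset.sum_add_distrib]
    refine Finset.sum_congr rfl fun i hi => ?_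
    rw [mem_range] at hi
    have h3 : qn q (A + 1 - i) = 1 + q * qn q (A - i) := by
      rw [show A + 1 - i = (A - i) + 1 by omega, qn_succ']
    have h4 : qn q (A + 1 - i) = qn q (A - i) + q ^ (A - i) := by
      rw [show A + 1 - i = (A - i) + 1 by omega, qn_succ]
    linear_combination (-(q ^ i * u i)) * h3 - (q ^ (A + 1) * v i) * h4

variable {N : ℕ} (x : Fin N → R)

section LoHi

variable {lo hi : Fin N} (hlh : lo < hi)

include hlh

lemma bh_lo_hi (a d : ℕ) : bh q x a d lo hi = q * (x lo * x hi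
    * bc q (fun i => Wf q x lo i * Wf q x hi (2 * a + 2 + d - i))
        (fun i => Wf q x hi i * Wf q x lo (2 * a + 2 + d - i)) a) := by
  have hE : ∀ (k : Fin N) i, Ef q x k (i + 1) = x k * Wf q x k i := fun k i => rfl
  rw [bh, if_neg hlh.ne, if_pos hlh, U_apply, V_apply, bc, Finset.sum_add_distrib,
    sum_anti a (fun i j => q ^ i * Wf q x lo i * Ef q x hi (a + 3 + d + j)),
    sum_anti a (fun i j => q ^ j * Wf q x hi i * Ef q x lo (a + 3 + d + j)), mul_add, mul_add]
  congr 1
  · rw [Finset.mul_sum, Finset.mul_sum, Finset.mul_sum]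
    refine Finset.sum_congr rfl fun i hi => ?_
    rw [mem_range] at hi
    rw [show a + 3 + d + (a - i) = (2 * a + 2 + d - i) + 1 by omega, hE]
    ring
  · rw [Finset.mul_sum, Finset.mul_sum, Finset.mul_sum]
    refine Finset.sum_congr rfl fun i hi => ?_
    rw [mem_range] at hi
    rw [show a + 3 + d + (a - i) = (2 * a + 2 + d - i) + 1 by omega, hE]
    ring

lemma bh_hi_lo (a d : ℕ) : bh q x a d hi lo = x lo * x hi
    * bc q (fun i => Wf q x lo i * Wf q x hi (2 * a + 2 + d - i))
        (fun i => Wf q x hi i * Wf q x lo (2 * a + 2 + d - i)) a := by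
  have hE : ∀ (k : Fin N) i, Ef q x k (i + 1) = x k * Wf q x k i := fun k i => rfl
  rw [bh, if_neg hlh.ne', if_neg hlh.not_gt, U_apply, V_apply, bc, Finset.sum_add_distrib,
    sum_anti a (fun i j => q ^ i * Wf q x lo i * Ef q x hi (a + 3 + d + j)),
    sum_anti a (fun i j => q ^ j * Wf q x hi i * Ef q x lo (a + 3 + d + j)), mul_add]
  congr 1
  · rw [Finset.mul_sum, Finset.mul_sum]
    refine Finset.sum_congr rfl fun i hi => ?_
    rw [mem_range] at hi
    rw [show a + 3 + d + (a - i) = (2 * a + 2 + d - i) + 1 by omega, hE]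
    ring
  · rw [Finset.mul_sum, Finset.mul_sum]
    refine Finset.sum_congr rfl fun i hi => ?_
    rw [mem_range] at hi
    rw [show a + 3 + d + (a - i) = (2 * a + 2 + d - i) + 1 by omega, hE]
    ring

lemma Gs_bc (r c : ℕ) :
    (q - 1) * Gs q x r (fun a => Ef q x a (c + 1)) lo hi
      = (∑ i ∈ range (r + 1), (q ^ (r + 1 - i) - 1)
          * (q ^ i * (Wf q x lo i * Wf q x hi (c + 1 + r - i))
            + q ^ (r + 1) * (Wf q x hi i * Wf q x lo (c + 1 + r - i))))
        + ∑ j ∈ range (r + 1), (q ^ (c + 1 + j) - q ^ (r + 2 + j)) * (ef x (c + 1 + j)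
          * ef (y2 q x lo hi) (c + 1 + r - (c + 1 + j))) := by
  rw [Gs_raw q x hlh,
    sum_anti r (fun i j => (q ^ (j + 1) - 1) * q ^ (r + 1) * Wf q x hi i
          * Wf q x lo (c + 1 + j)),
    sum_anti r (fun i j => (q ^ (j + 1) - 1) * q ^ i * Wf q x lo i
          * Wf q x hi (c + 1 + j)),
    sum_anti' r (fun i j => (q ^ (c + 1 + j) - q ^ (r + 2 + j)) * ef x (c + 1 + j)
          * ef (y2 q x lo hi) i), ← Finset.sum_add_distrib]
  congr 1
  · refine Finset.sum_congr rfl fun i hi => ?_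
    rw [mem_range] at hi
    rw [show r - i + 1 = r + 1 - i by omega, show c + 1 + (r - i) = c + 1 + r - i by omega]
    ring
  · refine Finset.sum_congr rfl fun j hj => ?_
    rw [mem_range] at hj
    rw [show c + 1 + r - (c + 1 + j) = r - j by omega]
    ring

end LoHi

section Dom

variable [IsDomain R] {q}

/-- positive form, large incoming index. -/
lemma Gs_large (hq1 : q - 1 ≠ 0) {lo hi : Fin N} (hlh : lo < hi) (r c : ℕ) (h : r + 1 ≤ c) :
    Gs q x r (fun a => Ef q x a (c + 1)) lo hi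
      = (∑ a ∈ range (r + 1), q ^ (r - a)
          * bc q (fun i => Wf q x lo i * Wf q x hi (c + 1 + r - i))
            (fun i => Wf q x hi i * Wf q x lo (c + 1 + r - i)) a)
        + ∑ j ∈ range (r + 1), q ^ (r + 2 + j) * qn q (c - (r + 1)) * ef x (c + 1 + j)
          * ef (y2 q x lo hi) (r - j) := by
  refine mul_left_cancel₀ hq1 ?_
  have h1 := bc_sum q (fun i => Wf q x lo i * Wf q x hi (c + 1 + r - i))
            (fun i => Wf q x hi i * Wf q x lo (c + 1 + r - i)) (r + 1)
  simp only [Nat.add_sub_cancel] at h1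
  rw [Gs_bc q x hlh, h1, mul_add, Finset.mul_sum, Finset.mul_sum]
  congr 1
  · refine Finset.sum_congr rfl fun i _ => ?_
    rw [← qn_mul]
    ring
  · refine Finset.sum_congr rfl fun j hj => ?_
    rw [mem_range] at hj
    rw [show c + 1 + r - (c + 1 + j) = r - j by omega, pow_sub_pow _ _ (by omega),
      show c + 1 + j - (r + 2 + j) = c - (r + 1) by omega]
    ring

/-- positive form, small incoming index. -/
lemma Gs_small (hq1 : q - 1 ≠ 0) {lo hi : Fin N} (hlh : lo < hi) (t c : ℕ) :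
    Gs q x (c + t) (fun a => Ef q x a (c + 1)) lo hi
      = q ^ (t + 1) * (∑ a ∈ range c, q ^ (c - 1 - a)
          * bc q (fun i => Wf q x lo i * Wf q x hi (2 * c + 1 + t - i))
            (fun i => Wf q x hi i * Wf q x lo (2 * c + 1 + t - i)) a)
        + ∑ i ∈ range (c + 1), q ^ i * qn q (t + 1) * ef x i
          * ef (y2 q x lo hi) (2 * c + 1 + t - i) := by
  refine mul_left_cancel₀ hq1 ?_
  have h1 := bc_sum q (fun i => Wf q x lo i * Wf q x hi (2 * c + 1 + t - i))
            (fun i => Wf q x hi i * Wf q x lo (2 * c + 1 + t - i)) c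
  have h2 := rearr q (fun i => Wf q x lo i * Wf q x hi (2 * c + 1 + t - i))
    (fun i => Wf q x hi i * Wf q x lo (2 * c + 1 + t - i))
    (fun i => ef x i * ef (y2 q x lo hi) (2 * c + 1 + t - i)) c t
    (by
      intro k hk
      show Wf q x hi k * Wf q x lo (2 * c + 1 + t - k)
        = Wf q x lo (2 * c + 1 + t - k) * Wf q x hi (2 * c + 1 + t - (2 * c + 1 + t - k))
      rw [show 2 * c + 1 + t - (2 * c + 1 + t - k) = k by omega]
      ring)
    (by
      have h3 := star q x hlh (2 * c + 1 + t)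
      rw [sum_anti (2 * c + 1 + t) (fun i j => q ^ i * (Wf q x lo i * Wf q x hi j)),
        sum_anti (2 * c + 1 + t) (fun i j => q ^ i * (ef x i * ef (y2 q x lo hi) j))] at h3
      rw [show 2 * c + 2 + t = 2 * c + 1 + t + 1 by omega]
      exact h3)
  rw [Gs_bc q x hlh, h1]
  rw [show c + 1 + (c + t) = 2 * c + 1 + t by omega]
  rw [h2, mul_add]
  congr 1
  · rw [mul_left_comm, Finset.mul_sum (range c) _ (q - 1)]
    congr 1
    refine Finset.sum_congr rfl fun i _ => ?_
    rw [← qn_mul]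
    ring
  · rw [Finset.mul_sum, Finset.mul_sum]
    refine Finset.sum_congr rfl fun i _ => ?_
    rw [← qn_mul]
    ring

end Dom

end Run7.h247
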