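import Pool.Agent.Run7.h247.Seq

/-!
# Transfer operators and the two positive families in the two-vertex space
-/

set_option autoImplicit false

namespace Run7.h247

open Finset Polynomial

variable {R : Type*} [CommRing R] (q : R) {N : ℕ} (x : Fin N → R)

/-- weight of an edge from an older vertex of colour `a` to a newer vertex of colour `b`. -/
def g (a b : Fin N) : R := if a = b then 0 else if a < b then q else 1

/-- forget the older of two active vertices. -/
def dm (F : Fin N → Fin N → R) : Fin N → R := fun b => ∑ a, F a b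

/-- add a new vertex adjacent to the active one. -/
def dp (Z : Fin N → R) : Fin N → Fin N → R := fun a b => Z a * (x b * g q a b)

/-- add a new vertex adjacent to both active ones, then forget the oldest. -/
def T (F : Fin N → Fin N → R) : Fin N → Fin N → R :=
  fun b c => x c * g q b c * ∑ a, g q a c * F a b

/-- `q`-integers. -/
def qn (m : ℕ) : R := ∑ i ∈ range m, q ^ i

lemma qn_mul (m : ℕ) : (q - 1) * qn q m = q ^ m - 1 := mul_geom_sum q m

lemma mulE (L : (ℕ → R) →ₗ[R] R) (a : Fin N) :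
    (q - 1) * L (Ef q x a) = L (Pf q x (a.val + 1)) - L (Pf q x a.val) := by
  rw [Pf_val, Pf_succ]
  simp only [map_add, map_smul, smul_eq_mul]
  ring

section General

variable {q x}
variable {k2 : Fin N} {L G : (ℕ → R) →ₗ[R] R} {F : Fin N → R}

lemma sum_one (hF : ∀ a, F a = if a = k2 then 0 else if a < k2 then L (Ef q x a)
      else G (Ef q x a)) :
    (q - 1) * ∑ a, F a = (L (Pf q x k2.val) - L (Pf q x 0))
      + (G (Pf q x N) - G (Pf q x (k2.val + 1))) := by
  have h1 := tele (fun i => L (Pf q x i)) 0 k2.val (Nat.zero_le _) k2.isLt.le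
  have h2 := tele (fun i => G (Pf q x i)) (k2.val + 1) N k2.isLt le_rfl
  rw [← h1, ← h2, Finset.mul_sum, ← Finset.sum_add_distrib]
  refine Finset.sum_congr rfl fun a _ => ?_
  rw [hF, ← mulE, ← mulE]
  have ha := a.isLt
  simp only [Fin.ext_iff, Fin.lt_def]
  split_ifs <;> first | (exfalso; omega) | ring

lemma sum_lt (hF : ∀ a, F a = if a = k2 then 0 else if a < k2 then L (Ef q x a)
      else G (Ef q x a)) {k3 : Fin N} (h23 : k2 < k3) :
    (q - 1) * ∑ a, g q a k3 * F a = q * (L (Pf q x k2.val) - L (Pf q x 0))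
      + q * (G (Pf q x k3.val) - G (Pf q x (k2.val + 1)))
      + (G (Pf q x N) - G (Pf q x (k3.val + 1))) := by
  have h23' := h23
  rw [Fin.lt_def] at h23'
  have h1 := tele (fun i => L (Pf q x i)) 0 k2.val (Nat.zero_le _) k2.isLt.le
  have h2 := tele (fun i => G (Pf q x i)) (k2.val + 1) k3.val h23' k3.isLt.le
  have h3 := tele (fun i => G (Pf q x i)) (k3.val + 1) N k3.isLt le_rfl
  rw [← h1, ← h2, ← h3, Finset.mul_sum, Finset.mul_sum, Finset.mul_sum,
    ← Finset.sum_add_distrib, ← Finset.sum_add_distrib]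
  refine Finset.sum_congr rfl fun a _ => ?_
  rw [hF, ← mulE, ← mulE, g]
  have ha := a.isLt
  simp only [Fin.ext_iff, Fin.lt_def]
  split_ifs <;> first | (exfalso; omega) | ring

lemma sum_gt (hF : ∀ a, F a = if a = k2 then 0 else if a < k2 then L (Ef q x a)
      else G (Ef q x a)) {k3 : Fin N} (h32 : k3 < k2) :
    (q - 1) * ∑ a, g q a k3 * F a = q * (L (Pf q x k3.val) - L (Pf q x 0))
      + (L (Pf q x k2.val) - L (Pf q x (k3.val + 1)))
      + (G (Pf q x N) - G (Pf q x (k2.val + 1))) := by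
  have h32' := h32
  rw [Fin.lt_def] at h32'
  have h1 := tele (fun i => L (Pf q x i)) 0 k3.val (Nat.zero_le _) k3.isLt.le
  have h2 := tele (fun i => L (Pf q x i)) (k3.val + 1) k2.val h32' k2.isLt.le
  have h3 := tele (fun i => G (Pf q x i)) (k2.val + 1) N k2.isLt le_rfl
  rw [← h1, ← h2, ← h3, Finset.mul_sum, Finset.mul_sum,
    ← Finset.sum_add_distrib, ← Finset.sum_add_distrib]
  refine Finset.sum_congr rfl fun a _ => ?_
  rw [hF, ← mulE, ← mulE, g]
  have ha := a.isLt
  simp only [Fin.ext_iff, Fin.lt_def]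
  split_ifs <;> first | (exfalso; omega) | ring

/-- closed form of `dm` for a two-sided family satisfying the matching condition. -/
lemma sum_one' (hF : ∀ a, F a = if a = k2 then 0 else if a < k2 then L (Ef q x a)
      else G (Ef q x a))
    (hc : L (Wf q x k2 + Ef q x k2) = G (Wf q x k2 + q • Ef q x k2)) :
    (q - 1) * ∑ a, F a = G (eqf q x) - L (ef x) := by
  rw [sum_one hF, Pf_val, Pf_succ, Pf_zero, Pf_N, hc]
  ring

lemma sum_lt' (hF : ∀ a, F a = if a = k2 then 0 else if a < k2 then L (Ef q x a)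
      else G (Ef q x a))
    (hc : L (Wf q x k2 + Ef q x k2) = G (Wf q x k2 + q • Ef q x k2))
    {k3 : Fin N} (h23 : k2 < k3) :
    (q - 1) * ∑ a, g q a k3 * F a
      = (q - 1) * G (Wf q x k3) + (G (eqf q x) - q * L (ef x)) := by
  rw [sum_lt hF h23, Pf_val, Pf_succ, Pf_zero, Pf_N, hc, Pf_val, Pf_succ]
  simp only [map_add, map_smul, smul_eq_mul]
  ring

lemma sum_gt' (hF : ∀ a, F a = if a = k2 then 0 else if a < k2 then L (Ef q x a)
      else G (Ef q x a))
    (hc : L (Wf q x k2 + Ef q x k2) = G (Wf q x k2 + q • Ef q x k2))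
    {k3 : Fin N} (h32 : k3 < k2) :
    (q - 1) * ∑ a, g q a k3 * F a
      = (q - 1) * L (Wf q x k3) + (G (eqf q x) - q * L (ef x)) := by
  rw [sum_gt hF h32, Pf_val, Pf_succ, Pf_zero, Pf_N, Pf_val, hc, Pf_succ]
  simp only [map_add, map_smul, smul_eq_mul]
  ring

end General

/-! ### first family -/

/-- lower form of the first family. -/
noncomputable def L1 (A b : ℕ) (k : Fin N) : (ℕ → R) →ₗ[R] R :=
  q • ((U q A b).flip (Ef q x k) + q ^ (A + 1) • V q A b (Ef q x k))

/-- upper form of the first family. -/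
noncomputable def G1 (A b : ℕ) (k : Fin N) : (ℕ → R) →ₗ[R] R :=
  U q A b (Ef q x k) + q ^ (A + 1) • (V q A b).flip (Ef q x k)

lemma L1_apply (A b : ℕ) (k : Fin N) (f : ℕ → R) :
    L1 q x A b k f = q * (U q A b f (Ef q x k) + q ^ (A + 1) * V q A b (Ef q x k) f) := rfl

lemma G1_apply (A b : ℕ) (k : Fin N) (f : ℕ → R) :
    G1 q x A b k f = U q A b (Ef q x k) f + q ^ (A + 1) * V q A b f (Ef q x k) := rfl

lemma crit1 (A b : ℕ) (k : Fin N) :
    L1 q x A (b + 1) k (Wf q x k + Ef q x k) = G1 q x A (b + 1) k (Wf q x k + q • Ef q x k) := by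
  have h1 := U_key (q := q) (isShift q x k) A b
  have h2 := V_key (q := q) (isShift q x k) A b
  rw [L1_apply, G1_apply]
  simp only [map_add, map_smul, smul_eq_mul, LinearMap.add_apply, LinearMap.smul_apply]
  linear_combination h1 - q ^ (A + 1) * h2

/-- first family (scaled). -/
noncomputable def bt (A b : ℕ) : Fin N → Fin N → R := fun a k =>
  if a = k then 0 else if a < k then L1 q x A b k (Ef q x a) else G1 q x A b k (Ef q x a)

/-! ### second family -/

/-- lower form of the second family. -/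
noncomputable def L2 (B a : ℕ) (k : Fin N) : (ℕ → R) →ₗ[R] R :=
  q • (U q B (a + 1)).flip (Ef q x k) + q ^ (B + 2) • V q (B + 1) a (Ef q x k)

/-- upper form of the second family. -/
noncomputable def G2 (B a : ℕ) (k : Fin N) : (ℕ → R) →ₗ[R] R :=
  U q (B + 1) a (Ef q x k) + q ^ (B + 2) • (V q B (a + 1)).flip (Ef q x k)

lemma L2_apply (B a : ℕ) (k : Fin N) (f : ℕ → R) :
    L2 q x B a k f = q * U q B (a + 1) f (Ef q x k)
      + q ^ (B + 2) * V q (B + 1) a (Ef q x k) f := rfl

lemma G2_apply (B a : ℕ) (k : Fin N) (f : ℕ → R) :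
    G2 q x B a k f = U q (B + 1) a (Ef q x k) f
      + q ^ (B + 2) * V q B (a + 1) f (Ef q x k) := rfl

lemma crit2 (B a : ℕ) (k : Fin N) :
    L2 q x B a k (Wf q x k + Ef q x k) = G2 q x B a k (Wf q x k + q • Ef q x k) := by
  have h1 := U_key (q := q) (isShift q x k) B a
  have h2 := V_key (q := q) (isShift q x k) B a
  have h3 : Ef q x k (B + 1) = x k * Wf q x k B := rfl
  rw [L2_apply, G2_apply]
  simp only [map_add, map_smul, smul_eq_mul, LinearMap.add_apply, LinearMap.smul_apply,
    U_succ, V_succ]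
  linear_combination h1 - q ^ (B + 2) * h2 + (q ^ (B + 2) - q ^ (B + 1)) * Wf q x k a * h3

/-- second family (scaled). -/
noncomputable def bt' (B a : ℕ) : Fin N → Fin N → R := fun a' k =>
  if a' = k then 0 else if a' < k then L2 q x B a k (Ef q x a') else G2 q x B a k (Ef q x a')

lemma T_bt (A b : ℕ) (k2 k3 : Fin N) :
    (q - 1) * T q x (bt q x A (b + 1)) k2 k3
      = (q - 1) * bt' q x A (b + 1) k2 k3
        + x k3 * g q k2 k3 * (G1 q x A (b + 1) k2 (eqf q x) - q * L1 q x A (b + 1) k2 (ef x)) := by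
  have hF : ∀ a, (fun a => bt q x A (b + 1) a k2) a = if a = k2 then 0 else if a < k2 then
      L1 q x A (b + 1) k2 (Ef q x a) else G1 q x A (b + 1) k2 (Ef q x a) := fun a => rfl
  unfold T
  rcases lt_trichotomy k2 k3 with h | h | h
  · have h1 := sum_lt' hF (crit1 q x A b k2) h
    have h2 : x k3 * G1 q x A (b + 1) k2 (Wf q x k3) * q = bt' q x A (b + 1) k2 k3 := by
      rw [bt', if_neg h.ne, if_pos h, G1_apply, L2_apply,
        U_shift_right (isShift q x k3), V_shift_left (isShift q x k3)]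
      ring
    rw [← h2, g, if_neg h.ne, if_pos h]
    linear_combination x k3 * q * h1
  · subst h
    simp [g, bt']
  · have h1 := sum_gt' hF (crit1 q x A b k2) h
    have h2 : x k3 * L1 q x A (b + 1) k2 (Wf q x k3) = bt' q x A (b + 1) k2 k3 := by
      rw [bt', if_neg h.ne', if_neg h.not_gt, L1_apply, G2_apply,
        U_shift_left (isShift q x k3), V_shift_right (isShift q x k3)]
      ring
    rw [← h2, g, if_neg h.ne', if_neg h.not_gt]
    linear_combination x k3 * h1

lemma T_bt' (B a : ℕ) (k2 k3 : Fin N) :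
    (q - 1) * T q x (bt' q x B a) k2 k3
      = (q - 1) * bt q x (B + 1) (a + 1) k2 k3
        + x k3 * g q k2 k3 * (G2 q x B a k2 (eqf q x) - q * L2 q x B a k2 (ef x)) := by
  have hF : ∀ a', (fun a' => bt' q x B a a' k2) a' = if a' = k2 then 0 else if a' < k2 then
      L2 q x B a k2 (Ef q x a') else G2 q x B a k2 (Ef q x a') := fun a => rfl
  unfold T
  rcases lt_trichotomy k2 k3 with h | h | h
  · have h1 := sum_lt' hF (crit2 q x B a k2) h
    have h2 : x k3 * G2 q x B a k2 (Wf q x k3) * q = bt q x (B + 1) (a + 1) k2 k3 := by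
      rw [bt, if_neg h.ne, if_pos h, G2_apply, L1_apply,
        U_shift_right (isShift q x k3), V_shift_left (isShift q x k3)]
      ring
    rw [← h2, g, if_neg h.ne, if_pos h]
    linear_combination x k3 * q * h1
  · subst h
    simp [g, bt]
  · have h1 := sum_gt' hF (crit2 q x B a k2) h
    have h2 : x k3 * L2 q x B a k2 (Wf q x k3) = bt q x (B + 1) (a + 1) k2 k3 := by
      rw [bt, if_neg h.ne', if_neg h.not_gt, L2_apply, G1_apply,
        U_shift_left (isShift q x k3), V_shift_right (isShift q x k3)]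
      ring
    rw [← h2, g, if_neg h.ne', if_neg h.not_gt]
    linear_combination x k3 * h1

lemma dm_bt (A b : ℕ) (k2 : Fin N) :
    (q - 1) * dm (bt q x A (b + 1)) k2
      = G1 q x A (b + 1) k2 (eqf q x) - L1 q x A (b + 1) k2 (ef x) :=
  sum_one' (F := fun a => bt q x A (b + 1) a k2) (fun _ => rfl) (crit1 q x A b k2)

lemma dm_bt' (B a : ℕ) (k2 : Fin N) :
    (q - 1) * dm (bt' q x B a) k2
      = G2 q x B a k2 (eqf q x) - L2 q x B a k2 (ef x) :=
  sum_one' (F := fun a' => bt' q x B a a' k2) (fun _ => rfl) (crit2 q x B a k2)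

end Run7.h247
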