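import Pool.Agent.Run7.h247.Bil

/-!
# A clique attached at one vertex, leaving one active vertex
-/

set_option autoImplicit false

namespace Run7.h247

open Finset Polynomial

variable {R : Type*} [CommRing R] (q : R) {N : ℕ} (x : Fin N → R)

lemma ef_mul (r : R) (c : ℕ) : ef (fun s => r * x s) c = r ^ c * ef x c := by
  have : (∏ s : Fin N, (1 + C (r * x s) * X) : R[X])
      = (∏ s : Fin N, (1 + C (x s) * X)).comp (C r * X) := by
    rw [Polynomial.prod_comp]
    refine Finset.prod_congr rfl fun s _ => ?_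
    simp only [add_comp, one_comp, mul_comp, C_comp, X_comp, C_mul]
    ring
  simp only [ef, this, comp_C_mul_X_coeff]
  ring

/-- splitting off one variable. -/
lemma ef_split {z z' : Fin N → R} (b : Fin N) (hb : z' b = 0) (h : ∀ s, s ≠ b → z' s = z s)
    (i : ℕ) : ef z (i + 1) = ef z' (i + 1) + z b * ef z' i := by
  have h1 : (∏ s : Fin N, (1 + C (z s) * X) : R[X])
      = (1 + C (z b) * X) * ∏ s : Fin N, (1 + C (z' s) * X) := by
    rw [← Finset.mul_prod_erase univ _ (mem_univ b),
      ← Finset.mul_prod_erase univ (fun s => (1 + C (z' s) * X : R[X])) (mem_univ b)]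
    have : (1 + C (z' b) * X : R[X]) = 1 := by rw [hb]; simp
    rw [this, one_mul]
    congr 1
    refine Finset.prod_congr rfl fun s hs => ?_
    rw [h s (Finset.ne_of_mem_erase hs)]
  simp only [ef, h1, add_mul, one_mul, coeff_add, mul_assoc, coeff_C_mul, coeff_X_mul]

lemma eqf_eq (i : ℕ) : eqf q x i = ef (fun s => q * x s) i := by
  rw [ef_mul]; rfl

lemma two_range {N : ℕ} (A B : ℕ → R) (b : Fin N) (G : Fin N → R)
    (hlt : ∀ a : Fin N, a < b → (q - 1) * G a = q * (A (a.val + 1) - A a.val))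
    (heq : G b = 0)
    (hgt : ∀ a : Fin N, b < a → (q - 1) * G a = B (a.val + 1) - B a.val) :
    (q - 1) * ∑ a, G a = q * (A b.val - A 0) + (B N - B (b.val + 1)) := by
  have h1 := tele A 0 b.val (Nat.zero_le _) b.isLt.le
  have h2 := tele B (b.val + 1) N b.isLt le_rfl
  rw [← h1, ← h2, Finset.mul_sum, Finset.mul_sum, ← Finset.sum_add_distrib]
  refine Finset.sum_congr rfl fun a _ => ?_
  have ha := a.isLt
  rcases lt_trichotomy a b with h | h | h
  · rw [hlt a h]
    rw [Fin.lt_def] at h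
    rw [if_pos ⟨Nat.zero_le _, h⟩, if_neg (by omega), add_zero]
  · subst h
    rw [heq, if_neg (by omega), if_neg (by omega)]
    ring
  · rw [hgt a h]
    rw [Fin.lt_def] at h
    rw [if_neg (by omega), if_pos ⟨by omega, ha⟩, mul_zero, zero_add]

/-- the clique operator with `r` middle vertices and one last vertex. -/
noncomputable def Rop (r : ℕ) (Z : Fin N → R) : Fin N → R := fun b =>
  x b * ∑ a, g q a b * Z a * ef (fun s => g q a s * (g q s b * x s)) r

lemma Rop_raw (r c : ℕ) (b : Fin N) :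
    (q - 1) * Rop q x r (fun a => Ef q x a (c + 1)) b
      = (∑ p ∈ antidiagonal r, ((q ^ (p.2 + 1) - 1) * q ^ p.1) * ef x p.1
          * Ef q x b (c + 2 + p.2))
        + ∑ p ∈ antidiagonal r, (q ^ (c + 1 + p.2) - q ^ (r + 1)) * ef x (c + 1 + p.2)
          * Ef q x b (p.1 + 1) := by
  have hyb : yk q x b b = 0 := by simp [yk, g]
  have hD : Df q (yk q x b) b = 0 := by
    funext i
    cases i with
    | zero => rfl
    | succ i => simp [Df, hyb]
  have key := two_range (N := N) q (Ph q x q r (c + 1) (yk q x b))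
    (Ph q x 1 r (c + 1) (yk q x b)) b
    (fun a => g q a b * Ef q x a (c + 1) * ef (fun s => g q a s * (g q s b * x s)) r)
    (by
      intro a ha
      have hy : yk q x b a = q * x a := by simp [yk, g, ha.ne, ha]
      rw [Ph_step q x hy]
      simp only [g, if_neg ha.ne, if_pos ha, Mf, yk]
      ring)
    (by simp [g])
    (by
      intro a ha
      have hy : yk q x b a = 1 * x a := by simp [yk, g, ha.ne', ha.not_gt]
      rw [Ph_step q x hy]
      simp only [g, if_neg ha.ne', if_neg ha.not_gt, Mf, yk]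
      ring)
  have hM0 : eqf q x 0 = Mf q (yk q x b) b 0 := by
    simp [eqf, Mf, ef_zero]
  have hM : ∀ i, eqf q x (i + 1) = Mf q (yk q x b) b (i + 1) + q * 1 * x b
      * Mf q (yk q x b) b i := by
    intro i
    rw [eqf_eq, Mf, ef_split (z' := fun s => g q b s * yk q x b s) b]
    · ring
    · simp [g]
    · intro s hs
      simp only [yk, g, if_neg hs, if_neg (Ne.symm hs)]
      rcases lt_or_gt_of_ne hs with h | h
      · rw [if_neg h.not_gt, if_pos h]; ring
      · rw [if_pos h, if_neg h.not_gt]; ring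
  have h1 := V_collapse q (l := 1) (isShift q x b) hM0 hM r c
  have h2 : Ph q x q r (c + 1) (yk q x b) b.val
      = V q r (c + 1) (Mf q (yk q x b) b) (Wf q x b + Ef q x b) := by
    rw [Ph, Qf_val, hD, smul_zero, add_zero, Pf_val]
  have h3 : Ph q x 1 r (c + 1) (yk q x b) (b.val + 1)
      = V 1 r (c + 1) (Mf q (yk q x b) b) (Wf q x b + q • Ef q x b) := by
    rw [Ph, Qf_succ, hD, add_zero, Pf_succ]
  have h4 : Ph q x q r (c + 1) (yk q x b) 0
      = V q r (c + 1) (fun i => q ^ i * Wf q x b i) (ef x) := by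
    rw [Ph, Qf_zero, ef_yk, Pf_zero]
  have h5 : Ph q x 1 r (c + 1) (yk q x b) N
      = V 1 r (c + 1) (Wf q x b) (eqf q x) := by
    rw [Ph, Qf_N, ef_yk, Pf_N]
  have hE : ∀ i, Ef q x b (i + 1) = x b * Wf q x b i := fun i => rfl
  have e1 : (∑ p ∈ antidiagonal r, ((q ^ (p.2 + 1) - 1) * q ^ p.1) * ef x p.1
          * Ef q x b (c + 2 + p.2))
      = x b * ((q - 1) * (1 * ∑ p ∈ antidiagonal r, 1 ^ p.2 * qn q (p.2 + 1) * eqf q x p.1
          * Wf q x b (c + 1 + p.2))) := by
    rw [Finset.mul_sum, Finset.mul_sum, Finset.mul_sum]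
    refine Finset.sum_congr rfl fun p _ => ?_
    have h6 := qn_mul q (p.2 + 1)
    rw [show c + 2 + p.2 = (c + 1 + p.2) + 1 by omega, hE, one_pow, eqf, ← h6]
    ring
  have e2 : (∑ p ∈ antidiagonal r, (q ^ (c + 1 + p.2) - q ^ (r + 1)) * ef x (c + 1 + p.2)
          * Ef q x b (p.1 + 1))
      = x b * (V 1 r (c + 1) (Wf q x b) (eqf q x)
        - q * V q r (c + 1) (fun i => q ^ i * Wf q x b i) (ef x)) := by
    rw [V_apply, V_apply, Finset.mul_sum, ← Finset.sum_sub_distrib, Finset.mul_sum]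
    refine Finset.sum_congr rfl fun p hp => ?_
    rw [HasAntidiagonal.mem_antidiagonal] at hp
    rw [hE, one_pow, eqf, ← hp]
    ring
  rw [e1, e2, ← h1]
  unfold Rop
  rw [h2, h3, h4, h5] at key
  simp only [mul_one, one_mul]
  linear_combination x b * key

lemma sum_anti (r : ℕ) (f : ℕ → ℕ → R) :
    ∑ p ∈ antidiagonal r, f p.1 p.2 = ∑ i ∈ range (r + 1), f i (r - i) :=
  Finset.Nat.sum_antidiagonal_eq_sum_range_succ f r

lemma sum_anti' (r : ℕ) (f : ℕ → ℕ → R) :
    ∑ p ∈ antidiagonal r, f p.1 p.2 = ∑ i ∈ range (r + 1), f (r - i) i := by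
  rw [← Finset.Nat.sum_antidiagonal_eq_sum_range_succ (fun i j => f j i) r,
    ← Finset.Nat.sum_antidiagonal_swap]
  rfl

/-- interval bookkeeping. -/
lemma swap_sums (D : ℕ → R) (m n : ℕ) :
    (∑ j ∈ range n, D (m + j)) - ∑ i ∈ range n, D i
      = (∑ j ∈ range m, D (n + j)) - ∑ i ∈ range m, D i := by
  have h1 := Finset.sum_range_add D m n
  have h2 := Finset.sum_range_add D n m
  rw [Nat.add_comm n m] at h2
  linear_combination h2 - h1

section Dom

variable [IsDomain R] {q}

omit [IsDomain R] in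
lemma Rop_D (r c : ℕ) (b : Fin N) :
    (q - 1) * Rop q x r (fun a => Ef q x a (c + 1)) b
      = (∑ j ∈ range (r + 1), (q ^ (c + 1 + j) - q ^ (r + 1)) * ef x (c + 1 + j)
          * Ef q x b (c + r + 2 - (c + 1 + j)))
        - ∑ i ∈ range (r + 1), (q ^ i - q ^ (r + 1)) * ef x i * Ef q x b (c + r + 2 - i) := by
  rw [Rop_raw, sum_anti r (fun i j => ((q ^ (j + 1) - 1) * q ^ i) * ef x i
          * Ef q x b (c + 2 + j)),
    sum_anti' r (fun i j => (q ^ (c + 1 + j) - q ^ (r + 1)) * ef x (c + 1 + j)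
          * Ef q x b (i + 1)), add_comm, sub_eq_add_neg, ← Finset.sum_neg_distrib]
  congr 1
  · refine Finset.sum_congr rfl fun j hj => ?_
    rw [mem_range] at hj
    rw [show c + r + 2 - (c + 1 + j) = r - j + 1 by omega]
  · refine Finset.sum_congr rfl fun i hi => ?_
    rw [mem_range] at hi
    rw [show c + r + 2 - i = c + 2 + (r - i) by omega]
    have : q ^ (r + 1) = q ^ (r - i + 1) * q ^ i := by
      rw [← pow_add]; congr 1; omega
    rw [this]
    ring

omit [IsDomain R] in
lemma pow_sub_pow (m l : ℕ) (h : l ≤ m) : q ^ m - q ^ l = (q - 1) * (q ^ l * qn q (m - l)) := by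
  have := qn_mul' q l (m - l)
  rwa [Nat.add_sub_cancel' h] at this

/-- positive form when the incoming index is large. -/
lemma Rop_large (hq1 : q - 1 ≠ 0) (r c : ℕ) (h : r ≤ c) (b : Fin N) :
    Rop q x r (fun a => Ef q x a (c + 1)) b
      = (∑ j ∈ range (r + 1), q ^ (r + 1) * qn q (c + 1 + j - (r + 1)) * ef x (c + 1 + j)
          * Ef q x b (r - j + 1))
        + ∑ i ∈ range (r + 1), q ^ i * qn q (r + 1 - i) * ef x i * Ef q x b (c + r + 1 - i + 1) := by
  refine mul_left_cancel₀ hq1 ?_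
  rw [Rop_D, mul_add, Finset.mul_sum, Finset.mul_sum, sub_eq_add_neg, ← Finset.sum_neg_distrib]
  congr 1
  · refine Finset.sum_congr rfl fun j hj => ?_
    rw [mem_range] at hj
    rw [show c + r + 2 - (c + 1 + j) = r - j + 1 by omega, pow_sub_pow _ _ (by omega)]
    ring
  · refine Finset.sum_congr rfl fun i hi => ?_
    rw [mem_range] at hi
    rw [show c + r + 2 - i = c + r + 1 - i + 1 by omega]
    have := pow_sub_pow (q := q) (r + 1) i (by omega)
    linear_combination (ef x i * Ef q x b (c + r + 1 - i + 1)) * this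

/-- positive form when the incoming index is small. -/
lemma Rop_small (hq1 : q - 1 ≠ 0) (r c : ℕ) (h : c ≤ r) (b : Fin N) :
    Rop q x r (fun a => Ef q x a (c + 1)) b
      = (∑ j ∈ range (c + 1), q ^ (r + 1) * qn q j * ef x (r + 1 + j)
          * Ef q x b (c - j + 1))
        + ∑ i ∈ range (c + 1), q ^ i * qn q (r + 1 - i) * ef x i * Ef q x b (c + r + 1 - i + 1) := by
  refine mul_left_cancel₀ hq1 ?_
  have h1 := swap_sums (fun i => (q ^ i - q ^ (r + 1)) * ef x i * Ef q x b (c + r + 2 - i))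
    (c + 1) (r + 1)
  rw [Rop_D]
  rw [h1, mul_add, Finset.mul_sum, Finset.mul_sum, sub_eq_add_neg, ← Finset.sum_neg_distrib]
  congr 1
  · refine Finset.sum_congr rfl fun j hj => ?_
    rw [mem_range] at hj
    rw [show c + r + 2 - (r + 1 + j) = c - j + 1 by omega, pow_sub_pow _ _ (by omega),
      Nat.add_sub_cancel_left]
    ring
  · refine Finset.sum_congr rfl fun i hi => ?_
    rw [mem_range] at hi
    rw [show c + r + 2 - i = c + r + 1 - i + 1 by omega]
    have := pow_sub_pow (q := q) (r + 1) i (by omega)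
    linear_combination (ef x i * Ef q x b (c + r + 1 - i + 1)) * this

end Dom

end Run7.h247
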