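import Mathlib

/-!
# Sequences and telescoping sums

Elementary building blocks for the transfer analysis of chromatic quasisymmetric functions:
bilinear convolution forms `U`, `V`, the one-vertex generating functions `Ef`, and telescoping.
-/

set_option autoImplicit false

namespace Run7.h247

open Finset Polynomial

section Tele

lemma tele {N : ℕ} {M : Type*} [AddCommGroup M] (a : ℕ → M) (lo hi : ℕ) (h1 : lo ≤ hi)
    (h2 : hi ≤ N) :
    ∑ k : Fin N, (if lo ≤ k.val ∧ k.val < hi then a (k.val + 1) - a k.val else 0)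
      = a hi - a lo := by
  rw [Fin.sum_univ_eq_sum_range
    (fun i => if lo ≤ i ∧ i < hi then a (i + 1) - a i else 0) N, ← Finset.sum_filter]
  have hf : (range N).filter (fun i => lo ≤ i ∧ i < hi) = Ico lo hi := by
    ext i
    simp only [mem_filter, mem_range, mem_Ico]
    omega
  rw [hf, Finset.sum_Ico_eq_sum_range]
  have := Finset.sum_range_sub (fun i => a (lo + i)) (hi - lo)
  simp only [Nat.add_zero, Nat.add_sub_cancel' h1] at this
  rw [← this]
  apply Finset.sum_congr rfl
  intro i _
  rw [Nat.add_assoc]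

end Tele

section Forms

variable {R : Type*} [CommRing R] (q : R)

/-- the convolution form `∑ q^i f_i g_(b+j)` over `i + j = A`, as a bilinear map. -/
noncomputable def U (A b : ℕ) : (ℕ → R) →ₗ[R] (ℕ → R) →ₗ[R] R :=
  LinearMap.mk₂ R (fun f g => ∑ p ∈ antidiagonal A, q ^ p.1 * f p.1 * g (b + p.2))
    (by
      intro f f' g
      rw [← Finset.sum_add_distrib]
      refine Finset.sum_congr rfl fun p _ => ?_
      simp only [Pi.add_apply]; ring)
    (by
      intro c f g
      rw [Finset.smul_sum]
      refine Finset.sum_congr rfl fun p _ => ?_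
      simp only [Pi.smul_apply, smul_eq_mul]; ring)
    (by
      intro f g g'
      rw [← Finset.sum_add_distrib]
      refine Finset.sum_congr rfl fun p _ => ?_
      simp only [Pi.add_apply]; ring)
    (by
      intro c f g
      rw [Finset.smul_sum]
      refine Finset.sum_congr rfl fun p _ => ?_
      simp only [Pi.smul_apply, smul_eq_mul]; ring)

/-- the convolution form `∑ q^j f_i g_(b+j)` over `i + j = A`, as a bilinear map. -/
noncomputable def V (A b : ℕ) : (ℕ → R) →ₗ[R] (ℕ → R) →ₗ[R] R :=
  LinearMap.mk₂ R (fun f g => ∑ p ∈ antidiagonal A, q ^ p.2 * f p.1 * g (b + p.2))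
    (by
      intro f f' g
      rw [← Finset.sum_add_distrib]
      refine Finset.sum_congr rfl fun p _ => ?_
      simp only [Pi.add_apply]; ring)
    (by
      intro c f g
      rw [Finset.smul_sum]
      refine Finset.sum_congr rfl fun p _ => ?_
      simp only [Pi.smul_apply, smul_eq_mul]; ring)
    (by
      intro f g g'
      rw [← Finset.sum_add_distrib]
      refine Finset.sum_congr rfl fun p _ => ?_
      simp only [Pi.add_apply]; ring)
    (by
      intro c f g
      rw [Finset.smul_sum]
      refine Finset.sum_congr rfl fun p _ => ?_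
      simp only [Pi.smul_apply, smul_eq_mul]; ring)

lemma U_apply (A b : ℕ) (f g : ℕ → R) :
    U q A b f g = ∑ p ∈ antidiagonal A, q ^ p.1 * f p.1 * g (b + p.2) := rfl

lemma V_apply (A b : ℕ) (f g : ℕ → R) :
    V q A b f g = ∑ p ∈ antidiagonal A, q ^ p.2 * f p.1 * g (b + p.2) := rfl

lemma U_succ (A b : ℕ) (f g : ℕ → R) :
    U q (A + 1) b f g = q ^ (A + 1) * f (A + 1) * g b + U q A (b + 1) f g := by
  rw [U_apply, U_apply, Finset.Nat.sum_antidiagonal_succ']
  simp only [Nat.add_zero]
  congr 1
  refine Finset.sum_congr rfl fun p _ => ?_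
  rw [show b + (p.2 + 1) = b + 1 + p.2 by omega]

lemma V_succ (A b : ℕ) (f g : ℕ → R) :
    V q (A + 1) b f g = f (A + 1) * g b + q * V q A (b + 1) f g := by
  rw [V_apply, V_apply, Finset.Nat.sum_antidiagonal_succ', Finset.mul_sum]
  simp only [Nat.add_zero, pow_zero, one_mul]
  congr 1
  refine Finset.sum_congr rfl fun p _ => ?_
  rw [show b + (p.2 + 1) = b + 1 + p.2 by omega]
  ring

/-- `E` is `x t` times `W`. -/
def IsShift (a : R) (W E : ℕ → R) : Prop := E 0 = 0 ∧ ∀ c, E (c + 1) = a * W c

variable {q}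

lemma U_shift_right {a : R} {W E : ℕ → R} (h : IsShift a W E) (A b : ℕ) (f : ℕ → R) :
    U q A (b + 1) f E = a * U q A b f W := by
  rw [U_apply, U_apply, Finset.mul_sum]
  refine Finset.sum_congr rfl fun p _ => ?_
  rw [show b + 1 + p.2 = (b + p.2) + 1 by omega, h.2]
  ring

lemma V_shift_right {a : R} {W E : ℕ → R} (h : IsShift a W E) (A b : ℕ) (f : ℕ → R) :
    V q A (b + 1) f E = a * V q A b f W := by
  rw [V_apply, V_apply, Finset.mul_sum]
  refine Finset.sum_congr rfl fun p _ => ?_
  rw [show b + 1 + p.2 = (b + p.2) + 1 by omega, h.2]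
  ring

lemma U_shift_left {a : R} {W E : ℕ → R} (h : IsShift a W E) (A b : ℕ) (g : ℕ → R) :
    U q (A + 1) b E g = q * a * U q A b W g := by
  rw [U_apply, U_apply, Finset.Nat.sum_antidiagonal_succ, Finset.mul_sum]
  simp only [h.1, mul_zero, zero_mul, zero_add]
  refine Finset.sum_congr rfl fun p _ => ?_
  rw [h.2]
  ring

lemma V_shift_left {a : R} {W E : ℕ → R} (h : IsShift a W E) (A b : ℕ) (g : ℕ → R) :
    V q (A + 1) b E g = a * V q A b W g := by
  rw [V_apply, V_apply, Finset.Nat.sum_antidiagonal_succ, Finset.mul_sum]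
  simp only [h.1, mul_zero, zero_mul, zero_add]
  refine Finset.sum_congr rfl fun p _ => ?_
  rw [h.2]
  ring

/-- key cancellation for `U`. -/
lemma U_key {a : R} {W E : ℕ → R} (h : IsShift a W E) (A b : ℕ) :
    q * U q A (b + 1) W E - U q A (b + 1) E W = q ^ (A + 1) * a * W A * W b := by
  cases A with
  | zero =>
    simp only [U_apply, Finset.Nat.antidiagonal_zero, sum_singleton, pow_zero, one_mul, Nat.add_zero, h.1,
      h.2, zero_mul, sub_zero]
    ring
  | succ A =>
    rw [U_shift_right h, U_shift_left h, U_succ]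
    ring

/-- key cancellation for `V`. -/
lemma V_key {a : R} {W E : ℕ → R} (h : IsShift a W E) (A b : ℕ) :
    V q A (b + 1) W E - q * V q A (b + 1) E W = a * W A * W b := by
  cases A with
  | zero =>
    simp only [V_apply, Finset.Nat.antidiagonal_zero, sum_singleton, pow_zero, one_mul, Nat.add_zero, h.1,
      h.2, zero_mul, mul_zero, sub_zero]
    ring
  | succ A =>
    rw [V_shift_right h, V_shift_left h, V_succ]
    ring

end Forms

section Gen

variable {R : Type*} [CommRing R] (q : R) {N : ℕ} (x : Fin N → R)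

/-- product over `s ≠ k` of `1 + q^[s<k] x_s t`. -/
noncomputable def Wp (k : Fin N) : R[X] :=
  ∏ s : Fin N, if s = k then 1 else 1 + C ((if s < k then q else 1) * x s) * X

/-- product over all `s` of `1 + q^[s<k] x_s t`. -/
noncomputable def Pp (k : ℕ) : R[X] :=
  ∏ s : Fin N, (1 + C ((if s.val < k then q else 1) * x s) * X)

lemma Pp_val (k : Fin N) : Pp q x k.val = (1 + C (x k) * X) * Wp q x k := by
  unfold Pp Wp
  rw [← Finset.mul_prod_erase univ _ (mem_univ k), ← Finset.mul_prod_erase univ
    (fun s => if s = k then (1 : R[X]) else 1 + C ((if s < k then q else 1) * x s) * X)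
    (mem_univ k)]
  simp only [lt_irrefl, if_false, if_true, one_mul]
  congr 1
  refine Finset.prod_congr rfl fun s hs => ?_
  rw [if_neg (Finset.ne_of_mem_erase hs)]
  simp only [Fin.lt_def]

lemma Pp_succ (k : Fin N) : Pp q x (k.val + 1) = (1 + C (q * x k) * X) * Wp q x k := by
  unfold Pp Wp
  rw [← Finset.mul_prod_erase univ _ (mem_univ k), ← Finset.mul_prod_erase univ
    (fun s => if s = k then (1 : R[X]) else 1 + C ((if s < k then q else 1) * x s) * X)
    (mem_univ k)]
  simp only [lt_add_one, if_true, one_mul]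
  congr 1
  refine Finset.prod_congr rfl fun s hs => ?_
  have hne := Finset.ne_of_mem_erase hs
  rw [if_neg hne]
  have : (s.val < k.val + 1) ↔ s < k := by
    rw [Fin.lt_def]
    have : s.val ≠ k.val := fun h => hne (Fin.ext h)
    omega
  simp only [this]

/-- coefficients of `Wp`. -/
noncomputable def Wf (k : Fin N) : ℕ → R := fun c => (Wp q x k).coeff c

/-- one-vertex functions `E_c(k)`. -/
noncomputable def Ef (k : Fin N) : ℕ → R
  | 0 => 0
  | c + 1 => x k * Wf q x k c

/-- coefficients of `Pp`. -/
noncomputable def Pf (k : ℕ) : ℕ → R := fun c => (Pp q x k).coeff c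

lemma isShift (k : Fin N) : IsShift (x k) (Wf q x k) (Ef q x k) := ⟨rfl, fun _ => rfl⟩

lemma Pf_val (k : Fin N) : Pf q x k.val = Wf q x k + Ef q x k := by
  funext c
  simp only [Pf, Pp_val, Pi.add_apply, add_mul, one_mul, coeff_add, Wf]
  congr 1
  cases c with
  | zero => simp [Ef]
  | succ c => rw [mul_assoc, coeff_C_mul, coeff_X_mul]; rfl

lemma Pf_succ (k : Fin N) : Pf q x (k.val + 1) = Wf q x k + q • Ef q x k := by
  funext c
  simp only [Pf, Pp_succ, Pi.add_apply, add_mul, one_mul, coeff_add, Wf, Pi.smul_apply,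
    smul_eq_mul]
  congr 1
  cases c with
  | zero => simp [Ef]
  | succ c =>
    rw [mul_assoc, coeff_C_mul, coeff_X_mul]
    show q * x k * _ = q * (x k * _)
    rw [mul_assoc]
    rfl

/-- elementary symmetric polynomials of `x`. -/
noncomputable def ef : ℕ → R := fun c => (∏ s : Fin N, (1 + C (x s) * X)).coeff c

/-- `q^c e_c`. -/
noncomputable def eqf : ℕ → R := fun c => q ^ c * ef x c

lemma Pf_zero : Pf q x 0 = ef x := by
  funext c
  simp [Pf, Pp, ef]

lemma Pf_N : Pf q x N = eqf q x := by
  funext c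
  have : Pp q x N = (∏ s : Fin N, (1 + C (x s) * X)).comp (C q * X) := by
    rw [Polynomial.prod_comp]
    refine Finset.prod_congr rfl fun s _ => ?_
    rw [if_pos s.isLt]
    simp only [add_comp, one_comp, mul_comp, C_comp, X_comp, C_mul]
    ring
  simp only [Pf, this, comp_C_mul_X_coeff, eqf, ef]
  ring

lemma ef_zero : ef x 0 = 1 := by
  unfold ef
  rw [coeff_zero_eq_eval_zero, eval_prod]
  simp

end Gen

end Run7.h247
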